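import Pool.Agent.Msh.Base
import Pool.Agent.Ep.Nrm
import Pool.Agent.Ep.Ext

/-!
# Sheaves of microdifferential operators and regular holonomic modules (P11, helper39)

Sheaves are given as étalé spaces: a sheaf on a topological space `T` is a family of stalks `A p`
together with, for every germ `a ∈ A p`, a section `ext p a` on a neighbourhood of `p` with germ
`a` at `p` (its values outside of this neighbourhood are irrelevant). A family of germs `u q ∈ A q`,
`q ∈ V`, is a section on the open set `V` if `u q = ext p (u p) q` for all `p ∈ V` and all `q` near `p`.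
-/

set_option autoImplicit false

namespace Pool.Agent.Msh

open Topology Filter
open Pool.Agent.Ep (Op op vs hatE micE Ext tm)

/-- the ring of elements of order `≤ 0` -/
def FR.F0 {A : Type} [Ring A] (f : FR A) : Subring A where
  carrier := f.F 0
  mul_mem' := fun {a b} ha hb => f.mul 0 0 a b ha hb
  one_mem' := f.one
  add_mem' := (f.F 0).add_mem
  zero_mem' := (f.F 0).zero_mem
  neg_mem' := (f.F 0).neg_mem

variable {T : Type} [TopologicalSpace T]

/-- The germ at `p` of the conic set `Λ` has dimension at most `d + 1`: the commutative quotient rings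
of the ring of operators of order `≤ 0` in which all operators whose symbol of order `0` vanishes on
`Λ` become zero (the largest one is the ring of functions on the projectivisation of `Λ`) have
Krull dimension at most `d`. -/
def FRing.DimLE (R : FRing T) (Λ : Set T) (d : ℕ) (p : T) : Prop :=
  ∀ (O : Type) [CommRing O] (φ : (R.fil p).F0 →+* O), Function.Surjective φ →
    (∀ a : (R.fil p).F0, R.Van 0 Λ p a → φ a = 0) → ringKrullDim O ≤ d

/-- Let `B` be a subring of `A` and `L` a subset of an `A`-module. `L` is the `B`-module generated by the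
`l i`, and the relations between the `l i` over `B` are generated by the rows of the matrix `r`
with entries in `B`. -/
def Pres {A M : Type} [Ring A] [AddCommGroup M] [Module A M] (B : Subring A) (L : Set M)
    {k c : ℕ} (l : Fin k → M) (r : Fin c → Fin k → A) : Prop :=
  (∀ j i, r j i ∈ B) ∧
  (∀ u : M, u ∈ L ↔ ∃ b : Fin k → A, (∀ i, b i ∈ B) ∧ u = ∑ i, b i • l i) ∧
  (∀ b : Fin k → A, (∀ i, b i ∈ B) →
    (∑ i, b i • l i = 0 ↔ ∃ a : Fin c → A, (∀ j, a j ∈ B) ∧ ∀ i, b i = ∑ j, a j * r j i))

namespace FMod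

variable {R : FRing T} (M : FMod R)

/-- Let `B` be a sheaf of subrings of `R` and `L` a sheaf of `B`-submodules of `M`. Near `p`, `L` is
finitely presented over `B`: it is the cokernel of a matrix of sections of `B`. -/
def FP (B : ∀ q, Subring (R.A q)) (L : ∀ q, Set (M.M q)) (p : T) : Prop :=
  ∃ (k c : ℕ) (l : Fin k → M.M p) (r : Fin c → Fin k → R.A p), ∀ᶠ q in 𝓝 p,
    Pres (B q) (L q) (fun i => M.ext p (l i) q) (fun j i => R.ext p (r j i) q)

/-- `L` is, on the open set `V`, a coherent submodule over the operators of order `≤ 0` which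
generates `M` and satisfies `J_Λ L ⊆ L`, where `Λ` is the support of `M`. -/
def Lattice (V : Set T) (L : ∀ q, Set (M.M q)) : Prop :=
  ∀ q ∈ V, M.FP (fun q => (R.fil q).F0) L q ∧
    (∀ u : M.M q, u ∈ Submodule.span (R.A q) (L q)) ∧
    (∀ a ∈ (R.fil q).F 1, R.Van 1 M.supp q a → ∀ u ∈ L q, a • u ∈ L q)

/-- Regular holonomic modules. `Z` is the zero section of the cotangent bundle and `d + 1` the
dimension of the base. -/
structure RH (Z : Set T) (d : ℕ) : Prop where
  coh : ∀ p, M.FP (fun _ => ⊤) (fun _ => Set.univ) p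
  hol : ∀ p, p ∉ Z → R.DimLE M.supp d p
  reg : ∀ p, ∃ (V : Set T) (L : ∀ q, Set (M.M q)), IsOpen V ∧ p ∈ V ∧ M.Lattice V L

end FMod

/-- The stalk at a point `p` outside the zero section of the cotangent bundle of a manifold of
dimension `d + 1`, in coordinates with `p = (0; dt)`: `σ = ∂_t⁻¹`, and `e` identifies the operators of
order `≤ 0` with their total symbols. -/
def Std (d : ℕ) {A : Type} [Ring A] (f : FR A) (E : Subring A) : Prop :=
  ∃ (σ τ : A) (e : f.F0 ≃+* hatE d) (h : σ ∈ f.F0), σ ∈ f.F (-1) ∧ τ ∈ f.F 1 ∧ σ ∈ E ∧ τ ∈ E ∧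
    σ * τ = 1 ∧ τ * σ = 1 ∧ ((e ⟨σ, h⟩ : hatE d) : Op d) = op vs ∧
    ∀ a : f.F0, (a : A) ∈ E ↔ ((e a : hatE d) : Op d) ∈ micE d

/-- The sheaves `E ⊆ hat E` of microdifferential and formal microdifferential operators on an open
subset `T` of the cotangent bundle of a complex manifold of dimension `d + 1`, with the zero section
`Z`. On the zero section both are the differential operators. -/
structure MSheaf (T : Type) [TopologicalSpace T] (d : ℕ) where
  /-- formal microdifferential operators -/
  hat : FRing T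
  /-- microdifferential operators -/
  E : ∀ p, Subring (hat.A p)
  ext_E : ∀ p, ∀ a ∈ E p, ∀ᶠ q in 𝓝 p, hat.ext p a q ∈ E q
  /-- the zero section -/
  Z : Set T
  zero : ∀ p ∈ Z, E p = ⊤ ∧ (hat.fil p).F (-1) = ⊥ ∧ (1 : hat.A p) ≠ 0
  std : ∀ p, p ∉ Z → Std d (hat.fil p) (E p)

namespace MSheaf

variable {d : ℕ} (P : MSheaf T d)

open Classical in
/-- the sheaf of microdifferential operators as a sheaf of filtered rings -/
noncomputable def mic : FRing T where
  A p := P.E p
  ext p a q := if h : P.hat.ext p a q ∈ P.E q then ⟨_, h⟩ else 0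
  ext_self p a := by
    have h : P.hat.ext p a p ∈ P.E p := by rw [P.hat.ext_self]; exact a.2
    rw [dif_pos h]
    exact Subtype.ext (P.hat.ext_self p a)
  ext_ext p a := by
    filter_upwards [P.ext_E p a a.2, (P.ext_E p a a.2).eventually_nhds, P.hat.ext_ext p a]
      with q h1 h2 h3
    filter_upwards [h2, h3] with r h4 h5
    have h6 : P.hat.ext q (⟨P.hat.ext p a q, h1⟩ : P.E q) r ∈ P.E r := by rw [h5]; exact h4
    rw [dif_pos h1, dif_pos h4, dif_pos h6]
    exact Subtype.ext h5
  ext_add p a b := by
    filter_upwards [P.ext_E p a a.2, P.ext_E p b b.2, P.hat.ext_add p a b] with q h1 h2 h3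
    have h4 : P.hat.ext p ((a + b : P.E p) : P.hat.A p) q ∈ P.E q := by
      rw [Subring.coe_add, h3]; exact (P.E q).add_mem h1 h2
    rw [dif_pos h1, dif_pos h2, dif_pos h4]
    exact Subtype.ext h3
  ext_mul p a b := by
    filter_upwards [P.ext_E p a a.2, P.ext_E p b b.2, P.hat.ext_mul p a b] with q h1 h2 h3
    have h4 : P.hat.ext p ((a * b : P.E p) : P.hat.A p) q ∈ P.E q := by
      rw [Subring.coe_mul, h3]; exact (P.E q).mul_mem h1 h2
    rw [dif_pos h1, dif_pos h2, dif_pos h4]
    exact Subtype.ext h3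
  ext_one p := by
    filter_upwards [P.hat.ext_one p] with q h1
    have h2 : P.hat.ext p ((1 : P.E p) : P.hat.A p) q ∈ P.E q := by
      rw [Subring.coe_one, h1]; exact (P.E q).one_mem
    rw [dif_pos h2]
    exact Subtype.ext h1
  fil p :=
    { F := fun m => ((P.hat.fil p).F m).comap (P.E p).subtype.toAddMonoidHom
      mono := fun m _ ha => (P.hat.fil p).mono m ha
      one := (P.hat.fil p).one
      mul := fun m n a b ha hb => (P.hat.fil p).mul m n a b ha hb
      exh := fun a => (P.hat.fil p).exh a }
  ext_fil m p a ha := by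
    filter_upwards [P.ext_E p a a.2, P.hat.ext_fil m p a ha] with q h1 h2
    rw [dif_pos h1]
    exact h2

variable (M : FMod P.hat)

/-- a sheaf of submodules of `M` over the microdifferential operators -/
structure Sub where
  /-- the stalks -/
  N : ∀ p, Submodule (P.E p) (M.M p)
  ext_N : ∀ p, ∀ u ∈ N p, ∀ᶠ q in 𝓝 p, M.ext p u q ∈ N q

open Classical in
/-- a sheaf of submodules as a sheaf of modules -/
noncomputable def Sub.mod {P : MSheaf T d} {M : FMod P.hat} (N : P.Sub M) : FMod P.mic where
  M p := N.N p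
  mod p := inferInstanceAs (Module (P.E p) (N.N p))
  ext p u q := if h : M.ext p u q ∈ N.N q then ⟨_, h⟩ else 0
  ext_self p u := by
    have h : M.ext p u p ∈ N.N p := by rw [M.ext_self]; exact u.2
    rw [dif_pos h]
    exact Subtype.ext (M.ext_self p u)
  ext_ext p u := by
    filter_upwards [N.ext_N p u u.2, (N.ext_N p u u.2).eventually_nhds, M.ext_ext p u]
      with q h1 h2 h3
    filter_upwards [h2, h3] with r h4 h5
    have h6 : M.ext q (⟨M.ext p u q, h1⟩ : N.N q) r ∈ N.N r := by rw [h5]; exact h4
    rw [dif_pos h1, dif_pos h4, dif_pos h6]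
    exact Subtype.ext h5
  ext_add p u v := by
    filter_upwards [N.ext_N p u u.2, N.ext_N p v v.2, M.ext_add p u v] with q h1 h2 h3
    have h4 : M.ext p ((u + v : N.N p) : M.M p) q ∈ N.N q := by
      rw [Submodule.coe_add, h3]; exact (N.N q).add_mem h1 h2
    rw [dif_pos h1, dif_pos h2, dif_pos h4]
    exact Subtype.ext h3
  ext_smul p a u := by
    let a' : P.E p := a
    filter_upwards [N.ext_N p u u.2, P.ext_E p _ a'.2, M.ext_smul p (a' : P.hat.A p) u]
      with q h1 h2 h3
    have h5 : M.ext p ((a' • u : N.N p) : M.M p) q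
        = (((⟨_, h2⟩ : P.E q) • (⟨_, h1⟩ : N.N q) : N.N q) : M.M q) := h3
    have h4 : M.ext p ((a' • u : N.N p) : M.M p) q ∈ N.N q := by
      rw [h5]
      exact Subtype.property _
    have h6 : P.mic.ext p a q = (⟨_, h2⟩ : P.E q) := dif_pos h2
    rw [h6, dif_pos h1]
    refine (dif_pos h4).trans ?_
    exact Subtype.ext h5

/-- `hat E ⊗_E N = M`: at every point the natural map from the tensor product is an isomorphism -/
def Sub.IsForm {P : MSheaf T d} {M : FMod P.hat} (N : P.Sub M) : Prop :=
  ∀ p, ∃ F : Ext (P.E p).subtype (N.N p) ≃ₗ[P.hat.A p] M.M p,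
    ∀ b (n : N.N p), F (tm (P.E p).subtype b n) = b • (n : M.M p)

end MSheaf

end Pool.Agent.Msh
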