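import Pool.Agent.Msh.Main

/-!
# Morphisms (P11, sheaf level, helper39)

A morphism of regular holonomic modules over the formal microdifferential operators respects the
forms: apply uniqueness to `M × M'` and the automorphism `(u, v) ↦ (u, v + g u)`.
-/

set_option autoImplicit false

namespace Pool.Agent.Msh

open Topology Filter

variable {d : ℕ}

section alg

variable {A : Type} [Ring A] {f : FR A} {E : Subring A} {σ τ : A}
variable {M M' : Type} [AddCommGroup M] [Module A M] [AddCommGroup M'] [Module A M']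

/-! ## row h1: families in a product -/

/-- the family `(n_i, 0), (0, n'_j)` -/
def pfam {m m' : ℕ} (n : Fin m → M) (n' : Fin m' → M') : Fin (m + m') → M × M' :=
  Fin.append (fun i => (n i, 0)) (fun j => (0, n' j))

private theorem h1_sum {B : Type} [Ring B] {M M' : Type} [AddCommGroup M] [Module B M]
    [AddCommGroup M'] [Module B M'] {m m' : ℕ} (n : Fin m → M) (n' : Fin m' → M')
    (a : Fin (m + m') → B) : ∑ i, a i • pfam n n' i =
      (∑ i, a (Fin.castAdd m' i) • n i, ∑ j, a (Fin.natAdd m j) • n' j) := by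
  rw [Fin.sum_univ_add]
  have h1 : ∀ i, pfam n n' (Fin.castAdd m' i) = (n i, 0) := fun i => Fin.append_left _ _ i
  have h2 : ∀ j, pfam n n' (Fin.natAdd m j) = (0, n' j) := fun j => Fin.append_right _ _ j
  refine Prod.ext ?_ ?_
  · rw [Prod.fst_add, Prod.fst_sum, Prod.fst_sum]
    simp only [h1, h2, Prod.smul_fst, smul_zero, Finset.sum_const_zero, add_zero]
  · rw [Prod.snd_add, Prod.snd_sum, Prod.snd_sum]
    simp only [h1, h2, Prod.smul_snd, smul_zero, Finset.sum_const_zero, zero_add]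

theorem Gen.prod {B : Subring A} {L : Set M} {L' : Set M'} {m m' : ℕ} {n : Fin m → M}
    {n' : Fin m' → M'} (hn : Gen B L n) (hn' : Gen B L' n') :
    Gen B {u : M × M' | u.1 ∈ L ∧ u.2 ∈ L'} (pfam n n') := by
  intro u
  constructor
  · rintro ⟨h1, h2⟩
    obtain ⟨b, hb, e⟩ := (hn _).1 h1
    obtain ⟨b', hb', e'⟩ := (hn' _).1 h2
    refine ⟨Fin.append b b', fun i => ?_, ?_⟩
    · refine Fin.addCases (fun i => ?_) (fun j => ?_) i
      · rw [Fin.append_left]; exact hb i
      · rw [Fin.append_right]; exact hb' j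
    · rw [h1_sum]
      simp only [Fin.append_left, Fin.append_right]
      exact Prod.ext e e'
  · rintro ⟨b, hb, e⟩
    rw [h1_sum] at e
    exact ⟨(hn _).2 ⟨_, fun i => hb _, congrArg Prod.fst e⟩,
      (hn' _).2 ⟨_, fun j => hb _, congrArg Prod.snd e⟩⟩

theorem GR.prod {m m' : ℕ} {n : Fin m → M} {n' : Fin m' → M'} (hn : GR f E n) (hn' : GR f E n') :
    GR f E (pfam n n') := by
  intro a ha h
  rw [h1_sum] at h
  obtain ⟨q, c, b, hc, hb, hr, e⟩ := hn (fun i => a (Fin.castAdd m' i)) (fun i => ha _)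
    (congrArg Prod.fst h)
  obtain ⟨q', c', b', hc', hb', hr', e'⟩ := hn' (fun j => a (Fin.natAdd m j)) (fun j => ha _)
    (congrArg Prod.snd h)
  have z : (0 : A) ∈ E ⊓ f.F0 := (E ⊓ f.F0).zero_mem
  refine ⟨q + q', Fin.append c c',
    Fin.append (fun j => Fin.append (b j) 0) (fun j => Fin.append 0 (b' j)), ?_, ?_, ?_, ?_⟩
  · intro j
    refine Fin.addCases (fun i => ?_) (fun j => ?_) j
    · rw [Fin.append_left]; exact hc i
    · rw [Fin.append_right]; exact hc' j
  · intro j i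
    refine Fin.addCases (fun j => ?_) (fun j => ?_) j
    · rw [Fin.append_left]
      refine Fin.addCases (fun i => ?_) (fun i => ?_) i
      · rw [Fin.append_left]; exact hb j i
      · rw [Fin.append_right]; exact z
    · rw [Fin.append_right]
      refine Fin.addCases (fun i => ?_) (fun i => ?_) i
      · rw [Fin.append_left]; exact z
      · rw [Fin.append_right]; exact hb' j i
  · intro j
    rw [h1_sum]
    refine Fin.addCases (fun j => ?_) (fun j => ?_) j
    · simp only [Fin.append_left, Fin.append_right, Pi.zero_apply, zero_smul,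
        Finset.sum_const_zero]
      exact Prod.ext (hr j) rfl
    · simp only [Fin.append_left, Fin.append_right, Pi.zero_apply, zero_smul,
        Finset.sum_const_zero]
      exact Prod.ext rfl (hr' j)
  · intro i
    rw [Fin.sum_univ_add]
    refine Fin.addCases (fun i => ?_) (fun i => ?_) i
    · simp only [Fin.append_left, Fin.append_right, Pi.zero_apply, mul_zero,
        Finset.sum_const_zero, add_zero]
      exact e i
    · simp only [Fin.append_left, Fin.append_right, Pi.zero_apply, mul_zero,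
        Finset.sum_const_zero, zero_add]
      exact e' i

/-! ## row h2: transport along an isomorphism -/

theorem Gen.map {B : Subring A} {L : Set M} {m : ℕ} {n : Fin m → M} (hn : Gen B L n)
    (g : M ≃ₗ[A] M') : Gen B (g '' L) (fun i => g (n i)) := by
  intro u
  constructor
  · rintro ⟨v, hv, rfl⟩
    obtain ⟨b, hb, h⟩ := (hn v).1 hv
    exact ⟨b, hb, by rw [h, map_sum]; simp only [map_smul]⟩
  · rintro ⟨b, hb, rfl⟩
    exact ⟨∑ i, b i • n i, (hn _).2 ⟨b, hb, rfl⟩, by rw [map_sum]; simp only [map_smul]⟩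

theorem GR.map {m : ℕ} {n : Fin m → M} (hn : GR f E n) (g : M ≃ₗ[A] M') :
    GR f E (fun i => g (n i)) := by
  intro a ha h
  have h' : ∑ i, a i • n i = 0 := by
    apply g.injective
    rw [map_zero, ← h, map_sum]
    simp only [map_smul]
  obtain ⟨q, c, b, h1, h2, h3, h4⟩ := hn a ha h'
  refine ⟨q, c, b, h1, h2, fun j => ?_, h4⟩
  rw [← map_zero g, ← h3 j, map_sum]
  simp only [map_smul]

/-- `a L ⊆ σ L` for the image of `L` -/
private lemma h2_iff {L : Set M} (g : M ≃ₗ[A] M') (a : A) :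
    (∀ u ∈ g '' L, ∃ w ∈ g '' L, a • u = σ • w) ↔ ∀ u ∈ L, ∃ w ∈ L, a • u = σ • w := by
  constructor
  · intro h u hu
    obtain ⟨_, ⟨w, hw, rfl⟩, e⟩ := h (g u) ⟨u, hu, rfl⟩
    refine ⟨w, hw, g.injective ?_⟩
    rw [map_smul, map_smul, e]
  · rintro h _ ⟨u, hu, rfl⟩
    obtain ⟨w, hw, e⟩ := h u hu
    refine ⟨g w, ⟨w, hw, rfl⟩, ?_⟩
    rw [← map_smul, ← map_smul, e]

theorem Lat.map {L : Set M} (hL : Lat d f σ L) (g : M ≃ₗ[A] M') : Lat d f σ (g '' L) := by
  refine ⟨?_, ?_, ?_, ?_⟩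
  · obtain ⟨k, l, hl⟩ := hL.fg
    exact ⟨k, fun i => g (l i), hl.map g⟩
  · intro u
    have h := Submodule.mem_map_of_mem (f := (g : M →ₗ[A] M')) (hL.span (g.symm u))
    rw [Submodule.map_span] at h
    have h2 : (g : M →ₗ[A] M') (g.symm u) = u := g.apply_symm_apply u
    rw [h2] at h
    exact h
  · rintro a ha ⟨n, hn⟩
    exact (h2_iff g a).2 (hL.reg a ha ⟨n, (h2_iff g (a ^ n)).1 hn⟩)
  · intro O _ φ hφ h
    exact hL.hol O φ hφ fun a ha => h a ((h2_iff g (a : A)).2 ha)

/-! ## row h3: the product of two lattices -/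

/-- if the product of two ideals is zero, the dimension is the larger one of the dimensions of the
quotients -/
private lemma h3_dim {O : Type} [CommRing O] (J J' : Ideal O)
    (hJ : ∀ x ∈ J, ∀ y ∈ J', x * y = 0) {n : WithBot ℕ∞} (h1 : ringKrullDim (O ⧸ J) ≤ n)
    (h2 : ringKrullDim (O ⧸ J') ≤ n) : ringKrullDim O ≤ n := by
  rw [ringKrullDim_quotient] at h1 h2
  refine iSup_le fun p => ?_
  have key : ∀ I : Ideal O, Order.krullDim (PrimeSpectrum.zeroLocus (I : Set O)) ≤ n →
      I ≤ p.head.asIdeal → (p.length : WithBot ℕ∞) ≤ n := by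
    intro I hI hp
    have hmem : ∀ i, p i ∈ PrimeSpectrum.zeroLocus (I : Set O) := by
      intro i x hx
      exact (LTSeries.head_le p i) (hp hx)
    let q : LTSeries (PrimeSpectrum.zeroLocus (I : Set O)) :=
      { length := p.length
        toFun := fun i => ⟨p i, hmem i⟩
        step := fun i => p.step i }
    exact (Order.LTSeries.length_le_krullDim q).trans hI
  by_cases hor : J ≤ p.head.asIdeal
  · exact key J h1 hor
  · refine key J' h2 ?_
    obtain ⟨x, hx, hx'⟩ := SetLike.not_le_iff_exists.1 hor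
    intro y hy
    have h3 : x * y ∈ p.head.asIdeal := by
      rw [hJ x hx y hy]
      exact Submodule.zero_mem _
    rcases p.head.isPrime.mem_or_mem h3 with h4 | h4
    · exact absurd h4 hx'
    · exact h4

/-- `hol`: let `I`, `I'` be the sets of the `a ∈ F0` with `a L ⊆ σ L`, `a L' ⊆ σ L'` and `φ : F0 → O` a
homomorphism which kills `I ∩ I'`. For `a ∈ I`, `b ∈ I'` we have `a b ∈ I ∩ I'`, so
`φ(I) φ(I') = 0`, every prime ideal of `O` contains `φ(I)` or `φ(I')`, and a chain of prime ideals of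
`O` is a chain of `O ⧸ (φ(I))` or of `O ⧸ (φ(I'))`. `F0 σ = σ F0` (`Ord.conj`). -/
theorem Lat.prod (ho : Ord f E σ τ) {L : Set M} {L' : Set M'} (hL : Lat d f σ L)
    (hL' : Lat d f σ L') : Lat d f σ {u : M × M' | u.1 ∈ L ∧ u.2 ∈ L'} := by
  obtain ⟨k, l, hl⟩ := hL.fg
  obtain ⟨k', l', hl'⟩ := hL'.fg
  refine ⟨⟨k + k', pfam l l', hl.prod hl'⟩, ?_, ?_, ?_⟩
  · rintro ⟨u, v⟩
    have h1 : ((u, 0) : M × M') ∈ Submodule.span A {u : M × M' | u.1 ∈ L ∧ u.2 ∈ L'} := by
      have h2 : (LinearMap.inl A M M') u ∈ (Submodule.span A L).map (LinearMap.inl A M M') :=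
        Submodule.mem_map_of_mem (hL.span u)
      rw [Submodule.map_span] at h2
      refine Submodule.span_mono ?_ h2
      rintro _ ⟨x, hx, rfl⟩
      exact ⟨hx, hl'.zero⟩
    have h1' : ((0, v) : M × M') ∈ Submodule.span A {u : M × M' | u.1 ∈ L ∧ u.2 ∈ L'} := by
      have h2 : (LinearMap.inr A M M') v ∈ (Submodule.span A L').map (LinearMap.inr A M M') :=
        Submodule.mem_map_of_mem (hL'.span v)
      rw [Submodule.map_span] at h2
      refine Submodule.span_mono ?_ h2
      rintro _ ⟨x, hx, rfl⟩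
      exact ⟨hl.zero, hx⟩
    have h3 := Submodule.add_mem _ h1 h1'
    rw [Prod.mk_add_mk, add_zero, zero_add] at h3
    exact h3
  · rintro a ha ⟨n, hn⟩ ⟨u, v⟩ ⟨hu, hv⟩
    obtain ⟨w, hw, hw2⟩ := hL.reg a ha ⟨n, fun x hx => by
      obtain ⟨w, hw, hw2⟩ := hn (x, 0) ⟨hx, hl'.zero⟩
      exact ⟨w.1, hw.1, congrArg Prod.fst hw2⟩⟩ u hu
    obtain ⟨w', hw', hw2'⟩ := hL'.reg a ha ⟨n, fun x hx => by
      obtain ⟨w, hw, hw2⟩ := hn (0, x) ⟨hl.zero, hx⟩
      exact ⟨w.2, hw.2, congrArg Prod.snd hw2⟩⟩ v hv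
    exact ⟨(w, w'), ⟨hw, hw'⟩, Prod.ext hw2 hw2'⟩
  · intro O _ φ hφ hφ0
    -- the ideals `I`, `I'`
    have hJ : ∀ a ∈ {a : f.F0 | ∀ u ∈ L, ∃ w ∈ L, (a : A) • u = σ • w},
        ∀ b ∈ {b : f.F0 | ∀ u ∈ L', ∃ w ∈ L', (b : A) • u = σ • w}, φ a * φ b = 0 := by
      intro a ha b hb
      rw [← map_mul]
      refine hφ0 _ ?_
      rintro ⟨u, v⟩ ⟨hu, hv⟩
      obtain ⟨w, hw, hw2⟩ := ha ((b : A) • u) (hl.smul b.2 hu)
      obtain ⟨w', hw', hw2'⟩ := hb v hv
      refine ⟨(w, (τ * a * σ) • w'), ⟨hw, hl'.smul (ho.conj a.2) hw'⟩, Prod.ext ?_ ?_⟩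
      · show ((a * b : f.F0) : A) • u = σ • w
        rw [Subring.coe_mul, mul_smul, hw2]
      · show ((a * b : f.F0) : A) • v = σ • (τ * a * σ) • w'
        rw [Subring.coe_mul, mul_smul, hw2', smul_smul, smul_smul, mul_assoc τ, ← mul_assoc σ τ,
          ho.st, one_mul]
    have hJ2 : ∀ x ∈ Ideal.span (φ '' {a : f.F0 | ∀ u ∈ L, ∃ w ∈ L, (a : A) • u = σ • w}),
        ∀ y ∈ Ideal.span (φ '' {b : f.F0 | ∀ u ∈ L', ∃ w ∈ L', (b : A) • u = σ • w}),
        x * y = 0 := by
      intro x hx y hy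
      refine Submodule.span_induction (p := fun y _ => x * y = 0) ?_ (mul_zero x) ?_ ?_ hy
      · rintro _ ⟨b, hb, rfl⟩
        refine Submodule.span_induction (p := fun x _ => x * φ b = 0) ?_ (zero_mul _) ?_ ?_ hx
        · rintro _ ⟨a, ha, rfl⟩
          exact hJ a ha b hb
        · intro y z _ _ h1 h2
          rw [add_mul, h1, h2, add_zero]
        · intro c y _ h1
          rw [smul_eq_mul, mul_assoc, h1, mul_zero]
      · intro y z _ _ h1 h2
        rw [mul_add, h1, h2, add_zero]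
      · intro c y _ h1
        rw [smul_eq_mul, mul_left_comm, h1, mul_zero]
    refine h3_dim _ _ hJ2 ?_ ?_
    · refine hL.hol _ ((Ideal.Quotient.mk _).comp φ)
        ((Ideal.Quotient.mk_surjective).comp hφ) ?_
      intro a ha
      exact Ideal.Quotient.eq_zero_iff_mem.2 (Ideal.subset_span ⟨a, ha, rfl⟩)
    · refine hL'.hol _ ((Ideal.Quotient.mk _).comp φ)
        ((Ideal.Quotient.mk_surjective).comp hφ) ?_
      intro a ha
      exact Ideal.Quotient.eq_zero_iff_mem.2 (Ideal.subset_span ⟨a, ha, rfl⟩)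

/-! ## row h4: linear maps at a stalk -/

/-- the automorphism `(u, v) ↦ (u, v + g u)` -/
private def h4_graph (g : M →ₗ[A] M') : (M × M') ≃ₗ[A] (M × M') where
  toFun u := (u.1, u.2 + g u.1)
  invFun u := (u.1, u.2 - g u.1)
  left_inv u := by simp
  right_inv u := by simp
  map_add' u v := by
    refine Prod.ext rfl ?_
    simp only [Prod.snd_add, Prod.fst_add, map_add]
    abel
  map_smul' a u := by
    refine Prod.ext rfl ?_
    simp only [Prod.smul_snd, Prod.smul_fst, map_smul, smul_add, RingHom.id_apply]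

private lemma h4_graph_snd (g : M →ₗ[A] M') (u : M × M') : (h4_graph g u).2 = u.2 + g u.1 := rfl

/-- `Lat.unique` for the lattices `L × L'`, `G (L × L')` with `G (u, v) = (u, v + g u)` and the families
`pfam n n'`, `G ∘ pfam n n'`; then compare the second components of `G (n_i, 0) = (n_i, g n_i)`. -/
theorem Lat.full (h : Std d f E) (ho : Ord f E σ τ) {L : Set M} {L' : Set M'} (hL : Lat d f σ L)
    (hL' : Lat d f σ L') {m m' : ℕ} {n : Fin m → M} {n' : Fin m' → M'} (hn : Gen f.F0 L n)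
    (hg : GR f E n) (hn' : Gen f.F0 L' n') (hg' : GR f E n') (g : M →ₗ[A] M') (i : Fin m) :
    ∃ a : Fin m' → A, (∀ j, a j ∈ E) ∧ g (n i) = ∑ j, a j • n' j := by
  have h1 := Lat.unique h ho (Lat.prod ho hL hL') ((Lat.prod ho hL hL').map (h4_graph g))
    (hn.prod hn') (hg.prod hg') ((hn.prod hn').map (h4_graph g))
    ((hg.prod hg').map (h4_graph g)) (Fin.castAdd m' i)
  obtain ⟨a, ha, h2⟩ := h1
  refine ⟨fun j => a (Fin.natAdd m j), fun j => ha _, ?_⟩
  have h3 := congrArg Prod.snd h2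
  rw [h4_graph_snd, Prod.snd_sum, Fin.sum_univ_add] at h3
  simpa [pfam] using h3

end alg

variable {T : Type} [TopologicalSpace T] {P : MSheaf T d}

/-! ## row h5: morphisms of sheaves -/

/-- on the zero section a form is everything -/
private lemma h5_top {M : FMod P.hat} {N : P.Sub M} (hF : N.IsForm) {q : T} (hz : q ∈ P.Z)
    (u : M.M q) : u ∈ N.N q := by
  obtain ⟨F, hF⟩ := hF q
  obtain ⟨z, rfl⟩ := F.surjective u
  refine Pool.Agent.Ep.ext_induction (P.E q).subtype (p := fun z => F z ∈ N.N q) ?_ ?_ z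
  · intro b n
    rw [hF]
    have hb : b ∈ P.E q := by
      rw [(P.zero q hz).1]
      trivial
    exact (N.N q).smul_mem (⟨b, hb⟩ : P.E q) n.2
  · intro v w hv hw
    rw [map_add]
    exact (N.N q).add_mem hv hw

/-- THE THEOREM for morphisms (fullness): a linear map between the stalks of two regular holonomic
modules over the formal microdifferential operators maps the regular holonomic forms into each
other. On `Z` both are everything (proof of `form_unique`); outside of `Z`: `exists_mic`, `gr_of_form`,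
`Lat.full`. -/
theorem full {M M' : FMod P.hat} {N : P.Sub M} {N' : P.Sub M'} (h1 : N.mod.RH P.Z d)
    (h2 : N.IsForm) (h1' : N'.mod.RH P.Z d) (h2' : N'.IsForm) (q : T)
    (g : M.M q →ₗ[P.hat.A q] M'.M q) (u : M.M q) (hu : u ∈ N.N q) : g u ∈ N'.N q := by
  by_cases hz : q ∈ P.Z
  · exact h5_top h2' hz _
  · obtain ⟨σ, τ, ho⟩ := (P.std q hz).exists_ord
    obtain ⟨L, m, n, hn, hL, hN⟩ := exists_mic h1 h2 hz ho
    obtain ⟨L', m', n', hn', hL', hN'⟩ := exists_mic h1' h2' hz ho
    have hg := gr_of_form h2 hz ho hN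
    have hg' := gr_of_form h2' hz ho hN'
    rw [hN] at hu
    obtain ⟨a, ha, rfl⟩ := (mem_spE u).1 hu
    rw [map_sum]
    refine Submodule.sum_mem _ fun i _ => ?_
    rw [map_smul]
    have h3 : g (n i) ∈ N'.N q := by
      rw [hN']
      exact (mem_spE _).2 (Lat.full (P.std q hz) ho hL hL' hn hg hn' hg' g i)
    exact (N'.N q).smul_mem (⟨a i, ha i⟩ : P.E q) h3

end Pool.Agent.Msh
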