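import Pool.Agent.Msh.Defs

/-!
# Filtered rings and presentations: algebra (P11, sheaf level, helper39)
-/

set_option autoImplicit false

namespace Pool.Agent.Msh

variable {A : Type} [Ring A] {f : FR A} {E : Subring A} {σ τ : A}

/-- `σ` is an invertible element of order `-1` and `τ` its inverse, of order `1`; both are in `E`
(for instance `∂_t⁻¹` and `∂_t`) -/
structure Ord (f : FR A) (E : Subring A) (σ τ : A) : Prop where
  s1 : σ ∈ f.F (-1)
  t1 : τ ∈ f.F 1
  sE : σ ∈ E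
  tE : τ ∈ E
  st : σ * τ = 1
  ts : τ * σ = 1

/-! ## row a1 -/

lemma FR.mem_F0 {a : A} : a ∈ f.F0 ↔ a ∈ f.F 0 := Iff.rfl

lemma FR.le (f : FR A) {m n : ℤ} (h : m ≤ n) : f.F m ≤ f.F n := by
  obtain ⟨k, rfl⟩ := Int.le.dest h
  clear h
  induction k with
  | zero => simp
  | succ k ih =>
    refine ih.trans ?_
    have h1 := f.mono (m + (k : ℤ))
    have h2 : m + (k : ℤ) + 1 = m + ((k + 1 : ℕ) : ℤ) := by push_cast; ring
    rw [h2] at h1
    exact h1

lemma FR.F1_le (f : FR A) {a : A} (h : a ∈ f.F (-1)) : a ∈ f.F0 :=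
  f.le (by norm_num : (-1 : ℤ) ≤ 0) h

namespace Ord

lemma s0 (h : Ord f E σ τ) : σ ∈ f.F0 := f.F1_le h.s1

lemma pow_ts (h : Ord f E σ τ) (k : ℕ) : τ ^ k * σ ^ k = 1 := by
  induction k with
  | zero => simp
  | succ k ih =>
    rw [pow_succ, pow_succ', mul_assoc, ← mul_assoc τ, h.ts, one_mul, ih]

lemma pow_st (h : Ord f E σ τ) (k : ℕ) : σ ^ k * τ ^ k = 1 := by
  induction k with
  | zero => simp
  | succ k ih =>
    rw [pow_succ, pow_succ', mul_assoc, ← mul_assoc σ, h.st, one_mul, ih]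

lemma conj (h : Ord f E σ τ) {a : A} (ha : a ∈ f.F0) : τ * a * σ ∈ f.F0 := by
  have h1 := f.mul _ _ _ _ (f.mul _ _ _ _ h.t1 ha) h.s1
  have h2 : (1 : ℤ) + 0 + -1 = 0 := by norm_num
  rw [h2] at h1
  exact h1

lemma conj' (h : Ord f E σ τ) {a : A} (ha : a ∈ f.F0) : σ * a * τ ∈ f.F0 := by
  have h1 := f.mul _ _ _ _ (f.mul _ _ _ _ h.s1 ha) h.t1
  have h2 : (-1 : ℤ) + 0 + 1 = 0 := by norm_num
  rw [h2] at h1
  exact h1

lemma conjE (h : Ord f E σ τ) {a : A} (ha : a ∈ E ⊓ f.F0) : τ * a * σ ∈ E ⊓ f.F0 :=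
  ⟨E.mul_mem (E.mul_mem h.tE ha.1) h.sE, h.conj ha.2⟩

lemma conjE' (h : Ord f E σ τ) {a : A} (ha : a ∈ E ⊓ f.F0) : σ * a * τ ∈ E ⊓ f.F0 :=
  ⟨E.mul_mem (E.mul_mem h.sE ha.1) h.tE, h.conj' ha.2⟩

/-- `F (-1) = σ F0` -/
lemma mem_F1 (h : Ord f E σ τ) {a : A} : a ∈ f.F (-1) ↔ ∃ b ∈ f.F0, a = σ * b := by
  constructor
  · intro ha
    refine ⟨τ * a, ?_, ?_⟩
    · have h1 := f.mul _ _ _ _ h.t1 ha
      have h2 : (1 : ℤ) + -1 = 0 := by norm_num
      rw [h2] at h1
      exact h1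
    · rw [← mul_assoc, h.st, one_mul]
  · rintro ⟨b, hb, rfl⟩
    have h1 := f.mul _ _ _ _ h.s1 (FR.mem_F0.1 hb)
    have h2 : (-1 : ℤ) + 0 = -1 := by norm_num
    rw [h2] at h1
    exact h1

private lemma a1_pow (h : Ord f E σ τ) (k : ℕ) : σ ^ k ∈ f.F (-(k : ℤ)) := by
  induction k with
  | zero => simpa using f.one
  | succ k ih =>
    have h1 := f.mul _ _ _ _ ih h.s1
    rw [pow_succ]
    have h2 : -(k : ℤ) + -1 = -((k + 1 : ℕ) : ℤ) := by push_cast; ring
    rw [h2] at h1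
    exact h1

private lemma a1_one (h : Ord f E σ τ) (a : A) :
    ∃ k₀ : ℕ, ∀ k, k₀ ≤ k → σ ^ k * a ∈ f.F0 := by
  obtain ⟨m, hm⟩ := f.exh a
  refine ⟨m.toNat, fun k hk => ?_⟩
  have h1 := f.mul _ _ _ _ (a1_pow h k) hm
  refine f.le ?_ h1
  have h2 := Int.self_le_toNat m
  omega

/-- a common denominator -/
lemma exists_pow (h : Ord f E σ τ) {m : ℕ} (a : Fin m → A) : ∃ k : ℕ, ∀ i, σ ^ k * a i ∈ f.F0 := by
  choose k₀ hk using fun i => a1_one h (a i)
  exact ⟨Finset.univ.sup k₀, fun i => hk i _ (Finset.le_sup (Finset.mem_univ i))⟩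

lemma exists_powE (h : Ord f E σ τ) {m : ℕ} (a : Fin m → A) (ha : ∀ i, a i ∈ E) :
    ∃ k : ℕ, ∀ i, σ ^ k * a i ∈ E ⊓ f.F0 := by
  obtain ⟨k, hk⟩ := h.exists_pow a
  exact ⟨k, fun i => ⟨E.mul_mem (E.pow_mem h.sE k) (ha i), hk i⟩⟩

/-- `σ u = 0` implies `u = 0` -/
lemma smul_inj (h : Ord f E σ τ) {M : Type} [AddCommGroup M] [Module A M] {u v : M}
    (huv : σ • u = σ • v) : u = v := by
  have h1 := congrArg (fun x => τ • x) huv
  simpa [smul_smul, h.ts] using h1

end Ord

/-! ## row a2: modules generated by a family -/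

/-- the second clause of `Pres` -/
def Gen {M : Type} [AddCommGroup M] [Module A M] (B : Subring A) (L : Set M) {k : ℕ}
    (l : Fin k → M) : Prop :=
  ∀ u : M, u ∈ L ↔ ∃ b : Fin k → A, (∀ i, b i ∈ B) ∧ u = ∑ i, b i • l i

section

variable {M : Type} [AddCommGroup M] [Module A M] {B : Subring A} {L : Set M} {k : ℕ}
  {l : Fin k → M}

lemma Gen.mem (h : Gen B L l) (i : Fin k) : l i ∈ L := by
  rw [h]
  refine ⟨fun j => if j = i then 1 else 0, fun j => ?_, ?_⟩
  · by_cases hj : j = i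
    · simp [hj, B.one_mem]
    · simp [hj, B.zero_mem]
  · simp

lemma Gen.zero (h : Gen B L l) : (0 : M) ∈ L := by
  rw [h]
  exact ⟨fun _ => 0, fun _ => B.zero_mem, by simp⟩

lemma Gen.add (h : Gen B L l) {u v : M} (hu : u ∈ L) (hv : v ∈ L) : u + v ∈ L := by
  rw [h] at hu hv ⊢
  obtain ⟨b, hb, rfl⟩ := hu
  obtain ⟨c, hc, rfl⟩ := hv
  exact ⟨fun i => b i + c i, fun i => B.add_mem (hb i) (hc i), by
    simp [add_smul, Finset.sum_add_distrib]⟩

lemma Gen.neg (h : Gen B L l) {u : M} (hu : u ∈ L) : -u ∈ L := by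
  rw [h] at hu ⊢
  obtain ⟨b, hb, rfl⟩ := hu
  exact ⟨fun i => -b i, fun i => B.neg_mem (hb i), by simp [neg_smul, Finset.sum_neg_distrib]⟩

lemma Gen.smul (h : Gen B L l) {b : A} (hb : b ∈ B) {u : M} (hu : u ∈ L) : b • u ∈ L := by
  rw [h] at hu ⊢
  obtain ⟨c, hc, rfl⟩ := hu
  exact ⟨fun i => b * c i, fun i => B.mul_mem hb (hc i), by
    simp [Finset.smul_sum, smul_smul]⟩

lemma Gen.sum (h : Gen B L l) {κ : Type} (s : Finset κ) (b : κ → A) (u : κ → M)
    (hb : ∀ i, b i ∈ B) (hu : ∀ i, u i ∈ L) : ∑ i ∈ s, b i • u i ∈ L := by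
  classical
  induction s using Finset.induction_on with
  | empty => simpa using h.zero
  | insert a s ha ih =>
    rw [Finset.sum_insert ha]
    exact h.add (h.smul (hb a) (hu a)) ih

/-- if `L` generates `M` over `A`, the generators of `L` do -/
lemma Gen.span (h : Gen B L l) (hs : ∀ u : M, u ∈ Submodule.span A L) (u : M) :
    ∃ a : Fin k → A, u = ∑ i, a i • l i := by
  have h1 : Submodule.span A L ≤ Submodule.span A (Set.range l) := by
    rw [Submodule.span_le]
    intro v hv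
    obtain ⟨b, -, rfl⟩ := (h v).1 hv
    exact Submodule.sum_mem _ fun i _ => Submodule.smul_mem _ _ (Submodule.subset_span ⟨i, rfl⟩)
  obtain ⟨a, ha⟩ := (Submodule.mem_span_range_iff_exists_fun A).1 (h1 (hs u))
  exact ⟨a, ha.symm⟩

end

/-! ## row a3: change of generators and of relations in a presentation -/

section

variable {M : Type} [AddCommGroup M] [Module A M] {B : Subring A} {L : Set M} {k c : ℕ}
  {l : Fin k → M} {r : Fin c → Fin k → A}

private lemma a3_comp {p q : ℕ} (b : Fin p → A) (α : Fin p → Fin q → A) (u : Fin q → M) :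
    ∑ i, b i • ∑ j, α i j • u j = ∑ j, (∑ i, b i * α i j) • u j := by
  simp_rw [Finset.smul_sum, Finset.sum_smul, mul_smul]
  exact Finset.sum_comm

private lemma a3_assoc {p q s : ℕ} (b : Fin p → A) (α : Fin p → Fin q → A) (γ : Fin q → Fin s → A)
    (t : Fin s) : ∑ i, b i * ∑ j, α i j * γ j t = ∑ j, (∑ i, b i * α i j) * γ j t := by
  simp_rw [Finset.mul_sum, Finset.sum_mul, mul_assoc]
  exact Finset.sum_comm

private lemma a3_row (h : Pres B L l r) (x : Fin c) : ∑ j, r x j • l j = 0 := by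
  refine (h.2.2 (r x) (h.1 x)).2 ⟨fun j => if x = j then 1 else 0, fun j => ?_, fun i => ?_⟩
  · by_cases hj : x = j
    · simp only [if_pos hj]; exact B.one_mem
    · simp only [if_neg hj]; exact B.zero_mem
  · simp

private lemma a3_rel {m c : ℕ} {n : Fin m → M} {R : Fin c → Fin m → A}
    (hR : ∀ j, ∑ i, R j i • n i = 0) (b : Fin m → A) (a : Fin c → A)
    (hb : ∀ i, b i = ∑ j, a j * R j i) : ∑ i, b i • n i = 0 := by
  have h1 : ∑ i, b i • n i = ∑ j, a j • ∑ i, R j i • n i := by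
    rw [a3_comp]
    exact Finset.sum_congr rfl fun i _ => by rw [hb i]
  rw [h1]
  exact Finset.sum_eq_zero fun j _ => by rw [hR j, smul_zero]

/-- Change of generators. Proof: if `∑ f_i n_i = 0` then `f α` is a relation for `l`, so `f α = ∑ g_j r_j`
and `f = f (1 - α β) + f α β`. -/
theorem Pres.change (h : Pres B L l r) {m : ℕ} (n : Fin m → M) (α : Fin m → Fin k → A)
    (β : Fin k → Fin m → A) (hα : ∀ i j, α i j ∈ B) (hβ : ∀ i j, β i j ∈ B)
    (h1 : ∀ i, n i = ∑ j, α i j • l j) (h2 : ∀ j, l j = ∑ i, β j i • n i) :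
    Pres B L n (Fin.addCases
      (fun (i : Fin m) (i' : Fin m) => (if i = i' then 1 else 0) - ∑ j, α i j * β j i')
      (fun (x : Fin c) (i' : Fin m) => ∑ j, r x j * β j i')) := by
  refine ⟨fun j i' => ?_, fun u => ⟨?_, ?_⟩, fun b hb => ⟨?_, ?_⟩⟩
  · refine Fin.addCases (fun i => ?_) (fun x => ?_) j
    · simp only [Fin.addCases_left]
      refine B.sub_mem ?_ (B.sum_mem fun j _ => B.mul_mem (hα i j) (hβ j i'))
      by_cases hi : i = i'
      · rw [if_pos hi]; exact B.one_mem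
      · rw [if_neg hi]; exact B.zero_mem
    · simp only [Fin.addCases_right]
      exact B.sum_mem fun j _ => B.mul_mem (h.1 x j) (hβ j i')
  · intro hu
    obtain ⟨b, hb, rfl⟩ := (h.2.1 u).1 hu
    refine ⟨fun i => ∑ j, b j * β j i, fun i => B.sum_mem fun j _ => B.mul_mem (hb j) (hβ j i), ?_⟩
    rw [← a3_comp]
    exact Finset.sum_congr rfl fun j _ => by rw [← h2 j]
  · rintro ⟨b, hb, rfl⟩
    refine (h.2.1 _).2 ⟨fun j => ∑ i, b i * α i j,
      fun j => B.sum_mem fun i _ => B.mul_mem (hb i) (hα i j), ?_⟩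
    rw [← a3_comp]
    exact Finset.sum_congr rfl fun i _ => by rw [← h1 i]
  · intro h0
    have h3 : ∑ j, (∑ i, b i * α i j) • l j = 0 := by
      rw [← a3_comp, ← h0]
      exact Finset.sum_congr rfl fun i _ => by rw [← h1 i]
    obtain ⟨g, hg, hg2⟩ := (h.2.2 (fun j => ∑ i, b i * α i j)
      (fun j => B.sum_mem fun i _ => B.mul_mem (hb i) (hα i j))).1 h3
    refine ⟨Fin.addCases b g, fun j => ?_, fun i' => ?_⟩
    · refine Fin.addCases (fun i => ?_) (fun x => ?_) j
      · simp only [Fin.addCases_left]; exact hb i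
      · simp only [Fin.addCases_right]; exact hg x
    · rw [Fin.sum_univ_add]
      simp only [Fin.addCases_left, Fin.addCases_right, mul_sub, Finset.sum_sub_distrib]
      rw [a3_assoc b α β i', a3_assoc g r β i']
      have h4 : ∑ i, b i * (if i = i' then (1 : A) else 0) = b i' := by simp
      have h5 : ∑ j, (∑ i, b i * α i j) * β j i' = ∑ j, (∑ x, g x * r x j) * β j i' :=
        Finset.sum_congr rfl fun j _ => by rw [hg2 j]
      rw [h4, h5, sub_add_cancel]
  · rintro ⟨a, -, hb2⟩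
    refine a3_rel (fun j => ?_) b a hb2
    refine Fin.addCases (fun i => ?_) (fun x => ?_) j
    · simp only [Fin.addCases_left, sub_smul, Finset.sum_sub_distrib]
      rw [← a3_comp]
      have h4 : ∑ i', (if i = i' then (1 : A) else 0) • n i' = n i := by simp
      have h5 : ∑ j, α i j • ∑ i', β j i' • n i' = ∑ j, α i j • l j :=
        Finset.sum_congr rfl fun j _ => by rw [← h2 j]
      rw [h4, h5, ← h1 i, sub_self]
    · simp only [Fin.addCases_right]
      rw [← a3_comp]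
      have h5 : ∑ j, r x j • ∑ i', β j i' • n i' = ∑ j, r x j • l j :=
        Finset.sum_congr rfl fun j _ => by rw [← h2 j]
      rw [h5, a3_row h x]

/-- Change of the matrix of relations. -/
theorem Pres.rows (h : Pres B L l r) {c' : ℕ} (r' : Fin c' → Fin k → A)
    (h1 : ∀ j i, r' j i ∈ B) (h2 : ∀ j, ∑ i, r' j i • l i = 0)
    (C : Fin c → Fin c' → A) (hC : ∀ j j', C j j' ∈ B)
    (h3 : ∀ j i, r j i = ∑ j', C j j' * r' j' i) : Pres B L l r' := by
  refine ⟨h1, h.2.1, fun b hb => ⟨fun h0 => ?_, ?_⟩⟩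
  · obtain ⟨a, ha, hb2⟩ := (h.2.2 b hb).1 h0
    refine ⟨fun j' => ∑ j, a j * C j j', fun j' => B.sum_mem fun j _ => B.mul_mem (ha j) (hC j j'),
      fun i => ?_⟩
    rw [← a3_assoc, hb2 i]
    exact Finset.sum_congr rfl fun j _ => by rw [h3 j i]
  · rintro ⟨a, -, hb2⟩
    exact a3_rel h2 b a hb2

/-- more relations may be added to the matrix -/
theorem Pres.append (h : Pres B L l r) {c' : ℕ} (r' : Fin c' → Fin k → A)
    (h1 : ∀ j i, r' j i ∈ B) (h2 : ∀ j, ∑ i, r' j i • l i = 0) :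
    Pres B L l (Fin.append r r') := by
  refine h.rows (Fin.append r r') (fun j i => ?_) (fun j => ?_)
    (fun j j' => if Fin.castAdd c' j = j' then 1 else 0) (fun j j' => ?_) (fun j i => ?_)
  · refine Fin.addCases (fun x => ?_) (fun x => ?_) j
    · simp only [Fin.append_left]; exact h.1 x i
    · simp only [Fin.append_right]; exact h1 x i
  · refine Fin.addCases (fun x => ?_) (fun x => ?_) j
    · simp only [Fin.append_left]; exact a3_row h x
    · simp only [Fin.append_right]; exact h2 x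
  · by_cases hj : Fin.castAdd c' j = j'
    · simp only [if_pos hj]; exact B.one_mem
    · simp only [if_neg hj]; exact B.zero_mem
  · simp [Fin.append_left]

theorem Pres.append' (h : Pres B L l r) {c' : ℕ} (r' : Fin c' → Fin k → A)
    (h1 : ∀ j i, r' j i ∈ B) (h2 : ∀ j, ∑ i, r' j i • l i = 0) :
    Pres B L l (Fin.append r' r) := by
  refine h.rows (Fin.append r' r) (fun j i => ?_) (fun j => ?_)
    (fun j j' => if Fin.natAdd c' j = j' then 1 else 0) (fun j j' => ?_) (fun j i => ?_)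
  · refine Fin.addCases (fun x => ?_) (fun x => ?_) j
    · simp only [Fin.append_left]; exact h1 x i
    · simp only [Fin.append_right]; exact h.1 x i
  · refine Fin.addCases (fun x => ?_) (fun x => ?_) j
    · simp only [Fin.append_left]; exact h2 x
    · simp only [Fin.append_right]; exact a3_row h x
  · by_cases hj : Fin.natAdd c' j = j'
    · simp only [if_pos hj]; exact B.one_mem
    · simp only [if_neg hj]; exact B.zero_mem
  · simp [Fin.append_right]

end

/-! ## row a4: inverting `σ` in a presentation -/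

section

variable {M : Type} [AddCommGroup M] [Module A M] {L : Set M} {k c : ℕ}
  {l : Fin k → M} {r : Fin c → Fin k → A}

private lemma a4_row {B : Subring A} (h : Pres B L l r) (x : Fin c) : ∑ j, r x j • l j = 0 := by
  refine (h.2.2 (r x) (h.1 x)).2 ⟨fun j => if x = j then 1 else 0, fun j => ?_, fun i => ?_⟩
  · by_cases hj : x = j
    · simp only [if_pos hj]; exact B.one_mem
    · simp only [if_neg hj]; exact B.zero_mem
  · simp

private lemma a4_rel (hR : ∀ j, ∑ i, r j i • l i = 0) (b : Fin k → A) (a : Fin c → A)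
    (hb : ∀ i, b i = ∑ j, a j * r j i) : ∑ i, b i • l i = 0 := by
  have h1 : ∑ i, b i • l i = ∑ j, a j • ∑ i, r j i • l i := by
    simp_rw [Finset.smul_sum, hb, Finset.sum_smul, mul_smul]
    exact Finset.sum_comm
  rw [h1]
  exact Finset.sum_eq_zero fun j _ => by rw [hR j, smul_zero]

private lemma a4_div {K : ℕ} (hK : τ ^ K * σ ^ K = 1) (b : Fin k → A) (a : Fin c → A) (i : Fin k)
    (h : σ ^ K * b i = ∑ j, a j * r j i) : b i = ∑ j, τ ^ K * a j * r j i := by
  have h1 : ∑ j, τ ^ K * a j * r j i = τ ^ K * ∑ j, a j * r j i := by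
    rw [Finset.mul_sum]
    exact Finset.sum_congr rfl fun j _ => mul_assoc _ _ _
  rw [h1, ← h, ← mul_assoc, hK, one_mul]

/-- a presentation of `L` over the elements of order `≤ 0` is one of `M` over `A`: multiply a relation
by `σ ^ k` -/
theorem Pres.top (ho : Ord f E σ τ) (h : Pres f.F0 L l r) (hs : ∀ u : M, u ∈ Submodule.span A L) :
    Pres ⊤ Set.univ l r := by
  refine ⟨fun j i => Subring.mem_top _, fun u => ⟨fun _ => ?_, fun _ => Set.mem_univ _⟩,
    fun b _ => ⟨fun h0 => ?_, ?_⟩⟩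
  · have hG : Gen f.F0 L l := h.2.1
    obtain ⟨a, ha⟩ := hG.span hs u
    exact ⟨a, fun i => Subring.mem_top _, ha⟩
  · obtain ⟨K, hK⟩ := ho.exists_pow b
    have h1 : ∑ i, (σ ^ K * b i) • l i = 0 := by
      have h2 : ∑ i, (σ ^ K * b i) • l i = σ ^ K • ∑ i, b i • l i := by
        rw [Finset.smul_sum]
        exact Finset.sum_congr rfl fun i _ => mul_smul _ _ _
      rw [h2, h0, smul_zero]
    obtain ⟨a, -, ha⟩ := (h.2.2 (fun i => σ ^ K * b i) hK).1 h1
    exact ⟨fun j => τ ^ K * a j, fun j => Subring.mem_top _, fun i => a4_div (ho.pow_ts K) b a i (ha i)⟩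
  · rintro ⟨a, -, hb2⟩
    exact a4_rel (a4_row h) b a hb2

/-- the same for `E` -/
theorem Pres.topE (ho : Ord f E σ τ) {N : Set M} (h : Pres (E ⊓ f.F0) L l r)
    (hN : Gen E N l) : Pres E N l r := by
  refine ⟨fun j i => (Subring.mem_inf.1 (h.1 j i)).1, hN, fun b hb => ⟨fun h0 => ?_, ?_⟩⟩
  · obtain ⟨K, hK⟩ := ho.exists_powE b hb
    have h1 : ∑ i, (σ ^ K * b i) • l i = 0 := by
      have h2 : ∑ i, (σ ^ K * b i) • l i = σ ^ K • ∑ i, b i • l i := by
        rw [Finset.smul_sum]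
        exact Finset.sum_congr rfl fun i _ => mul_smul _ _ _
      rw [h2, h0, smul_zero]
    obtain ⟨a, ha1, ha⟩ := (h.2.2 (fun i => σ ^ K * b i) hK).1 h1
    exact ⟨fun j => τ ^ K * a j,
      fun j => E.mul_mem (E.pow_mem ho.tE K) (Subring.mem_inf.1 (ha1 j)).1,
      fun i => a4_div (ho.pow_ts K) b a i (ha i)⟩
  · rintro ⟨a, -, hb2⟩
    exact a4_rel (a4_row h) b a hb2

end

/-! ## row a5: relations over `F0` generated by relations over `E ⊓ F0` -/

/-- the relations over `F0` between the `n i` are generated by relations over `E ⊓ F0` -/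
def GR {M : Type} [AddCommGroup M] [Module A M] (f : FR A) (E : Subring A) {m : ℕ}
    (n : Fin m → M) : Prop :=
  ∀ a : Fin m → A, (∀ i, a i ∈ f.F0) → ∑ i, a i • n i = 0 →
    ∃ (q : ℕ) (c : Fin q → A) (b : Fin q → Fin m → A), (∀ j, c j ∈ f.F0) ∧
      (∀ j i, b j i ∈ E ⊓ f.F0) ∧ (∀ j, ∑ i, b j i • n i = 0) ∧ ∀ i, a i = ∑ j, c j * b j i

section

variable {M : Type} [AddCommGroup M] [Module A M] {L : Set M} {m c : ℕ} {n : Fin m → M}

private lemma a5_row {r : Fin c → Fin m → A} (h : Pres f.F0 L n r) (j : Fin c) :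
    ∑ i, r j i • n i = 0 := by
  refine (h.2.2 (r j) (h.1 j)).2 ⟨fun j' => if j' = j then 1 else 0, ?_, ?_⟩
  · intro j'
    dsimp only
    split_ifs
    · exact f.F0.one_mem
    · exact f.F0.zero_mem
  · intro i
    rw [Finset.sum_eq_single j]
    · simp
    · intro b _ hb
      simp [hb]
    · intro hj
      exact absurd (Finset.mem_univ j) hj

lemma Pres.gr {r : Fin c → Fin m → A} (h : Pres f.F0 L n r) (hE : ∀ j i, r j i ∈ E) :
    GR f E n := by
  intro a ha hs
  obtain ⟨c', h1, h2⟩ := (h.2.2 a ha).1 hs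
  exact ⟨c, c', r, h1, fun j i => ⟨hE j i, h.1 j i⟩, a5_row h, h2⟩

/-- a family with the property `GR` has a finite presentation with relations in `E ⊓ F0`: collect the
relations needed for the finitely many rows of `r` -/
theorem Pres.of_gr {r : Fin c → Fin m → A} (h : Pres f.F0 L n r) (hg : GR f E n) :
    ∃ (c' : ℕ) (b : Fin c' → Fin m → A) (C : Fin c → Fin c' → A), (∀ j i, b j i ∈ E ⊓ f.F0) ∧
      (∀ j, ∑ i, b j i • n i = 0) ∧ (∀ j j', C j j' ∈ f.F0) ∧
      ∀ j i, r j i = ∑ j', C j j' * b j' i := by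
  classical
  choose q C b h1 h2 h3 h4 using fun j => hg (r j) (h.1 j) (a5_row h j)
  let e := Fintype.equivFin (Σ j : Fin c, Fin (q j))
  refine ⟨Fintype.card (Σ j : Fin c, Fin (q j)), fun x => b (e.symm x).1 (e.symm x).2,
    fun j x => if hx : (e.symm x).1 = j then C (e.symm x).1 (e.symm x).2 else 0,
    fun x i => h2 _ _ i, fun x => h3 _ _, ?_, ?_⟩
  · intro j x
    dsimp only
    split_ifs
    · exact h1 _ _
    · exact f.F0.zero_mem
  · intro j i
    rw [h4 j i]
    have h5 := Equiv.sum_comp e.symm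
      (fun y : Σ j : Fin c, Fin (q j) => (if hx : y.1 = j then C y.1 y.2 else 0) * b y.1 y.2 i)
    refine Eq.trans ?_ h5.symm
    rw [Fintype.sum_sigma, Finset.sum_eq_single j]
    · exact Finset.sum_congr rfl fun y _ => by simp
    · intro j' _ hj
      exact Finset.sum_eq_zero fun y _ => by simp [hj]
    · intro hj
      exact absurd (Finset.mem_univ j) hj

end

end Pool.Agent.Msh
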