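import Mathlib

/-!
# Sheaves of filtered rings and of modules (P11, helper39)

Sheaves are given as étalé spaces: a sheaf on a topological space `T` is a family of stalks `A p`
together with, for every germ `a ∈ A p`, a section `ext p a` on a neighbourhood of `p` with germ
`a` at `p` (its values outside of this neighbourhood are irrelevant). A family of germs `u q ∈ A q`,
`q ∈ V`, is a section on the open set `V` if `u q = ext p (u p) q` for all `p ∈ V` and all `q` near `p`.
-/

set_option autoImplicit false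

namespace Pool.Agent.Msh

open Topology Filter

/-- A filtration of a ring: `F m` are the elements of order `≤ m`. -/
structure FR (S : Type) [Ring S] where
  /-- the elements of order `≤ m` -/
  F : ℤ → AddSubgroup S
  mono : ∀ m, F m ≤ F (m + 1)
  one : 1 ∈ F 0
  mul : ∀ m n a b, a ∈ F m → b ∈ F n → a * b ∈ F (m + n)
  exh : ∀ a, ∃ m, a ∈ F m

/-- `a` is an element of order `≤ m` and has an inverse of order `≤ -m`: its principal symbol of order
`m` does not vanish -/
def FR.Inv {S : Type} [Ring S] (f : FR S) (m : ℤ) (a : S) : Prop :=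
  ∃ b ∈ f.F (-m), a * b = 1 ∧ b * a = 1

/-- a sheaf of filtered rings on a topological space -/
structure FRing (T : Type) [TopologicalSpace T] where
  /-- the stalks -/
  A : T → Type
  [ring : ∀ p, Ring (A p)]
  /-- a section near `p` with the given germ at `p` -/
  ext : ∀ p, A p → ∀ q, A q
  ext_self : ∀ p a, ext p a p = a
  ext_ext : ∀ p a, ∀ᶠ q in 𝓝 p, ∀ᶠ r in 𝓝 q, ext q (ext p a q) r = ext p a r
  ext_add : ∀ p a b, ∀ᶠ q in 𝓝 p, ext p (a + b) q = ext p a q + ext p b q
  ext_mul : ∀ p a b, ∀ᶠ q in 𝓝 p, ext p (a * b) q = ext p a q * ext p b q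
  ext_one : ∀ p, ∀ᶠ q in 𝓝 p, ext p 1 q = 1
  /-- the filtration by the order -/
  fil : ∀ p, FR (A p)
  ext_fil : ∀ m p, ∀ a ∈ (fil p).F m, ∀ᶠ q in 𝓝 p, ext p a q ∈ (fil q).F m

attribute [instance] FRing.ring

variable {T : Type} [TopologicalSpace T]

/-- The principal symbol of order `m` of `a` vanishes on `Λ` near `p`. -/
def FRing.Van (R : FRing T) (m : ℤ) (Λ : Set T) (p : T) (a : R.A p) : Prop :=
  ∀ᶠ q in 𝓝 p, q ∈ Λ → ¬ (R.fil q).Inv m (R.ext p a q)

/-- a sheaf of left modules over a sheaf of filtered rings -/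
structure FMod (R : FRing T) where
  /-- the stalks -/
  M : T → Type
  [grp : ∀ p, AddCommGroup (M p)]
  [mod : ∀ p, Module (R.A p) (M p)]
  /-- a section near `p` with the given germ at `p` -/
  ext : ∀ p, M p → ∀ q, M q
  ext_self : ∀ p u, ext p u p = u
  ext_ext : ∀ p u, ∀ᶠ q in 𝓝 p, ∀ᶠ r in 𝓝 q, ext q (ext p u q) r = ext p u r
  ext_add : ∀ p u v, ∀ᶠ q in 𝓝 p, ext p (u + v) q = ext p u q + ext p v q
  ext_smul : ∀ p a u, ∀ᶠ q in 𝓝 p, ext p (a • u) q = R.ext p a q • ext p u q

attribute [instance] FMod.grp FMod.mod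

namespace FMod

variable {R : FRing T} (𝓜 : FMod R)

/-- the support -/
def supp : Set T := {p | ∃ u : 𝓜.M p, u ≠ 0}

end FMod

end Pool.Agent.Msh
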