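import Pool.Agent.Msh.Alg

/-!
# Calculus of sections (P11, sheaf level, helper39)
-/

set_option autoImplicit false

namespace Pool.Agent.Msh

open Topology Filter

variable {T : Type} [TopologicalSpace T]

/-! ## row c1: sections of rings -/

namespace FRing

variable (R : FRing T) {p : T}

lemma ext_zero : ∀ᶠ q in 𝓝 p, R.ext p 0 q = 0 := by
  filter_upwards [R.ext_add p 0 0] with q h
  rw [add_zero] at h
  exact left_eq_add.mp h

lemma ext_neg (a : R.A p) : ∀ᶠ q in 𝓝 p, R.ext p (-a) q = -R.ext p a q := by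
  filter_upwards [R.ext_add p (-a) a, R.ext_zero (p := p)] with q h1 h2
  rw [neg_add_cancel, h2] at h1
  exact eq_neg_of_add_eq_zero_left h1.symm

lemma ext_sub (a b : R.A p) : ∀ᶠ q in 𝓝 p, R.ext p (a - b) q = R.ext p a q - R.ext p b q := by
  filter_upwards [R.ext_add p a (-b), R.ext_neg b] with q h1 h2
  rw [sub_eq_add_neg, h1, h2, sub_eq_add_neg]

lemma ext_sum {κ : Type} (s : Finset κ) (a : κ → R.A p) :
    ∀ᶠ q in 𝓝 p, R.ext p (∑ k ∈ s, a k) q = ∑ k ∈ s, R.ext p (a k) q := by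
  classical
  induction s using Finset.induction_on with
  | empty =>
    filter_upwards [R.ext_zero (p := p)] with q h
    rw [Finset.sum_empty, Finset.sum_empty, h]
  | insert x s hx ih =>
    filter_upwards [ih, R.ext_add p (a x) (∑ k ∈ s, a k)] with q h1 h2
    rw [Finset.sum_insert hx, Finset.sum_insert hx, h2, h1]

lemma ext_sum_mul {κ : Type} (s : Finset κ) (a b : κ → R.A p) :
    ∀ᶠ q in 𝓝 p, R.ext p (∑ k ∈ s, a k * b k) q = ∑ k ∈ s, R.ext p (a k) q * R.ext p (b k) q := by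
  filter_upwards [R.ext_sum s (fun k => a k * b k),
    (Filter.eventually_all_finset s).2 (fun k _ => R.ext_mul p (a k) (b k))] with q h1 h2
  rw [h1]
  exact Finset.sum_congr rfl h2

lemma ext_pow (a : R.A p) (n : ℕ) : ∀ᶠ q in 𝓝 p, R.ext p (a ^ n) q = R.ext p a q ^ n := by
  induction n with
  | zero =>
    filter_upwards [R.ext_one p] with q h
    rw [pow_zero, pow_zero, h]
  | succ n ih =>
    filter_upwards [ih, R.ext_mul p (a ^ n) a] with q h1 h2
    rw [pow_succ, pow_succ, h2, h1]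

end FRing

/-! ## row c2: sections of modules -/

namespace FMod

variable {R : FRing T} (M : FMod R) {p : T}

lemma ext_zero : ∀ᶠ q in 𝓝 p, M.ext p 0 q = 0 := by
  filter_upwards [M.ext_add p 0 0] with q h
  rw [add_zero] at h
  exact left_eq_add.mp h

lemma ext_neg (u : M.M p) : ∀ᶠ q in 𝓝 p, M.ext p (-u) q = -M.ext p u q := by
  filter_upwards [M.ext_add p (-u) u, M.ext_zero (p := p)] with q h1 h2
  rw [neg_add_cancel, h2] at h1
  exact eq_neg_of_add_eq_zero_left h1.symm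

lemma ext_sum {κ : Type} (s : Finset κ) (u : κ → M.M p) :
    ∀ᶠ q in 𝓝 p, M.ext p (∑ k ∈ s, u k) q = ∑ k ∈ s, M.ext p (u k) q := by
  classical
  induction s using Finset.induction_on with
  | empty =>
    filter_upwards [M.ext_zero (p := p)] with q h
    rw [Finset.sum_empty, Finset.sum_empty, h]
  | insert x s hx ih =>
    filter_upwards [ih, M.ext_add p (u x) (∑ k ∈ s, u k)] with q h1 h2
    rw [Finset.sum_insert hx, Finset.sum_insert hx, h2, h1]

lemma ext_lin {κ : Type} (s : Finset κ) (a : κ → R.A p) (u : κ → M.M p) :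
    ∀ᶠ q in 𝓝 p, M.ext p (∑ k ∈ s, a k • u k) q = ∑ k ∈ s, R.ext p (a k) q • M.ext p (u k) q := by
  filter_upwards [M.ext_sum s (fun k => a k • u k),
    (Filter.eventually_all_finset s).2 (fun k _ => M.ext_smul p (a k) (u k))] with q h1 h2
  rw [h1]
  exact Finset.sum_congr rfl h2

/-- a relation at `p` holds near `p` -/
lemma ext_rel {κ : Type} (s : Finset κ) (a : κ → R.A p) (u : κ → M.M p)
    (h : ∑ k ∈ s, a k • u k = 0) :
    ∀ᶠ q in 𝓝 p, ∑ k ∈ s, R.ext p (a k) q • M.ext p (u k) q = 0 := by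
  filter_upwards [M.ext_lin s a u, M.ext_zero (p := p)] with q h1 h2
  rw [← h1, h, h2]

/-- a germ which vanishes, vanishes near `p` -/
lemma ext_eq_zero {u : M.M p} (h : u = 0) : ∀ᶠ q in 𝓝 p, M.ext p u q = 0 := by
  rw [h]
  exact M.ext_zero

end FMod

/-! ## row c3: finitely presented sheaves -/

namespace FMod

variable {R : FRing T} (M : FMod R) {p : T} {B : ∀ q, Subring (R.A q)} {L : ∀ q, Set (M.M q)}

/-- a presentation near `p` is a presentation near each `q` near `p` -/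
theorem FP.spread (h : M.FP B L p) : ∀ᶠ q in 𝓝 p, M.FP B L q := by
  obtain ⟨k, c, l, r, h⟩ := h
  filter_upwards [h.eventually_nhds, Filter.eventually_all.2 (fun i => M.ext_ext p (l i)),
    Filter.eventually_all.2 (fun j => Filter.eventually_all.2 (fun i => R.ext_ext p (r j i)))]
    with q h1 h2 h3
  refine ⟨k, c, fun i => M.ext p (l i) q, fun j i => R.ext p (r j i) q, ?_⟩
  filter_upwards [h1, Filter.eventually_all.2 h2,
    Filter.eventually_all.2 (fun j => Filter.eventually_all.2 (h3 j))] with s h4 h5 h6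
  have e1 : (fun i => M.ext q (M.ext p (l i) q) s) = fun i => M.ext p (l i) s := funext h5
  have e2 : (fun j i => R.ext q (R.ext p (r j i) q) s) = fun j i => R.ext p (r j i) s :=
    funext fun j => funext (h6 j)
  rw [e1, e2]
  exact h4

/-- the presentation at the point itself -/
theorem FP.self (h : M.FP B L p) : ∃ (k c : ℕ) (l : Fin k → M.M p) (r : Fin c → Fin k → R.A p),
    Pres (B p) (L p) l r ∧ ∀ᶠ q in 𝓝 p,
      Pres (B q) (L q) (fun i => M.ext p (l i) q) (fun j i => R.ext p (r j i) q) := by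
  obtain ⟨k, c, l, r, h⟩ := h
  refine ⟨k, c, l, r, ?_, h⟩
  have h1 := h.self_of_nhds
  have e1 : (fun i => M.ext p (l i) p) = l := funext fun i => M.ext_self p (l i)
  have e2 : (fun j i => R.ext p (r j i) p) = r := funext fun j => funext fun i => R.ext_self p (r j i)
  rw [e1, e2] at h1
  exact h1

/-- Change of generators: `Pres.change` at `q` near `p`. -/
theorem FP.change (hB : ∀ a ∈ B p, ∀ᶠ q in 𝓝 p, R.ext p a q ∈ B q) (h : M.FP B L p) {m : ℕ}
    (n : Fin m → M.M p) (hn : Gen (B p) (L p) n) : ∃ (c : ℕ) (r : Fin c → Fin m → R.A p),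
      Pres (B p) (L p) n r ∧ ∀ᶠ q in 𝓝 p,
        Pres (B q) (L q) (fun i => M.ext p (n i) q) (fun j i => R.ext p (r j i) q) := by
  obtain ⟨k, c, l, r, h0, h⟩ := FP.self M h
  have hl : Gen (B p) (L p) l := h0.2.1
  choose α hα h1 using fun i => (hl (n i)).1 (hn.mem i)
  choose β hβ h2 using fun j => (hn (l j)).1 (hl.mem j)
  refine ⟨m + c, Fin.addCases
      (fun (i : Fin m) (i' : Fin m) => (if i = i' then 1 else 0) - ∑ j, α i j * β j i')
      (fun (x : Fin c) (i' : Fin m) => ∑ j, r x j * β j i'),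
      h0.change n α β hα hβ h1 h2, ?_⟩
  have a1 : ∀ᶠ q in 𝓝 p, ∀ i j, R.ext p (α i j) q ∈ B q :=
    Filter.eventually_all.2 fun i => Filter.eventually_all.2 fun j => hB _ (hα i j)
  have a2 : ∀ᶠ q in 𝓝 p, ∀ i j, R.ext p (β i j) q ∈ B q :=
    Filter.eventually_all.2 fun i => Filter.eventually_all.2 fun j => hB _ (hβ i j)
  have a3 : ∀ᶠ q in 𝓝 p, ∀ i, M.ext p (n i) q = ∑ j, R.ext p (α i j) q • M.ext p (l j) q := by
    refine Filter.eventually_all.2 fun i => ?_
    filter_upwards [M.ext_lin Finset.univ (α i) l] with q h3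
    rw [← h3, ← h1 i]
  have a4 : ∀ᶠ q in 𝓝 p, ∀ j, M.ext p (l j) q = ∑ i, R.ext p (β j i) q • M.ext p (n i) q := by
    refine Filter.eventually_all.2 fun j => ?_
    filter_upwards [M.ext_lin Finset.univ (β j) n] with q h3
    rw [← h3, ← h2 j]
  have a5 : ∀ᶠ q in 𝓝 p, ∀ i i', R.ext p ((if i = i' then 1 else 0) - ∑ j, α i j * β j i') q =
      (if i = i' then 1 else 0) - ∑ j, R.ext p (α i j) q * R.ext p (β j i') q := by
    refine Filter.eventually_all.2 fun i => Filter.eventually_all.2 fun i' => ?_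
    filter_upwards [R.ext_sub (if i = i' then 1 else 0) (∑ j, α i j * β j i'),
      R.ext_sum_mul Finset.univ (α i) (fun j => β j i'), R.ext_one p, R.ext_zero (p := p)]
      with q h3 h4 h5 h6
    rw [h3, h4]
    congr 1
    split_ifs
    · exact h5
    · exact h6
  have a6 : ∀ᶠ q in 𝓝 p, ∀ x i', R.ext p (∑ j, r x j * β j i') q =
      ∑ j, R.ext p (r x j) q * R.ext p (β j i') q :=
    Filter.eventually_all.2 fun x => Filter.eventually_all.2 fun i' =>
      R.ext_sum_mul Finset.univ (r x) (fun j => β j i')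
  filter_upwards [h, a1, a2, a3, a4, a5, a6] with q b0 b1 b2 b3 b4 b5 b6
  have h5 := b0.change (fun i => M.ext p (n i) q) (fun i j => R.ext p (α i j) q)
    (fun i j => R.ext p (β i j) q) b1 b2 b3 b4
  have e : (fun (j : Fin (m + c)) (i : Fin m) => R.ext p ((Fin.addCases
      (fun (i : Fin m) (i' : Fin m) => (if i = i' then 1 else 0) - ∑ j, α i j * β j i')
      (fun (x : Fin c) (i' : Fin m) => ∑ j, r x j * β j i') :
        Fin (m + c) → Fin m → R.A p) j i) q) =
      (Fin.addCases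
      (fun (i : Fin m) (i' : Fin m) => (if i = i' then 1 else 0) -
        ∑ j, R.ext p (α i j) q * R.ext p (β j i') q)
      (fun (x : Fin c) (i' : Fin m) => ∑ j, R.ext p (r x j) q * R.ext p (β j i') q) :
        Fin (m + c) → Fin m → R.A q) := by
    funext j i
    refine Fin.addCases (fun j => ?_) (fun j => ?_) j
    · simp only [Fin.addCases_left]
      exact b5 j i
    · simp only [Fin.addCases_right]
      exact b6 j i
  rw [e]
  exact h5

/-- Change of the relations: `Pres.rows` at `q` near `p`. -/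
theorem pres_rows {m c c' : ℕ} (hB : ∀ a ∈ B p, ∀ᶠ q in 𝓝 p, R.ext p a q ∈ B q)
    (n : Fin m → M.M p) (r : Fin c → Fin m → R.A p)
    (h : ∀ᶠ q in 𝓝 p, Pres (B q) (L q) (fun i => M.ext p (n i) q) (fun j i => R.ext p (r j i) q))
    (b : Fin c' → Fin m → R.A p) (hb : ∀ j i, b j i ∈ B p) (hr : ∀ j, ∑ i, b j i • n i = 0)
    (C : Fin c → Fin c' → R.A p) (hC : ∀ j j', C j j' ∈ B p)
    (h3 : ∀ j i, r j i = ∑ j', C j j' * b j' i) :
    ∀ᶠ q in 𝓝 p, Pres (B q) (L q) (fun i => M.ext p (n i) q) (fun j i => R.ext p (b j i) q) := by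
  have a1 : ∀ᶠ q in 𝓝 p, ∀ j i, R.ext p (b j i) q ∈ B q :=
    Filter.eventually_all.2 fun i => Filter.eventually_all.2 fun j => hB _ (hb i j)
  have a2 : ∀ᶠ q in 𝓝 p, ∀ j, ∑ i, R.ext p (b j i) q • M.ext p (n i) q = 0 :=
    Filter.eventually_all.2 fun j => M.ext_rel Finset.univ (b j) n (hr j)
  have a3 : ∀ᶠ q in 𝓝 p, ∀ j j', R.ext p (C j j') q ∈ B q :=
    Filter.eventually_all.2 fun i => Filter.eventually_all.2 fun j => hB _ (hC i j)
  have a4 : ∀ᶠ q in 𝓝 p, ∀ j i, R.ext p (r j i) q =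
      ∑ j', R.ext p (C j j') q * R.ext p (b j' i) q := by
    refine Filter.eventually_all.2 fun j => Filter.eventually_all.2 fun i => ?_
    filter_upwards [R.ext_sum_mul Finset.univ (C j) (fun j' => b j' i)] with q h4
    rw [← h4, ← h3 j i]
  filter_upwards [h, a1, a2, a3, a4] with q b0 b1 b2 b3 b4
  exact b0.rows (fun j i => R.ext p (b j i) q) b1 b2 (fun j j' => R.ext p (C j j') q) b3 b4

end FMod

/-! ## row c4: the pair of sheaves -/

namespace MSheaf

variable {d : ℕ} (P : MSheaf T d) {p : T}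

/-- the operators of order `≤ 0` -/
abbrev F0 (q : T) : Subring (P.hat.A q) := (P.hat.fil q).F0

lemma ext_F0 {a : P.hat.A p} (ha : a ∈ P.F0 p) : ∀ᶠ q in 𝓝 p, P.hat.ext p a q ∈ P.F0 q :=
  P.hat.ext_fil 0 p a ha

lemma ext_E0 {a : P.hat.A p} (ha : a ∈ P.E p ⊓ P.F0 p) :
    ∀ᶠ q in 𝓝 p, P.hat.ext p a q ∈ P.E q ⊓ P.F0 q := by
  filter_upwards [P.ext_E p a ha.1, P.ext_F0 ha.2] with q h1 h2
  exact ⟨h1, h2⟩

/-- an invertible operator of order `-1` remains one near `p` -/
lemma ord_spread {σ τ : P.hat.A p} (h : Ord (P.hat.fil p) (P.E p) σ τ) :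
    ∀ᶠ q in 𝓝 p, Ord (P.hat.fil q) (P.E q) (P.hat.ext p σ q) (P.hat.ext p τ q) := by
  filter_upwards [P.hat.ext_fil (-1) p σ h.s1, P.hat.ext_fil 1 p τ h.t1, P.ext_E p σ h.sE,
    P.ext_E p τ h.tE, P.hat.ext_mul p σ τ, P.hat.ext_mul p τ σ, P.hat.ext_one p]
    with q h1 h2 h3 h4 h5 h6 h7
  refine ⟨h1, h2, h3, h4, ?_, ?_⟩
  · rw [← h5, h.st, h7]
  · rw [← h6, h.ts, h7]

/-- outside the zero section there is no point of the zero section nearby -/
lemma not_Z_spread {σ τ : P.hat.A p} (h : Ord (P.hat.fil p) (P.E p) σ τ) :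
    ∀ᶠ q in 𝓝 p, q ∉ P.Z := by
  filter_upwards [P.ord_spread h] with q h1 hq
  obtain ⟨-, h2, h3⟩ := P.zero q hq
  have h4 : P.hat.ext p σ q ∈ (⊥ : AddSubgroup (P.hat.A q)) := h2 ▸ h1.s1
  rw [AddSubgroup.mem_bot] at h4
  refine h3 ?_
  rw [← h1.st, h4, zero_mul]

end MSheaf

end Pool.Agent.Msh
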