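import Pool.Agent.Msh.Alg
import Pool.Agent.Ep.Ung

/-!
# The standard stalks (P11, sheaf level, helper39)

The theorems on modules over `hat E_p(0)` and `E_p(0)` (`exists_genRel`, `spn_unique`, `rel_descent`)
for an abstract standard stalk.
-/

set_option autoImplicit false

namespace Pool.Agent.Msh

open Pool.Agent.Ep (Op op vs hatE micE Formal Micro iot GenRel spn Res OpRing Gr)

variable {d : ℕ}

/-! ## row e1: two lattices in one module -/

section e1

open Pool.Agent.Ep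

variable {M : Type} [AddCommGroup M] [Module (Formal d).ring M]

private lemma e1a_mul_s (A : OpRing d) (Q : A.ring) :
    ∃ P : A.ring, Q * A.s = A.s * (Q + P * A.s) := by
  refine ⟨⟨op (MvPowerSeries.pderiv ℂ (some .t) Q.1.sym), A.pd _ _ Q.2⟩, Subtype.ext (Op.ext ?_)⟩
  show comp Q.1.sym vs = comp vs (Q.1.sym + comp (MvPowerSeries.pderiv ℂ (some .t) Q.1.sym) vs)
  rw [comp_vs_right (MvPowerSeries.pderiv ℂ (some .t) Q.1.sym), mul_comm _ vs]
  exact (rho_inv Q.1.sym).symm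

private lemma e1a_s_inj (A : OpRing d) {Q Q' : A.ring} (h : Q * A.s = Q' * A.s) : Q = Q' := by
  have h1 : (Q - Q') * A.s = 0 := by rw [sub_mul, h, sub_self]
  have h2 : comp (Q - Q').1.sym vs = 0 := congrArg (fun x : A.ring => x.1.sym) h1
  have h3 := comp_vs_right_inj h2
  exact sub_eq_zero.1 (Subtype.ext (Op.ext h3))

/-- the submodule `s L` of `M` -/
private noncomputable def e1a_sub (L : Submodule (Formal d).ring M) : Submodule (Formal d).ring M where
  carrier := {u | ∃ w ∈ L, u = (Formal d).s • w}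
  add_mem' := by
    rintro _ _ ⟨w, hw, rfl⟩ ⟨w', hw', rfl⟩
    exact ⟨w + w', L.add_mem hw hw', (smul_add _ _ _).symm⟩
  zero_mem' := ⟨0, L.zero_mem, (smul_zero _).symm⟩
  smul_mem' := by
    rintro Q _ ⟨w, hw, rfl⟩
    obtain ⟨Q', h⟩ := (Formal d).mul_s Q
    exact ⟨Q' • w, L.smul_mem _ hw, by rw [← mul_smul, h, mul_smul]⟩

private lemma e1a_mem (L : Submodule (Formal d).ring M) (u : M) :
    u ∈ e1a_sub L ↔ ∃ w ∈ L, u = (Formal d).s • w := Iff.rfl

/-- the element `s w` of `s L` -/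
private noncomputable def e1a_el (L : Submodule (Formal d).ring M) (w : L) : e1a_sub L :=
  ⟨(Formal d).s • (w : M), w, w.2, rfl⟩

private lemma e1a_surj (L : Submodule (Formal d).ring M) (u : e1a_sub L) :
    ∃ w : L, u = e1a_el L w := by
  obtain ⟨w, hw, h⟩ := u.2
  exact ⟨⟨w, hw⟩, Subtype.ext h⟩

private lemma e1a_smul (L : Submodule (Formal d).ring M) (Q Q' : (Formal d).ring)
    (h : Q * (Formal d).s = (Formal d).s * Q') (w : L) :
    Q • e1a_el L w = e1a_el L (Q' • w) := by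
  refine Subtype.ext ?_
  show Q • ((Formal d).s • (w : M)) = (Formal d).s • (Q' • (w : M))
  rw [← mul_smul, h, mul_smul]

private lemma e1a_el_add (L : Submodule (Formal d).ring M) (w w' : L) :
    e1a_el L (w + w') = e1a_el L w + e1a_el L w' :=
  Subtype.ext (smul_add _ _ _)

private lemma e1a_el_sum (L : Submodule (Formal d).ring M) {κ : Type} (s : Finset κ) (w : κ → L) :
    e1a_el L (∑ k ∈ s, w k) = ∑ k ∈ s, e1a_el L (w k) := by
  classical
  induction s using Finset.induction_on with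
  | empty =>
    rw [Finset.sum_empty, Finset.sum_empty]
    exact Subtype.ext (smul_zero _)
  | insert a s ha ih => rw [Finset.sum_insert ha, Finset.sum_insert ha, e1a_el_add, ih]

private lemma e1a_el_inj (L : Submodule (Formal d).ring M)
    (hi : ∀ u : M, (Formal d).s • u = 0 → u = 0) {w w' : L} (h : e1a_el L w = e1a_el L w') :
    w = w' := by
  have h1 : (Formal d).s • (w : M) = (Formal d).s • (w' : M) := congrArg Subtype.val h
  have h2 : (Formal d).s • ((w : M) - (w' : M)) = 0 := by rw [smul_sub, h1, sub_self]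
  exact Subtype.ext (sub_eq_zero.1 (hi _ h2))

private lemma e1a_kills (L : Submodule (Formal d).ring M)
    (hi : ∀ u : M, (Formal d).s • u = 0 → u = 0) (Q : (Formal d).ring) :
    (Formal d).Kills (e1a_sub L) Q ↔ (Formal d).Kills L Q := by
  obtain ⟨P, hP⟩ := e1a_mul_s (Formal d) Q
  constructor
  · intro h u
    obtain ⟨w, hw⟩ := h (e1a_el L u)
    obtain ⟨v, rfl⟩ := e1a_surj L w
    have h1 : e1a_el L ((Q + P * (Formal d).s) • u) = e1a_el L ((Formal d).s • v) := by
      rw [← e1a_smul L Q _ hP, hw, e1a_smul L _ _ rfl]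
    have h2 := e1a_el_inj L hi h1
    obtain ⟨P', hP'⟩ := (Formal d).mul_s P
    refine ⟨v - P' • u, ?_⟩
    rw [add_smul, hP', mul_smul] at h2
    rw [smul_sub, ← h2, add_sub_cancel_right]
  · intro h u
    obtain ⟨v, rfl⟩ := e1a_surj L u
    obtain ⟨w, hw⟩ := h v
    obtain ⟨P', hP'⟩ := (Formal d).mul_s P
    refine ⟨e1a_el L (w + P' • v), ?_⟩
    rw [e1a_smul L Q _ hP, e1a_smul L _ _ rfl, add_smul, hw, hP', mul_smul, smul_add]

private lemma e1a_hol (L : Submodule (Formal d).ring M) (hL : (Formal d).HolLattice L)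
    (hi : ∀ u : M, (Formal d).s • u = 0 → u = 0) : (Formal d).HolLattice (e1a_sub L) where
  fin := by
    obtain ⟨s, hs⟩ := hL.fin
    classical
    refine ⟨s.image (e1a_el L), ?_⟩
    rw [eq_top_iff]
    intro u _
    obtain ⟨w, rfl⟩ := e1a_surj L u
    have hw : w ∈ Submodule.span (Formal d).ring (s : Set L) := by rw [hs]; trivial
    refine Submodule.span_induction (p := fun w _ => e1a_el L w ∈
      Submodule.span (Formal d).ring ((s.image (e1a_el L) : Finset _) : Set (e1a_sub L)))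
      ?_ ?_ ?_ ?_ hw
    · intro x hx
      exact Submodule.subset_span (Finset.mem_coe.2 (Finset.mem_image_of_mem _ hx))
    · have h0 : e1a_el L 0 = 0 := Subtype.ext (smul_zero _)
      rw [h0]
      exact Submodule.zero_mem _
    · intro x y _ _ hx hy
      rw [e1a_el_add]
      exact Submodule.add_mem _ hx hy
    · intro Q x _ hx
      obtain ⟨Q', hQ'⟩ := (Formal d).s_mul Q
      have h1 : Q' • e1a_el L x = e1a_el L (Q • x) := e1a_smul L Q' Q hQ'.symm x
      rw [← h1]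
      exact Submodule.smul_mem _ _ hx
  sinj := by
    intro u hu
    exact Subtype.ext (hi _ (congrArg Subtype.val hu))
  hol := by
    have h1 : (Formal d).annI (e1a_sub L) = (Formal d).annI L := by
      ext f
      rw [OpRing.mem_annI, OpRing.mem_annI]
      exact e1a_kills L hi _
    show ringKrullDim (Gr d ⧸ (Formal d).annI (e1a_sub L)) ≤ d
    rw [h1]
    exact hL.hol
  reg := by
    rintro Q ⟨n, hn⟩
    rw [e1a_kills L hi] at hn ⊢
    exact hL.reg Q ⟨n, hn⟩

private lemma e1a_iot (b : (Micro d).ring) : ∃ b' : (Micro d).ring,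
    (Formal d).s * iot d b = iot d b' * (Formal d).s := by
  obtain ⟨b', hb'⟩ := (Micro d).s_mul b
  have h := congrArg (iot d) hb'
  rw [map_mul, map_mul] at h
  exact ⟨b', h⟩

private lemma e1a_gen (L : Submodule (Formal d).ring M)
    (hi : ∀ u : M, (Formal d).s • u = 0 → u = 0) {m : ℕ} (n : Fin m → L)
    (hn : GenRel d L n) : GenRel d (e1a_sub L) (fun i => e1a_el L (n i)) where
  gen := by
    intro u
    obtain ⟨w, rfl⟩ := e1a_surj L u
    obtain ⟨f, hf⟩ := hn.gen w
    choose f' hf' using fun i => (Formal d).s_mul (f i)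
    refine ⟨f', ?_⟩
    rw [hf, e1a_el_sum]
    exact Finset.sum_congr rfl fun i _ => (e1a_smul L (f' i) (f i) (hf' i).symm (n i)).symm
  rel := by
    intro f hf
    choose f' hf' using fun i => (Formal d).mul_s (f i)
    have h1 : e1a_el L (∑ i, f' i • n i) = e1a_el L 0 := by
      rw [e1a_el_sum]
      have h2 : e1a_el L 0 = 0 := Subtype.ext (smul_zero _)
      rw [h2, ← hf]
      exact Finset.sum_congr rfl fun i _ => (e1a_smul L (f i) (f' i) (hf' i) (n i)).symm
    obtain ⟨q, c, b, hb, hc⟩ := hn.rel f' (e1a_el_inj L hi h1)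
    choose c' hc' using fun l => (Formal d).s_mul (c l)
    choose b' hb' using fun l i => e1a_iot (d := d) (b l i)
    refine ⟨q, c', b', fun l => ?_, fun i => ?_⟩
    · have h2 : ∀ i, iot d (b' l i) • e1a_el L (n i) = e1a_el L (iot d (b l i) • n i) :=
        fun i => e1a_smul L _ _ (hb' l i).symm (n i)
      rw [Finset.sum_congr rfl fun i _ => h2 i, ← e1a_el_sum, hb l]
      exact Subtype.ext (smul_zero _)
    · refine e1a_s_inj (Formal d) ?_
      rw [hf' i, hc i, Finset.mul_sum, Finset.sum_mul]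
      refine Finset.sum_congr rfl fun l _ => ?_
      rw [← mul_assoc, hc' l, mul_assoc, hb' l i, ← mul_assoc]

/-- `s ^ a L` is a lattice of the same kind, the family `s ^ a n_i` has the property `GenRel` -/
lemma hol_pow (L : Submodule (Formal d).ring M) (hL : (Formal d).HolLattice L)
    (hi : ∀ u : M, (Formal d).s • u = 0 → u = 0) (a : ℕ) {m : ℕ} (n : Fin m → L)
    (hn : GenRel d L n) :
    ∃ (L' : Submodule (Formal d).ring M) (n' : Fin m → L'),
      (∀ u : M, u ∈ L' ↔ ∃ w ∈ L, u = (Formal d).s ^ a • w) ∧ (Formal d).HolLattice L' ∧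
      (∀ i, (n' i : M) = (Formal d).s ^ a • (n i : M)) ∧ GenRel d L' n' := by
  induction a with
  | zero =>
    refine ⟨L, n, fun u => ?_, hL, fun i => ?_, hn⟩
    · rw [pow_zero]
      constructor
      · intro h
        exact ⟨u, h, (one_smul _ _).symm⟩
      · rintro ⟨w, hw, rfl⟩
        rw [one_smul]
        exact hw
    · rw [pow_zero, one_smul]
  | succ a ih =>
    obtain ⟨L', n', h1, h2, h3, h4⟩ := ih
    refine ⟨e1a_sub L', fun i => e1a_el L' (n' i), fun u => ?_, e1a_hol L' h2 hi, fun i => ?_,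
      e1a_gen L' hi n' h4⟩
    · rw [e1a_mem]
      constructor
      · rintro ⟨w, hw, rfl⟩
        obtain ⟨v, hv, rfl⟩ := (h1 w).1 hw
        exact ⟨v, hv, by rw [← mul_smul, ← pow_succ']⟩
      · rintro ⟨v, hv, rfl⟩
        exact ⟨(Formal d).s ^ a • v, (h1 _).2 ⟨v, hv, rfl⟩, by rw [← mul_smul, ← pow_succ']⟩
    · show (Formal d).s • (n' i : M) = _
      rw [h3 i, ← mul_smul, ← pow_succ']

/-- the abstract form of `exists_sub`: two rings `B → A`, `S` is `s ^ b` -/
private lemma e1b_abs {A B M : Type} [Ring A] [Ring B] [AddCommGroup M] [Module A M]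
    (ι : B →+* A) (S : A) (T : B) (hST : ι T = S)
    (hlev : ∀ Q : A, ∃ (Q0 : B) (Q1 : A), Q = ι Q0 + S * Q1)
    (hAl : ∀ Q : A, ∃ Q' : A, S * Q = Q' * S) (hAr : ∀ Q : A, ∃ Q' : A, Q * S = S * Q')
    (hBl : ∀ Q : B, ∃ Q' : B, T * Q = Q' * T) (hcan : ∀ Q : A, Q * S = 0 → Q = 0)
    (hi : ∀ u : M, S • u = 0 → u = 0)
    (L W : Submodule A M) (hWL : W ≤ L) (hb : ∀ u ∈ L, S • u ∈ W)
    {m : ℕ} (n : Fin m → M) (hnL : ∀ i, n i ∈ L)
    (hgen : ∀ u ∈ L, ∃ f : Fin m → A, u = ∑ i, f i • n i)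
    (hrel : ∀ f : Fin m → A, ∑ i, f i • n i = 0 → ∃ (q : ℕ) (c : Fin q → A)
      (b : Fin q → Fin m → B), (∀ l, ∑ i, ι (b l i) • n i = 0) ∧
        ∀ i, f i = ∑ l, c l * ι (b l i))
    (hsat : ∀ (a : Fin m → B), ∀ u ∈ L, ∑ i, ι (a i) • n i = S • u →
      ∃ w : Fin m → B, ∑ i, ι (a i) • n i = S • ∑ i, ι (w i) • n i)
    {p : ℕ} (y : Fin p → M) (hyW : ∀ k, y k ∈ W)
    (hy : ∀ u ∈ W, ∃ c : Fin p → A, u = ∑ k, c k • y k) :
    ∃ (w : Fin p → M) (a : Fin p → Fin m → B), (∀ k, w k ∈ W) ∧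
      (∀ k, w k = ∑ j, ι (a k j) • n j) ∧
      (∀ u ∈ W, ∃ (f : Fin p → A) (g : Fin m → A),
        u = ∑ k, f k • w k + ∑ j, g j • (S • n j)) ∧
      (∀ (f : Fin p → A) (g : Fin m → A), ∑ k, f k • w k + ∑ j, g j • (S • n j) = 0 →
        ∃ (q : ℕ) (c : Fin q → A) (b1 : Fin q → Fin p → B) (b2 : Fin q → Fin m → B),
          (∀ l, ∑ k, ι (b1 l k) • w k + ∑ j, ι (b2 l j) • (S • n j) = 0) ∧
          (∀ k, f k = ∑ l, c l * ι (b1 l k)) ∧ ∀ j, g j = ∑ l, c l * ι (b2 l j)) := by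
  choose F hF using fun k => hgen (y k) (hWL (hyW k))
  choose a F1 haF using fun k j => hlev (F k j)
  -- the elements `w k`
  set w : Fin p → M := fun k => ∑ j, ι (a k j) • n j with hw
  have hyw : ∀ k, y k = w k + S • ∑ j, F1 k j • n j := by
    intro k
    rw [hF k, hw]
    simp only [Finset.smul_sum, ← Finset.sum_add_distrib]
    exact Finset.sum_congr rfl fun j _ => by rw [haF k j, add_smul, mul_smul]
  have hLs : ∀ g : Fin m → A, ∑ j, g j • n j ∈ L := fun g =>
    Submodule.sum_mem _ fun j _ => Submodule.smul_mem _ _ (hnL j)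
  have hwW : ∀ k, w k ∈ W := by
    intro k
    have h1 : w k = y k - S • ∑ j, F1 k j • n j := by rw [hyw k, add_sub_cancel_right]
    rw [h1]
    exact Submodule.sub_mem _ (hyW k) (hb _ (hLs _))
  -- `S` moved to the right
  choose lA hlA using hAl
  choose rA hrA using hAr
  choose lB hlB using hBl
  have hSsum : ∀ g : Fin m → A, S • ∑ j, g j • n j = ∑ j, lA (g j) • (S • n j) := by
    intro g
    rw [Finset.smul_sum]
    exact Finset.sum_congr rfl fun j _ => by rw [smul_smul, smul_smul, hlA]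
  have hSsumB : ∀ g : Fin m → B, S • ∑ j, ι (g j) • n j = ∑ j, ι (lB (g j)) • (S • n j) := by
    intro g
    rw [Finset.smul_sum]
    refine Finset.sum_congr rfl fun j _ => ?_
    rw [smul_smul, smul_smul, ← hST, ← map_mul, ← map_mul, hlB]
  have hsumS : ∀ g : Fin m → A, ∑ j, g j • (S • n j) = S • ∑ j, rA (g j) • n j := by
    intro g
    rw [Finset.smul_sum]
    exact Finset.sum_congr rfl fun j _ => by rw [smul_smul, smul_smul, hrA]
  refine ⟨w, a, hwW, fun k => rfl, ?_, ?_⟩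
  · intro u hu
    obtain ⟨c, hc⟩ := hy u hu
    refine ⟨c, fun j => ∑ k, c k * lA (F1 k j), ?_⟩
    rw [hc]
    have h1 : ∀ k, c k • y k = c k • w k + ∑ j, (c k * lA (F1 k j)) • (S • n j) := by
      intro k
      rw [hyw k, smul_add, hSsum]
      congr 1
      rw [Finset.smul_sum]
      exact Finset.sum_congr rfl fun j _ => (mul_smul _ _ _).symm
    simp only [h1, Finset.sum_add_distrib, Finset.sum_smul]
    rw [Finset.sum_comm (s := (Finset.univ : Finset (Fin p)))]
  · intro f g hfg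
    -- the span of the relations over `B`
    let R : Set ((Fin p → A) × (Fin m → A)) := {v | ∃ (b1 : Fin p → B) (b2 : Fin m → B),
      ∑ k, ι (b1 k) • w k + ∑ j, ι (b2 j) • (S • n j) = 0 ∧
        v = (fun k => ι (b1 k), fun j => ι (b2 j))}
    have key : ((f, g) : (Fin p → A) × (Fin m → A)) ∈ Submodule.span A R := by
      -- the relations `s ^ b e_k - ω'_k`
      have hr : ∀ k0 : Fin p, ((Pi.single k0 S, fun j => -ι (lB (a k0 j))) :
          (Fin p → A) × (Fin m → A)) ∈ Submodule.span A R := by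
        intro k0
        refine Submodule.subset_span ⟨Pi.single k0 T, fun j => -lB (a k0 j), ?_, ?_⟩
        · have h1 : ∑ k, ι ((Pi.single k0 T : Fin p → B) k) • w k = S • w k0 := by
            rw [Finset.sum_eq_single k0]
            · rw [Pi.single_eq_same, hST]
            · intro k _ hk
              rw [Pi.single_eq_of_ne hk, map_zero, zero_smul]
            · intro h
              exact absurd (Finset.mem_univ _) h
          rw [h1, hw]
          simp only [map_neg, neg_smul, Finset.sum_neg_distrib]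
          rw [hSsumB, add_neg_cancel]
        · refine Prod.ext ?_ ?_
          · funext k
            change (Pi.single k0 S : Fin p → A) k = ι ((Pi.single k0 T : Fin p → B) k)
            by_cases hk : k = k0
            · subst hk
              rw [Pi.single_eq_same, Pi.single_eq_same, hST]
            · rw [Pi.single_eq_of_ne hk, Pi.single_eq_of_ne hk, map_zero]
          · funext j
            change -ι (lB (a k0 j)) = ι (-lB (a k0 j))
            rw [map_neg]
      -- reduction of `f` modulo `s ^ b`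
      choose f0 f1 hf using fun k => hlev (f k)
      have hsum0 : ∑ k, ι (f0 k) • w k = ∑ j, ι (∑ k, f0 k * a k j) • n j := by
        rw [hw]
        simp only [Finset.smul_sum, map_sum, map_mul, Finset.sum_smul, mul_smul]
        rw [Finset.sum_comm]
      have hsumf : ∑ k, f k • w k = ∑ k, ι (f0 k) • w k + S • ∑ k, f1 k • w k := by
        rw [Finset.smul_sum, ← Finset.sum_add_distrib]
        exact Finset.sum_congr rfl fun k _ => by
          conv_lhs => rw [hf k, add_smul, mul_smul]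
      have hw1L : ∑ k, f1 k • w k ∈ L :=
        Submodule.sum_mem _ fun k _ => Submodule.smul_mem _ _ (hWL (hwW k))
      have hdiv : ∑ j, ι (∑ k, f0 k * a k j) • n j =
          S • (-(∑ k, f1 k • w k) - ∑ j, rA (g j) • n j) := by
        rw [← hsum0, smul_sub, smul_neg, ← hsumS]
        rw [hsumf] at hfg
        rw [eq_sub_iff_add_eq, eq_neg_iff_add_eq_zero]
        rw [← hfg]
        abel
      obtain ⟨v, hv⟩ := hsat _ _ (Submodule.sub_mem _ (Submodule.neg_mem _ hw1L) (hLs _)) hdiv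
      have hv' : ∑ k, ι (f0 k) • w k = ∑ j, ι (lB (v j)) • (S • n j) := by
        rw [hsum0, hv, hSsumB]
      have hm1 : ((fun k => ι (f0 k), fun j => ι (-lB (v j))) :
          (Fin p → A) × (Fin m → A)) ∈ Submodule.span A R := by
        refine Submodule.subset_span ⟨f0, fun j => -lB (v j), ?_, rfl⟩
        simp only [map_neg, neg_smul, Finset.sum_neg_distrib]
        rw [hv', add_neg_cancel]
      -- the remaining relation
      set g2 : Fin m → A := fun j => g j + ι (lB (v j)) + ∑ k, lA (f1 k) * ι (lB (a k j)) with hg2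
      have hg2rel : ∑ j, g2 j • (S • n j) = 0 := by
        have h1 : ∑ j, g2 j • (S • n j) = ∑ j, g j • (S • n j) + ∑ k, ι (f0 k) • w k +
            ∑ k, S • (f1 k • w k) := by
          rw [hv', hg2]
          simp only [add_smul, Finset.sum_add_distrib, Finset.sum_smul]
          congr 1
          rw [Finset.sum_comm]
          refine Finset.sum_congr rfl fun k _ => ?_
          rw [smul_smul, hlA, mul_smul, hw]
          simp only
          rw [hSsumB, Finset.smul_sum]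
          simp only [mul_smul]
        rw [h1, ← Finset.smul_sum]
        rw [hsumf] at hfg
        rw [← hfg]
        abel
      have hm2 : ((0, g2) : (Fin p → A) × (Fin m → A)) ∈ Submodule.span A R := by
        rw [hsumS] at hg2rel
        obtain ⟨q, c, b, hb1, hb2⟩ := hrel _ (hi _ hg2rel)
        have h1 : ∀ j, g2 j = ∑ l, lA (c l) * ι (lB (b l j)) := by
          intro j
          rw [← sub_eq_zero]
          apply hcan
          rw [sub_mul, hrA, hb2 j, Finset.mul_sum, Finset.sum_mul, sub_eq_zero]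
          refine Finset.sum_congr rfl fun l _ => ?_
          rw [← mul_assoc, hlA, mul_assoc, mul_assoc, ← hST, ← map_mul, ← map_mul, hlB]
        have h2 : ((0, g2) : (Fin p → A) × (Fin m → A)) =
            ∑ l, lA (c l) • ((0, fun j => ι (lB (b l j))) : (Fin p → A) × (Fin m → A)) := by
          refine Prod.ext ?_ ?_
          · rw [Prod.fst_sum]
            simp
          · rw [Prod.snd_sum]
            funext j
            rw [Finset.sum_apply]
            exact h1 j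
        rw [h2]
        refine Submodule.sum_mem _ fun l _ => Submodule.smul_mem _ _ ?_
        refine Submodule.subset_span ⟨0, fun j => lB (b l j), ?_, ?_⟩
        · simp only [Pi.zero_apply, map_zero, zero_smul, Finset.sum_const_zero, zero_add]
          rw [← hSsumB, hb1 l, smul_zero]
        · refine Prod.ext ?_ rfl
          funext k
          change (0 : A) = ι 0
          rw [map_zero]
      have h3 : ((f, g) : (Fin p → A) × (Fin m → A)) =
          (fun k => ι (f0 k), fun j => ι (-lB (v j))) +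
            ∑ k0, lA (f1 k0) • ((Pi.single k0 S, fun j => -ι (lB (a k0 j))) :
              (Fin p → A) × (Fin m → A)) + (0, g2) := by
        refine Prod.ext ?_ ?_
        · rw [Prod.fst_add, Prod.fst_add, Prod.fst_sum]
          funext k
          rw [Pi.add_apply, Pi.add_apply, Finset.sum_apply]
          change f k = ι (f0 k) + ∑ k0, lA (f1 k0) * (Pi.single k0 S : Fin p → A) k + 0
          rw [Finset.sum_eq_single k]
          · rw [Pi.single_eq_same, ← hlA, add_zero]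
            exact hf k
          · intro k0 _ hk
            rw [Pi.single_eq_of_ne hk.symm, mul_zero]
          · intro h
            exact absurd (Finset.mem_univ _) h
        · rw [Prod.snd_add, Prod.snd_add, Prod.snd_sum]
          funext j
          rw [Pi.add_apply, Pi.add_apply, Finset.sum_apply]
          change g j = ι (-lB (v j)) + ∑ k0, lA (f1 k0) * -ι (lB (a k0 j)) + g2 j
          rw [hg2]
          simp only [map_neg, mul_neg, Finset.sum_neg_distrib]
          abel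
      rw [h3]
      exact Submodule.add_mem _ (Submodule.add_mem _ hm1
        (Submodule.sum_mem _ fun k0 _ => Submodule.smul_mem _ _ (hr k0))) hm2
    obtain ⟨q, c, r, hr⟩ := Submodule.mem_span_set'.1 key
    choose b1 b2 hb12 hb3 using fun l => (r l).2
    refine ⟨q, c, b1, b2, hb12, fun k => ?_, fun j => ?_⟩
    · have h1 := congrArg (fun v : (Fin p → A) × (Fin m → A) => v.1 k) hr
      simp only [Prod.fst_sum, Finset.sum_apply] at h1
      rw [← h1]
      refine Finset.sum_congr rfl fun l _ => ?_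
      rw [hb3 l]
      rfl
    · have h1 := congrArg (fun v : (Fin p → A) × (Fin m → A) => v.2 j) hr
      simp only [Prod.snd_sum, Finset.sum_apply] at h1
      rw [← h1]
      refine Finset.sum_congr rfl fun l _ => ?_
      rw [hb3 l]
      rfl

private lemma e1b_lev (b : ℕ) (Q : (Formal d).ring) :
    ∃ (Q0 : (Micro d).ring) (Q1 : (Formal d).ring), Q = iot d Q0 + (Formal d).s ^ b * Q1 := by
  induction b generalizing Q with
  | zero => exact ⟨0, Q, by rw [map_zero, pow_zero, one_mul, zero_add]⟩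
  | succ b ih =>
    obtain ⟨Q0, Q1, h⟩ := ih Q
    obtain ⟨Q2, Q3, h'⟩ := exists_level_zero Q1
    have hs : iot d (Micro d).s = (Formal d).s := rfl
    refine ⟨Q0 + (Micro d).s ^ b * Q2, Q3, ?_⟩
    rw [h, h', map_add, map_mul, map_pow, hs, mul_add, ← mul_assoc, ← pow_succ, add_assoc]

private lemma e1b_s_mul (A : OpRing d) (k : ℕ) (Q : A.ring) :
    ∃ Q' : A.ring, A.s ^ k * Q = Q' * A.s ^ k := by
  induction k generalizing Q with
  | zero => exact ⟨Q, by rw [pow_zero, one_mul, mul_one]⟩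
  | succ k ih =>
    obtain ⟨Q1, h1⟩ := A.s_mul Q
    obtain ⟨Q2, h2⟩ := ih Q1
    exact ⟨Q2, by rw [pow_succ, mul_assoc, h1, ← mul_assoc, h2, mul_assoc]⟩

private lemma e1b_mul_s (A : OpRing d) (k : ℕ) (Q : A.ring) :
    ∃ Q' : A.ring, Q * A.s ^ k = A.s ^ k * Q' := by
  induction k generalizing Q with
  | zero => exact ⟨Q, by rw [pow_zero, one_mul, mul_one]⟩
  | succ k ih =>
    obtain ⟨Q1, h1⟩ := A.mul_s Q
    obtain ⟨Q2, h2⟩ := ih Q1
    exact ⟨Q2, by rw [pow_succ', ← mul_assoc, h1, mul_assoc, h2, ← mul_assoc]⟩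

private lemma e1b_can (k : ℕ) {Q : (Formal d).ring} (h : Q * (Formal d).s ^ k = 0) : Q = 0 := by
  induction k with
  | zero => rwa [pow_zero, mul_one] at h
  | succ k ih =>
    rw [pow_succ, ← mul_assoc] at h
    refine ih (Subtype.ext (Op.ext ?_))
    exact comp_vs_right_inj (congrArg (fun x : (Formal d).ring => x.1.sym) h)

private lemma e1b_inj (hi : ∀ u : M, (Formal d).s • u = 0 → u = 0) (k : ℕ) {u : M}
    (h : (Formal d).s ^ k • u = 0) : u = 0 := by
  induction k with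
  | zero => rwa [pow_zero, one_smul] at h
  | succ k ih =>
    rw [pow_succ', mul_smul] at h
    exact ih (hi _ h)

private lemma e1b_sat (L : Submodule (Formal d).ring M)
    (hi : ∀ u : M, (Formal d).s • u = 0 → u = 0) {m : ℕ} (n : Fin m → L) (hn : GenRel d L n)
    (b : ℕ) (a : Fin m → (Micro d).ring) (u : L)
    (h : ∑ j, iot d (a j) • n j = (Formal d).s ^ b • u) :
    ∃ w : Fin m → (Micro d).ring,
      ∑ j, iot d (a j) • n j = (Formal d).s ^ b • ∑ j, iot d (w j) • n j := by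
  induction b generalizing a u with
  | zero => exact ⟨a, by rw [pow_zero, one_smul]⟩
  | succ b ih =>
    have hmem : ∑ j, a j • (Res.of (n j) : Res L) ∈ spn (d := d) n :=
      Submodule.sum_mem _ fun j _ => Submodule.smul_mem _ _ (Submodule.subset_span ⟨j, rfl⟩)
    obtain ⟨w, hw⟩ := sat n hn.gen hn.rel ⟨_, hmem⟩ ((Formal d).s ^ b • u) (by
      rw [smul_smul, ← pow_succ']
      exact h)
    obtain ⟨a', ha'⟩ := (Submodule.mem_span_range_iff_exists_fun (Micro d).ring).1 w.2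
    have h1 : ∑ j, iot d (a j) • n j = (Formal d).s • ∑ j, iot d (a' j) • n j := by
      have h2 := congrArg (fun v : spn (d := d) n => Res.out v.1) hw
      have h3 : Res.out w.1 = ∑ j, iot d (a' j) • n j := ha'.symm
      rw [← h3]
      exact h2
    have h4 : ∑ j, iot d (a' j) • n j = (Formal d).s ^ b • u := by
      rw [h1, pow_succ', mul_smul, ← sub_eq_zero, ← smul_sub] at h
      have h5 := hi _ (congrArg Subtype.val h)
      exact sub_eq_zero.1 (Subtype.ext h5)
    obtain ⟨w', hw'⟩ := ih a' u h4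
    exact ⟨w', by rw [h1, hw', smul_smul, ← pow_succ']⟩

/-- The form `N ∩ W` of `W`, for a lattice `W ⊆ L` with `s ^ b L ⊆ W`. `n''` consists of elements
`w_i ∈ spn n` which generate `W` modulo `s ^ b L` (`exists_level_zero` repeatedly:
`hat E(0) = E(0) + s ^ b hat E(0)`) and of the `s ^ b n_j`. It generates `spn n ∩ W` (`sat`). Relations:
if `∑ f_i w_i + ∑ g_j s ^ b n_j = 0`, write `f = f0 + s ^ b f1`, `∑ f0_i w_i` is in `s ^ b L ∩ spn n =
s ^ b spn n`, so subtracting a relation over `E(0)` we may assume `f = s ^ b f1 = f' s ^ b`; subtract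
`∑ f'_i (s ^ b e_i - ω'_i)` with `s ^ b w_i = ∑ ω'_ij s ^ b n_j`; there remains a relation
`∑ g_j s ^ b n_j = 0`, `g_j s ^ b = s ^ b g'_j`, `∑ g'_j n_j = 0`, `GenRel n`. -/
lemma exists_sub (L W : Submodule (Formal d).ring M) (hfin : Module.Finite (Formal d).ring W)
    (hi : ∀ u : M, (Formal d).s • u = 0 → u = 0) (hWL : W ≤ L) (b : ℕ)
    (hb : ∀ u ∈ L, (Formal d).s ^ b • u ∈ W) {m : ℕ} (n : Fin m → L) (hn : GenRel d L n) :
    ∃ (q : ℕ) (n'' : Fin q → W), GenRel d W n'' ∧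
      ∀ i, ∃ a : Fin m → (Micro d).ring, (n'' i : M) = ∑ j, iot d (a j) • (n j : M) := by
  have hcoe : ∀ g : Fin m → (Formal d).ring, ((∑ j, g j • n j : L) : M) = ∑ j, g j • (n j : M) :=
    fun g => by
      rw [Submodule.coe_sum]
      rfl
  have hcoeW : ∀ {q : ℕ} (g : Fin q → (Formal d).ring) (v : Fin q → W),
      ((∑ j, g j • v j : W) : M) = ∑ j, g j • (v j : M) := fun g v => by
    rw [Submodule.coe_sum]
    rfl
  obtain ⟨p, y, hy⟩ := Module.Finite.exists_fin (R := (Formal d).ring) (M := W)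
  have hy' : ∀ u ∈ W, ∃ c : Fin p → (Formal d).ring, u = ∑ k, c k • (y k : M) := by
    intro u hu
    have h1 : (⟨u, hu⟩ : W) ∈ Submodule.span (Formal d).ring (Set.range y) := by
      rw [hy]
      exact Submodule.mem_top
    obtain ⟨c, hc⟩ := (Submodule.mem_span_range_iff_exists_fun (Formal d).ring).1 h1
    refine ⟨c, ?_⟩
    rw [← hcoeW]
    exact (congrArg Subtype.val hc).symm
  have hs : iot d (Micro d).s = (Formal d).s := rfl
  obtain ⟨w, a, hwW, hwa, hgen, hrel⟩ := e1b_abs (iot d) ((Formal d).s ^ b) ((Micro d).s ^ b)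
    (by rw [map_pow, hs]) (e1b_lev b) (e1b_s_mul (Formal d) b) (e1b_mul_s (Formal d) b)
    (e1b_s_mul (Micro d) b) (fun Q h => e1b_can b h) (fun u h => e1b_inj hi b h) L W hWL hb
    (fun j => (n j : M)) (fun j => (n j).2)
    (fun u hu => by
      obtain ⟨f, hf⟩ := hn.gen ⟨u, hu⟩
      refine ⟨f, ?_⟩
      rw [← hcoe]
      exact congrArg Subtype.val hf)
    (fun f hf => by
      obtain ⟨q, c, b', h1, h2⟩ := hn.rel f (Subtype.ext (by rw [hcoe]; exact hf))
      refine ⟨q, c, b', fun l => ?_, h2⟩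
      rw [← hcoe, h1 l]
      rfl)
    (fun a' u hu h => by
      obtain ⟨w, hw⟩ := e1b_sat L hi n hn b a' ⟨u, hu⟩ (Subtype.ext (by rw [hcoe]; exact h))
      refine ⟨w, ?_⟩
      rw [← hcoe, hw, ← hcoe]
      rfl)
    (fun k => (y k : M)) (fun k => (y k).2) hy'
  have hsn : ∀ j, (Formal d).s ^ b • (n j : M) ∈ W := fun j => hb _ (n j).2
  refine ⟨p + m, Fin.append (fun k => (⟨w k, hwW k⟩ : W)) (fun j => ⟨_, hsn j⟩), ⟨?_, ?_⟩, ?_⟩
  · intro u
    obtain ⟨f, g, hfg⟩ := hgen u.1 u.2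
    refine ⟨Fin.append f g, Subtype.ext ?_⟩
    rw [hcoeW, Fin.sum_univ_add, hfg]
    simp only [Fin.append_left, Fin.append_right]
  · intro f hf
    have h1 := congrArg Subtype.val hf
    rw [hcoeW, Fin.sum_univ_add] at h1
    simp only [Fin.append_left, Fin.append_right] at h1
    obtain ⟨q, c, b1, b2, h2, h3, h4⟩ := hrel _ _ h1
    refine ⟨q, c, fun l => Fin.append (b1 l) (b2 l), fun l => Subtype.ext ?_, fun i => ?_⟩
    · rw [hcoeW, Fin.sum_univ_add]
      simp only [Fin.append_left, Fin.append_right]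
      exact h2 l
    · refine Fin.addCases (fun k => ?_) (fun j => ?_) i
      · simp only [Fin.append_left]
        exact h3 k
      · simp only [Fin.append_right]
        exact h4 j
  · intro i
    refine Fin.addCases (fun k => ?_) (fun j => ?_) i
    · refine ⟨a k, ?_⟩
      rw [Fin.append_left]
      exact hwa k
    · classical
      refine ⟨Pi.single j ((Micro d).s ^ b), ?_⟩
      rw [Fin.append_right, Finset.sum_eq_single j]
      · rw [Pi.single_eq_same, map_pow, hs]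
      · intro k _ hk
        rw [Pi.single_eq_of_ne hk, map_zero, zero_smul]
      · intro h
        exact absurd (Finset.mem_univ _) h

private lemma e1c_pow (k : ℕ) (Q : (Formal d).ring) :
    ∃ Q' : (Formal d).ring, (Formal d).s ^ k * Q = Q' * (Formal d).s ^ k := by
  induction k with
  | zero => exact ⟨Q, by rw [pow_zero, one_mul, mul_one]⟩
  | succ k ih =>
    obtain ⟨Q1, h1⟩ := ih
    obtain ⟨Q2, h2⟩ := (Formal d).s_mul Q1
    exact ⟨Q2, by rw [pow_succ', mul_assoc, h1, ← mul_assoc, h2, mul_assoc]⟩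

/-- a uniform exponent -/
private lemma e1c_exp (L L' : Submodule (Formal d).ring M)
    (h1 : ∀ u ∈ L', ∃ k : ℕ, (Formal d).s ^ k • u ∈ L) {m : ℕ} {n : Fin m → L'}
    (hn : GenRel d L' n) : ∃ a : ℕ, ∀ u ∈ L', (Formal d).s ^ a • u ∈ L := by
  choose k hk using fun i => h1 (n i) (n i).2
  refine ⟨∑ i, k i, fun u hu => ?_⟩
  obtain ⟨f, hf⟩ := hn.gen ⟨u, hu⟩
  have h2 : u = ∑ i, f i • (n i : M) := by
    have h3 := congrArg (Subtype.val : L' → M) hf
    rw [AddSubmonoidClass.coe_finsetSum] at h3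
    exact h3
  rw [h2, Finset.smul_sum]
  refine L.sum_mem fun i _ => ?_
  obtain ⟨Q, hQ⟩ := e1c_pow (d := d) (∑ i, k i) (f i)
  rw [← mul_smul, hQ, mul_smul]
  refine L.smul_mem _ ?_
  have h4 : ∑ i, k i = (∑ i, k i - k i) + k i := by
    rw [Nat.sub_add_cancel (Finset.single_le_sum (f := k) (fun _ _ => Nat.zero_le _)
      (Finset.mem_univ i))]
  rw [h4, pow_add, mul_smul]
  exact L.smul_mem _ (hk i)

/-- Uniqueness for two lattices: `s ^ a L' ⊆ L` for some `a`, `s ^ b L ⊆ s ^ a L'`; apply `exists_sub` to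
`W = s ^ a L'`, `hol_pow` and `spn_unique` in `W`. -/
theorem unique2 (hi : ∀ u : M, (Formal d).s • u = 0 → u = 0)
    (L L' : Submodule (Formal d).ring M)
    (hL : (Formal d).HolLattice L) (hL' : (Formal d).HolLattice L')
    (h1 : ∀ u ∈ L', ∃ k : ℕ, (Formal d).s ^ k • u ∈ L)
    (h2 : ∀ u ∈ L, ∃ k : ℕ, (Formal d).s ^ k • u ∈ L') {m m' : ℕ} {n : Fin m → L} {n' : Fin m' → L'}
    (hn : GenRel d L n) (hn' : GenRel d L' n') (i : Fin m') :
    ∃ (k : ℕ) (a : Fin m → (Micro d).ring),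
      (Formal d).s ^ k • (n' i : M) = ∑ j, iot d (a j) • (n j : M) := by
  obtain ⟨a, ha⟩ := e1c_exp L L' h1 hn'
  obtain ⟨b0, hb0⟩ := e1c_exp L' L h2 hn
  obtain ⟨W, w, hW, hWl, hw, hWg⟩ := hol_pow L' hL' hi a n' hn'
  have hWL : W ≤ L := by
    intro u hu
    obtain ⟨v, hv, rfl⟩ := (hW u).1 hu
    exact ha v hv
  have hb : ∀ u ∈ L, (Formal d).s ^ (a + b0) • u ∈ W := by
    intro u hu
    refine (hW _).2 ⟨(Formal d).s ^ b0 • u, hb0 u hu, ?_⟩
    rw [pow_add, mul_smul]
  obtain ⟨q, n'', hg'', hn''⟩ := exists_sub L W hWl.fin hi hWL (a + b0) hb n hn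
  have h3 : (Res.of (w i) : Res W) ∈ spn (d := d) n'' := by
    rw [spn_unique hWl hg'' hWg]
    exact Submodule.subset_span ⟨i, rfl⟩
  obtain ⟨c, hc⟩ := (Submodule.mem_span_range_iff_exists_fun (Micro d).ring).1 h3
  have h4 : w i = ∑ k, iot d (c k) • n'' k := hc.symm
  choose p hp using hn''
  refine ⟨a, fun j => ∑ k, c k * p k j, ?_⟩
  rw [← hw i]
  have h5 := congrArg (Subtype.val : W → M) h4
  rw [AddSubmonoidClass.coe_finsetSum] at h5
  rw [show (w i : M) = Subtype.val (w i) from rfl, h5]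
  have h6 : ∀ k, ((iot d (c k) • n'' k : W) : M) = ∑ j, iot d (c k * p k j) • (n j : M) := by
    intro k
    rw [Submodule.coe_smul, hp k, Finset.smul_sum]
    exact Finset.sum_congr rfl fun j _ => by rw [← mul_smul, map_mul]
  rw [Finset.sum_congr rfl fun k _ => h6 k, Finset.sum_comm]
  refine Finset.sum_congr rfl fun j _ => ?_
  rw [map_sum, Finset.sum_smul]

end e1

section

variable {A : Type} [Ring A] {f : FR A} {E : Subring A} {σ τ : A}

/-! ## row e2: elements -/

theorem Std.exists_ord (h : Std d f E) : ∃ σ τ : A, Ord f E σ τ := by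
  obtain ⟨σ0, τ0, e, hσ, h1, h2, h3, h4, h5, h6, h7, h8⟩ := h
  exact ⟨σ0, τ0, ⟨h1, h2, h3, h4, h5, h6⟩⟩

private lemma e2a_hat_ne (d : ℕ) : (1 : hatE d) ≠ 0 := by
  intro h
  have h1 : (1 : Op d) = 0 := congrArg Subtype.val h
  have h2 : (1 : Pool.Agent.Ep.Sym d) = 0 := congrArg Op.sym h1
  exact one_ne_zero h2

theorem Std.one_ne (h : Std d f E) : (1 : A) ≠ 0 := by
  obtain ⟨σ0, τ0, e, hσ, h1, h2, h3, h4, h5, h6, h7, h8⟩ := h
  intro h9
  have h10 : (1 : f.F0) = 0 := Subtype.ext h9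
  have h11 : (1 : hatE d) = 0 := by rw [← map_one e, h10, map_zero]
  exact e2a_hat_ne d h11

private lemma e2a_comm_hat {S : hatE d} (hS : (S : Op d) = op vs) (Q Q' : hatE d) :
    ∃ b : hatE d, Q * Q' - Q' * Q = S * b := by
  have h : S = (Formal d).s := Subtype.ext hS
  subst h
  exact (Formal d).exists_comm Q Q'

private lemma e2a_level_hat {S : hatE d} (hS : (S : Op d) = op vs) (Q : hatE d) :
    ∃ Q0 Q1 : hatE d, ((Q0 : hatE d) : Op d) ∈ micE d ∧ Q = Q0 + S * Q1 := by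
  have h : S = (Formal d).s := Subtype.ext hS
  subst h
  obtain ⟨Q0, Q1, h1⟩ := Pool.Agent.Ep.exists_level_zero Q
  exact ⟨iot d Q0, Q1, Q0.2, h1⟩

/-- commutators of operators of order `≤ 0` have order `≤ -1` (`OpRing.exists_comm`) -/
theorem Std.comm (h : Std d f E) (ho : Ord f E σ τ) {a b : A} (ha : a ∈ f.F0) (hb : b ∈ f.F0) :
    ∃ c ∈ f.F0, a * b - b * a = σ * c := by
  obtain ⟨σ0, τ0, e, hσ, h1, h2, h3, h4, h5, h6, h7, h8⟩ := h
  have ho0 : Ord f E σ0 τ0 := ⟨h1, h2, h3, h4, h5, h6⟩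
  obtain ⟨c, hc⟩ := e2a_comm_hat h7 (e ⟨a, ha⟩) (e ⟨b, hb⟩)
  have h9 : (⟨a, ha⟩ * ⟨b, hb⟩ - ⟨b, hb⟩ * ⟨a, ha⟩ : f.F0) = ⟨σ0, hσ⟩ * e.symm c := by
    apply e.injective
    rw [map_sub, map_mul, map_mul, map_mul, RingEquiv.apply_symm_apply, hc]
  have h10 : a * b - b * a = σ0 * (e.symm c : f.F0) := congrArg Subtype.val h9
  rw [h10]
  exact ho.mem_F1.1 (ho0.mem_F1.2 ⟨_, (e.symm c).2, rfl⟩)

/-- `exists_level_zero` -/
theorem Std.level (h : Std d f E) (ho : Ord f E σ τ) {a : A} (ha : a ∈ f.F0) :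
    ∃ a0 ∈ E ⊓ f.F0, ∃ a1 ∈ f.F0, a = a0 + σ * a1 := by
  obtain ⟨σ0, τ0, e, hσ, h1, h2, h3, h4, h5, h6, h7, h8⟩ := h
  have ho0 : Ord f E σ0 τ0 := ⟨h1, h2, h3, h4, h5, h6⟩
  obtain ⟨Q0, Q1, hQ0, hQ⟩ := e2a_level_hat h7 (e ⟨a, ha⟩)
  have h9 : (⟨a, ha⟩ : f.F0) = e.symm Q0 + ⟨σ0, hσ⟩ * e.symm Q1 := by
    apply e.injective
    rw [map_add, map_mul, RingEquiv.apply_symm_apply, RingEquiv.apply_symm_apply, hQ]
  have h10 : a = (e.symm Q0 : f.F0) + σ0 * (e.symm Q1 : f.F0) := congrArg Subtype.val h9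
  have h11 : ((e.symm Q0 : f.F0) : A) ∈ E := by
    rw [h8, RingEquiv.apply_symm_apply]
    exact hQ0
  obtain ⟨a1, ha1, h12⟩ := ho.mem_F1.1 (ho0.mem_F1.2 ⟨_, (e.symm Q1).2, rfl⟩)
  refine ⟨(e.symm Q0 : f.F0), ⟨h11, (e.symm Q0).2⟩, a1, ha1, ?_⟩
  rw [← h12]
  exact h10

open Pool.Agent.Ep in
private lemma e2b_left (Q : (Formal d).ring) :
    ∃ b : (Formal d).ring, b * (1 + (Formal d).s * Q) = 1 := by
  let I : Submodule (Formal d).ring (Formal d).ring :=
    Submodule.span (Formal d).ring {1 + (Formal d).s * Q}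
  have hs : ∀ u : ((Formal d).ring ⧸ I), ∃ w : ((Formal d).ring ⧸ I), u = (Formal d).s • w := by
    intro u
    obtain ⟨a, rfl⟩ := I.mkQ_surjective u
    obtain ⟨a', ha'⟩ := (Formal d).mul_s a
    refine ⟨I.mkQ (-(a' * Q)), ?_⟩
    rw [← map_smul, ← sub_eq_zero, ← map_sub, Submodule.mkQ_apply, Submodule.Quotient.mk_eq_zero]
    refine Submodule.mem_span_singleton.2 ⟨a, ?_⟩
    rw [smul_eq_mul, smul_eq_mul, mul_add, mul_one, ← mul_assoc, ha', mul_neg, sub_neg_eq_add,
      mul_assoc]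
  have hfin : Module.Finite (Formal d).ring ((Formal d).ring ⧸ I) := inferInstance
  have hg : (Formal d).Generic ((Formal d).ring ⧸ I) := by
    refine ⟨0, Fin.elim0, fun u => ?_⟩
    obtain ⟨w, hw⟩ := hs u
    refine ⟨Fin.elim0, fun _ => 0, w, ?_⟩
    rw [Finset.univ_eq_empty, Finset.sum_empty, zero_add]
    simp only [smul_zero, Finset.sum_const_zero, zero_add]
    exact hw
  obtain ⟨r, hr⟩ := exists_fe (L := ((Formal d).ring ⧸ I)) hfin hg (m := 0) Fin.elim0
    (by
      intro u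
      obtain ⟨w, hw⟩ := hs u
      refine ⟨Fin.elim0, fun _ => 0, w, ?_⟩
      rw [Finset.univ_eq_empty, Finset.sum_empty, sub_zero]
      simp only [smul_zero, Finset.sum_const_zero, zero_add]
      exact hw)
    (fun c _ => funext fun i => i.elim0) (I.mkQ 1)
  rw [Finset.univ_eq_empty, Finset.sum_empty, Submodule.mkQ_apply,
    Submodule.Quotient.mk_eq_zero] at hr
  obtain ⟨b, hb⟩ := Submodule.mem_span_singleton.1 hr
  exact ⟨b, hb⟩

open Pool.Agent.Ep in
private lemma e2b_unit (Q : (Formal d).ring) :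
    ∃ b : (Formal d).ring, (1 + (Formal d).s * Q) * b = 1 ∧ b * (1 + (Formal d).s * Q) = 1 := by
  obtain ⟨b, hb⟩ := e2b_left Q
  obtain ⟨b', hb'⟩ := (Formal d).mul_s b
  obtain ⟨c, hc⟩ := e2b_left (-(b' * Q))
  have h1 : 1 + (Formal d).s * (-(b' * Q)) = b := by
    have h2 : b * (1 + (Formal d).s * Q) = b + (Formal d).s * (b' * Q) := by
      rw [mul_add, mul_one, ← mul_assoc, hb', mul_assoc]
    rw [hb] at h2
    rw [mul_neg, h2]
    abel
  rw [h1] at hc
  have h3 : c = 1 + (Formal d).s * Q := by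
    calc c = c * (b * (1 + (Formal d).s * Q)) := by rw [hb, mul_one]
      _ = c * b * (1 + (Formal d).s * Q) := (mul_assoc _ _ _).symm
      _ = 1 + (Formal d).s * Q := by rw [hc, one_mul]
  exact ⟨b, by rw [← h3]; exact hc, hb⟩

private lemma e2b_hat {S : hatE d} (hS : (S : Op d) = op vs) (Q : hatE d) :
    ∃ b : hatE d, (1 + S * Q) * b = 1 ∧ b * (1 + S * Q) = 1 := by
  have h : S = (Formal d).s := Subtype.ext hS
  subst h
  exact e2b_unit Q

/-- `1 + s Q` is invertible in `hat E(0)`. Possible proof: the module `hat E(0) / hat E(0) (1 + s Q)` is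
finitely generated and equal to `s` times itself; by `exists_fe` (Ep/Mod.lean) with `m = 0` (an empty
basis modulo `Z`) it is `0`, so `b (1 + s Q) = 1` for some `b`; `b = 1 - b s Q = 1 + s Q'` has a left inverse
too. Or the Neumann series with the norms `nrm_wk_comp` of Ep/Div.lean and `isFormal_of_wk`. -/
theorem Std.unit (h : Std d f E) (ho : Ord f E σ τ) {a : A} (ha : a ∈ f.F0) :
    ∃ b ∈ f.F0, (1 + σ * a) * b = 1 ∧ b * (1 + σ * a) = 1 := by
  obtain ⟨σ0, τ0, e, hσ, h1, h2, h3, h4, h5, h6, h7, h8⟩ := h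
  have ho0 : Ord f E σ0 τ0 := ⟨h1, h2, h3, h4, h5, h6⟩
  have h9 : σ * a ∈ f.F (-1) := ho.mem_F1.2 ⟨a, ha, rfl⟩
  obtain ⟨a', ha', h10⟩ := ho0.mem_F1.1 h9
  rw [h10]
  obtain ⟨b, hb1, hb2⟩ := e2b_hat h7 (e ⟨a', ha'⟩)
  have h11 : e (1 + ⟨σ0, hσ⟩ * ⟨a', ha'⟩) = 1 + e ⟨σ0, hσ⟩ * e ⟨a', ha'⟩ := by
    rw [map_add, map_one, map_mul]
  have h12 : (1 + ⟨σ0, hσ⟩ * ⟨a', ha'⟩ : f.F0) * e.symm b = 1 := by
    apply e.injective
    rw [map_mul, h11, RingEquiv.apply_symm_apply, map_one, hb1]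
  have h13 : e.symm b * (1 + ⟨σ0, hσ⟩ * ⟨a', ha'⟩ : f.F0) = 1 := by
    apply e.injective
    rw [map_mul, h11, RingEquiv.apply_symm_apply, map_one, hb2]
  refine ⟨(e.symm b : f.F0), (e.symm b).2, ?_, ?_⟩
  · exact congrArg Subtype.val h12
  · exact congrArg Subtype.val h13

private lemma e2c_key {p : (Micro d).ring} {q : (Formal d).ring} (h1 : iot d p * q = 1)
    (h2 : q * iot d p = 1) : ∃ c : (Micro d).ring, q = iot d c := by
  have h3 : ∀ u : (Micro d).ring ⧸ Submodule.span (Micro d).ring {p},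
      ∃ v : (Micro d).ring ⧸ Submodule.span (Micro d).ring {p}, u = (Micro d).s • v := by
    intro u
    obtain ⟨a, rfl⟩ := Submodule.Quotient.mk_surjective _ u
    obtain ⟨Q0, Q1, hQ⟩ := Pool.Agent.Ep.exists_level_zero (iot d a * q)
    have h4 : iot d (a - Q0 * p) = (Formal d).s * (Q1 * iot d p) := by
      have h5 : iot d a = iot d a * q * iot d p := by rw [mul_assoc, h2, mul_one]
      rw [map_sub, map_mul, h5, hQ, add_mul, add_sub_cancel_left, mul_assoc]
    obtain ⟨b, hb⟩ := Pool.Agent.Ep.exists_div_s h4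
    refine ⟨Submodule.Quotient.mk b, ?_⟩
    rw [← Submodule.Quotient.mk_smul, Submodule.Quotient.eq, smul_eq_mul, ← hb, sub_sub_cancel]
    exact Submodule.smul_mem _ Q0 (Submodule.subset_span rfl)
  have h4 := Pool.Agent.Ep.eq_bot_of_s
    (Q := (Micro d).ring ⧸ Submodule.span (Micro d).ring {p}) inferInstance
    ⟨0, Fin.elim0, fun u => by
      obtain ⟨v, hv⟩ := h3 u
      exact ⟨Fin.elim0, 0, v, by simpa using hv⟩⟩ ⊤ fun u _ => by
      obtain ⟨v, hv⟩ := h3 u
      exact ⟨v, Submodule.mem_top, hv⟩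
  have h5 : (Submodule.Quotient.mk 1 : (Micro d).ring ⧸ Submodule.span (Micro d).ring {p}) ∈
      (⊤ : Submodule (Micro d).ring _) := Submodule.mem_top
  rw [h4, Submodule.mem_bot, Submodule.Quotient.mk_eq_zero, Submodule.mem_span_singleton] at h5
  obtain ⟨c, hc⟩ := h5
  refine ⟨c, ?_⟩
  have h6 : iot d c * iot d p = 1 := by
    rw [← map_mul, ← map_one (iot d)]
    exact congrArg _ hc
  rw [← one_mul q, ← h6, mul_assoc, h1, mul_one]

private lemma e2c_zero (h : Std d f E) {a b : A} (haE : a ∈ E) (ha : a ∈ f.F0) (hb : b ∈ f.F0)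
    (hab : a * b = 1) (hba : b * a = 1) : b ∈ E := by
  obtain ⟨σ0, τ0, e, hσ, -, -, -, -, -, -, -, h8⟩ := h
  have h1 : (⟨a, ha⟩ * ⟨b, hb⟩ : f.F0) = 1 := Subtype.ext hab
  have h2 : (⟨b, hb⟩ * ⟨a, ha⟩ : f.F0) = 1 := Subtype.ext hba
  have h3 : e ⟨a, ha⟩ * e ⟨b, hb⟩ = 1 := by rw [← map_mul, h1, map_one]
  have h4 : e ⟨b, hb⟩ * e ⟨a, ha⟩ = 1 := by rw [← map_mul, h2, map_one]
  obtain ⟨c, hc⟩ := e2c_key (d := d) (p := ⟨(e ⟨a, ha⟩ : hatE d), (h8 _).1 haE⟩)
    (q := e ⟨b, hb⟩) h3 h4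
  exact (h8 ⟨b, hb⟩).2 (by rw [hc]; exact c.2)

/-- an element of order `-m` in `E`, invertible in `E` -/
private lemma e2c_unit (ho : Ord f E σ τ) (m : ℤ) : ∃ u v : A, u ∈ E ∧ v ∈ E ∧ u ∈ f.F (-m) ∧
    v ∈ f.F m ∧ u * v = 1 ∧ v * u = 1 := by
  have hs : ∀ k : ℕ, σ ^ k ∈ f.F (-(k : ℤ)) := by
    intro k
    induction k with
    | zero => simpa using f.one
    | succ k ih =>
      have h := f.mul _ _ _ _ ih ho.s1
      rw [pow_succ]
      have h2 : -(((k + 1 : ℕ) : ℤ)) = -(k : ℤ) + -1 := by push_cast; ring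
      rw [h2]
      exact h
  have ht : ∀ k : ℕ, τ ^ k ∈ f.F (k : ℤ) := by
    intro k
    induction k with
    | zero => simpa using f.one
    | succ k ih =>
      have h := f.mul _ _ _ _ ih ho.t1
      rw [pow_succ]
      have h2 : (((k + 1 : ℕ) : ℤ)) = (k : ℤ) + 1 := by push_cast; ring
      rw [h2]
      exact h
  rcases Int.eq_nat_or_neg m with ⟨k, rfl | rfl⟩
  · exact ⟨σ ^ k, τ ^ k, E.pow_mem ho.sE k, E.pow_mem ho.tE k, hs k, ht k, ho.pow_st k,
      ho.pow_ts k⟩
  · exact ⟨τ ^ k, σ ^ k, E.pow_mem ho.tE k, E.pow_mem ho.sE k, by rw [neg_neg]; exact ht k, hs k,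
      ho.pow_ts k, ho.pow_st k⟩

/-- The inverse of a microdifferential operator is microdifferential. Reduce to order `0` (multiply by
powers of `σ`, `τ`): `P ∈ E(0)` with an inverse in `hat E(0)`; the part of order `0` of `P` is invertible in
`Gr d`; so `Q = E(0) / E(0) P` satisfies `Q = s Q`, and `eq_bot_of_s` (Ep/Ung.lean) or `exists_me` (Ep/Une.lean)
with `m = 0` gives `Q = 0`, so `P` has a left inverse in `E(0)`. -/
theorem Std.inv_mem (h : Std d f E) {m : ℤ} {a b : A} (haE : a ∈ E) (ha : a ∈ f.F m)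
    (hb : b ∈ f.F (-m)) (hab : a * b = 1) (hba : b * a = 1) : b ∈ E := by
  obtain ⟨σ0, τ0, e, hσ, g1, g2, g3, g4, g5, g6, -, -⟩ := id h
  have ho : Ord f E σ0 τ0 := ⟨g1, g2, g3, g4, g5, g6⟩
  obtain ⟨u, v, huE, hvE, hu, hv, huv, hvu⟩ := e2c_unit ho m
  have h1 : u * a ∈ f.F0 := by
    have h2 := f.mul _ _ _ _ hu ha
    rw [neg_add_cancel] at h2
    exact h2
  have h3 : b * v ∈ f.F0 := by
    have h2 := f.mul _ _ _ _ hb hv
    rw [neg_add_cancel] at h2
    exact h2
  have h4 : b * v ∈ E := by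
    refine e2c_zero h (E.mul_mem huE haE) h1 h3 ?_ ?_
    · rw [mul_assoc, ← mul_assoc a, hab, one_mul, huv]
    · rw [mul_assoc, ← mul_assoc v, hvu, one_mul, hba]
  have h5 : b = b * v * u := by rw [mul_assoc, hvu, mul_one]
  rw [h5]
  exact E.mul_mem h4 huE

/-! ## row e3: Nakayama -/

variable {M : Type} [AddCommGroup M] [Module A M]

private lemma e3_gen (h : Std d f E) (ho : Ord f E σ τ) {L : Set M} {k : ℕ} {l : Fin (k + 1) → M}
    (hl : Gen f.F0 L l) (hs : ∀ u ∈ L, ∃ v ∈ L, u = σ • v) :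
    Gen f.F0 L (fun i : Fin k => l i.succ) := by
  obtain ⟨v, hv, h1⟩ := hs (l 0) (hl.mem 0)
  obtain ⟨b, hb, h2⟩ := (hl v).1 hv
  obtain ⟨c, hc, h3, h4⟩ := h.unit ho (f.F0.neg_mem (hb 0))
  have h5 : (1 + σ * -b 0) • l 0 = ∑ i : Fin k, (σ * b i.succ) • l i.succ := by
    rw [h2, Fin.sum_univ_succ, smul_add, Finset.smul_sum] at h1
    rw [mul_neg, ← sub_eq_add_neg, sub_smul, one_smul, mul_smul, sub_eq_iff_eq_add]
    have h10 : ∑ i : Fin k, (σ * b i.succ) • l i.succ = ∑ i : Fin k, σ • b i.succ • l i.succ :=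
      Finset.sum_congr rfl fun i _ => mul_smul _ _ _
    rw [h10]
    exact h1.trans (add_comm _ _)
  have h6 : l 0 = ∑ i : Fin k, (c * (σ * b i.succ)) • l i.succ := by
    calc l 0 = (c * (1 + σ * -b 0)) • l 0 := by rw [h4, one_smul]
      _ = c • ∑ i : Fin k, (σ * b i.succ) • l i.succ := by rw [mul_smul, h5]
      _ = ∑ i : Fin k, (c * (σ * b i.succ)) • l i.succ := by
          rw [Finset.smul_sum]
          exact Finset.sum_congr rfl fun i _ => (mul_smul _ _ _).symm
  intro u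
  constructor
  · intro hu
    obtain ⟨g, hg, h7⟩ := (hl u).1 hu
    refine ⟨fun i => g 0 * (c * (σ * b i.succ)) + g i.succ, fun i => ?_, ?_⟩
    · exact f.F0.add_mem (f.F0.mul_mem (hg 0) (f.F0.mul_mem hc (f.F0.mul_mem ho.s0 (hb _)))) (hg _)
    · rw [h7, Fin.sum_univ_succ]
      simp only [add_smul, Finset.sum_add_distrib]
      congr 1
      calc g 0 • l 0 = g 0 • ∑ i : Fin k, (c * (σ * b i.succ)) • l i.succ :=
            congrArg (fun x => g 0 • x) h6
        _ = ∑ i : Fin k, (g 0 * (c * (σ * b i.succ))) • l i.succ := by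
            rw [Finset.smul_sum]
            exact Finset.sum_congr rfl fun i _ => (mul_smul _ _ _).symm
  · rintro ⟨g, hg, h7⟩
    refine (hl u).2 ⟨Fin.cons 0 g, fun i => ?_, ?_⟩
    · refine Fin.cases ?_ (fun j => ?_) i
      · exact f.F0.zero_mem
      · exact hg j
    · rw [Fin.sum_univ_succ, Fin.cons_zero, zero_smul, zero_add, h7]
      exact Finset.sum_congr rfl fun i _ => by rw [Fin.cons_succ]

/-- `L = σ L` implies `L = 0` for a finitely generated module over the elements of order `≤ 0` (the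
elements `1 + σ a` are invertible) -/
theorem nak (h : Std d f E) (ho : Ord f E σ τ) {L : Set M} {k : ℕ} {l : Fin k → M}
    (hl : Gen f.F0 L l) (hs : ∀ u ∈ L, ∃ v ∈ L, u = σ • v) (u : M) (hu : u ∈ L) : u = 0 := by
  induction k with
  | zero =>
    obtain ⟨b, hb, h1⟩ := (hl u).1 hu
    rw [h1, Finset.univ_eq_empty, Finset.sum_empty]
  | succ k ih => exact ih (e3_gen h ho hl hs)

/-! ## row e4: lattices -/

/-- a regular holonomic lattice in a module over a standard stalk -/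
structure Lat (d : ℕ) {A M : Type} [Ring A] [AddCommGroup M] [Module A M] (f : FR A) (σ : A)
    (L : Set M) : Prop where
  fg : ∃ (k : ℕ) (l : Fin k → M), Gen f.F0 L l
  span : ∀ u : M, u ∈ Submodule.span A L
  reg : ∀ a ∈ f.F0, (∃ n : ℕ, ∀ u ∈ L, ∃ w ∈ L, a ^ n • u = σ • w) → ∀ u ∈ L, ∃ w ∈ L, a • u = σ • w
  hol : ∀ (O : Type) [CommRing O] (φ : f.F0 →+* O), Function.Surjective φ →
    (∀ a : f.F0, (∀ u ∈ L, ∃ w ∈ L, (a : A) • u = σ • w) → φ a = 0) → ringKrullDim O ≤ d

/-- `M` as a module over `hat E(0)` -/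
noncomputable abbrev tmod (e : f.F0 ≃+* hatE d) (M : Type) [AddCommGroup M] [Module A M] :
    Module (Formal d).ring M :=
  Module.compHom M (f.F0.subtype.comp (e.symm : hatE d →+* f.F0))

private lemma e4_smul {σ' τ' : A} (ho : Ord f E σ τ) (ho' : Ord f E σ' τ') {L : Set M} {k : ℕ}
    {l : Fin k → M} (hl : Gen f.F0 L l) {w : M} (hw : w ∈ L) : ∃ w' ∈ L, σ • w = σ' • w' := by
  have h : τ' * σ ∈ f.F (1 + -1) := f.mul 1 (-1) _ _ ho'.t1 ho.s1
  rw [show (1 : ℤ) + -1 = 0 from rfl] at h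
  exact ⟨(τ' * σ) • w, hl.smul h hw, by rw [← mul_smul, ← mul_assoc, ho'.st, one_mul]⟩

open Pool.Agent.Ep in
/-- the symbol of order `0` -/
private noncomputable def e4_sym (e : f.F0 ≃+* (Formal d).ring) : f.F0 →+* Gr d where
  toFun a := ⟨sfr (e a).1.sym, sfr_formal (e a).2⟩
  map_one' := by
    rw [map_one]
    exact Subtype.ext sfr_one
  map_mul' a b := by
    rw [map_mul]
    exact Subtype.ext (sfr_comp _ _)
  map_zero' := by
    rw [map_zero]
    refine Subtype.ext (MvPowerSeries.ext fun m => ?_)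
    show (if m none = 0 then MvPowerSeries.coeff m (0 : Sym d) else 0)
      = MvPowerSeries.coeff m (0 : Sym d)
    rw [map_zero, ite_self]
  map_add' a b := by
    rw [map_add]
    exact Subtype.ext (sfr_add _ _)

open Pool.Agent.Ep in
/-- A lattice is a `HolLattice` for the module structure `tmod`. `s` corresponds to
`e.symm s = ε σ` with a unit `ε` of `E ⊓ F0`. For `hol`: `O = Gr d ⧸ annI L`, `φ` = part of order `0`
(`sfr`). -/
theorem Lat.holLattice (ho : Ord f E σ τ) {L : Set M} (hL : Lat d f σ L)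
    (σ' τ' : A) (e : f.F0 ≃+* hatE d) (ho' : Ord f E σ' τ')
    (he : ((e ⟨σ', ho'.s0⟩ : hatE d) : Op d) = op vs) :
    letI : Module (Formal d).ring M := tmod e M
    ∃ L' : Submodule (Formal d).ring M, (∀ u : M, u ∈ L' ↔ u ∈ L) ∧ (Formal d).HolLattice L' := by
  let _ : Module (Formal d).ring M := tmod e M
  let e' : f.F0 ≃+* (Formal d).ring := e
  obtain ⟨k, l, hl⟩ := hL.fg
  have hs : e'.symm (Formal d).s = ⟨σ', ho'.s0⟩ := by
    rw [RingEquiv.symm_apply_eq]
    exact Subtype.ext he.symm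
  have hsm : ∀ (Q : (Formal d).ring) (u : M), Q • u = ((e'.symm Q : f.F0) : A) • u :=
    fun Q u => rfl
  have hss : ∀ u : M, (Formal d).s • u = σ' • u := by
    intro u
    rw [hsm, hs]
  let L' : Submodule (Formal d).ring M :=
    { carrier := L
      add_mem' := fun hu hv => hl.add hu hv
      zero_mem' := hl.zero
      smul_mem' := fun Q u hu => hl.smul (e'.symm Q).2 hu }
  have hk : ∀ Q : (Formal d).ring, (Formal d).Kills L' Q ↔
      ∀ u ∈ L, ∃ w ∈ L, ((e'.symm Q : f.F0) : A) • u = σ • w := by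
    intro Q
    constructor
    · intro h u hu
      obtain ⟨w, hw⟩ := h ⟨u, hu⟩
      obtain ⟨w', hw', h'⟩ := e4_smul ho' ho hl w.2
      refine ⟨w', hw', ?_⟩
      rw [← h', ← hss, ← hsm]
      exact congrArg Subtype.val hw
    · intro h u
      obtain ⟨w, hw, h1⟩ := h u.1 u.2
      obtain ⟨w', hw', h'⟩ := e4_smul ho ho' hl hw
      refine ⟨⟨w', hw'⟩, Subtype.ext ?_⟩
      show Q • u.1 = (Formal d).s • w'
      rw [hsm, hss, h1, h']
  refine ⟨L', fun u => Iff.rfl, ?_, ?_, ?_, ?_⟩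
  · let g : Fin k → L' := fun i => ⟨l i, hl.mem i⟩
    refine Module.finite_def.2 (Submodule.fg_def.2 ⟨Set.range g, Set.finite_range _, ?_⟩)
    rw [eq_top_iff]
    rintro ⟨u, hu⟩ -
    obtain ⟨b, hb, hub⟩ := (hl u).1 hu
    let b' : Fin k → (Formal d).ring := fun i => e' ⟨b i, hb i⟩
    have h1 : (⟨u, hu⟩ : L') = ∑ i, b' i • g i := by
      refine Subtype.ext ?_
      rw [Submodule.coe_sum]
      refine hub.trans (Finset.sum_congr rfl fun i _ => ?_)
      show b i • l i = ((e'.symm (e' ⟨b i, hb i⟩) : f.F0) : A) • l i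
      rw [e'.symm_apply_apply]
    rw [h1]
    exact Submodule.sum_mem _ fun i _ => Submodule.smul_mem _ _ (Submodule.subset_span ⟨i, rfl⟩)
  · intro u hu
    have h1 : σ' • (u : M) = 0 := by
      rw [← hss]
      exact congrArg Subtype.val hu
    refine Subtype.ext ?_
    show (u : M) = 0
    calc (u : M) = (τ' * σ') • (u : M) := by rw [ho'.ts, one_smul]
      _ = 0 := by rw [mul_smul, h1, smul_zero]
  · refine hL.hol (Gr d ⧸ (Formal d).annI L') ((Ideal.Quotient.mk _).comp (e4_sym e')) ?_ ?_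
    · intro x
      obtain ⟨g, rfl⟩ := Ideal.Quotient.mk_surjective x
      refine ⟨e'.symm ((Formal d).gop g), ?_⟩
      have h1 : e4_sym e' (e'.symm ((Formal d).gop g)) = g := by
        refine Subtype.ext ?_
        show sfr (e' (e'.symm ((Formal d).gop g))).1.sym = (g : Sym d)
        rw [e'.apply_symm_apply]
        exact sfr_gr g
      rw [RingHom.comp_apply, h1]
    · intro a ha
      obtain ⟨g, Q', hg, hQ⟩ := (Formal d).exists_gop le_rfl (e' a)
      have h1 : e4_sym e' a = g := Subtype.ext hg.symm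
      have h2 : (Formal d).Kills L' (e' a) := by
        refine (hk (e' a)).2 ?_
        rw [e'.symm_apply_apply]
        exact ha
      rw [RingHom.comp_apply, h1]
      refine Ideal.Quotient.eq_zero_iff_mem.2 ?_
      rw [OpRing.mem_annI]
      intro u
      obtain ⟨w, hw⟩ := h2 u
      refine ⟨w - Q' • u, ?_⟩
      rw [smul_sub, ← hw, hQ, add_smul, mul_smul, add_sub_cancel_right]
  · intro Q hQ
    obtain ⟨n, hn⟩ := hQ
    refine (hk Q).2 (hL.reg _ (e'.symm Q).2 ⟨n, ?_⟩)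
    have h1 := (hk _).1 hn
    rw [map_pow] at h1
    exact h1

/-! ## row e5: transport of families -/

private noncomputable def e5_E (e : f.F0 ≃+* hatE d) (a : f.F0) : (Formal d).ring := e a

/-- `Gen` and `GR` are `GenRel` for the module structure `tmod` -/
theorem genRel_iff (e : f.F0 ≃+* hatE d)
    (hE : ∀ a : f.F0, (a : A) ∈ E ↔ ((e a : hatE d) : Op d) ∈ micE d) {L : Set M} :
    letI : Module (Formal d).ring M := tmod e M
    ∀ (L' : Submodule (Formal d).ring M) (_ : ∀ u : M, u ∈ L' ↔ u ∈ L) {m : ℕ} (n : Fin m → L'),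
      GenRel d L' n ↔ (Gen f.F0 L (fun i => (n i : M)) ∧ GR f E (fun i => (n i : M))) := by
  let _ : Module (Formal d).ring M := tmod e M
  intro L' hL m n
  have hcoe : ∀ g : Fin m → (Formal d).ring, ((∑ i, g i • n i : L') : M) =
      ∑ i, ((e.symm (g i) : f.F0) : A) • (n i : M) := by
    intro g
    rw [Submodule.coe_sum]
    exact Finset.sum_congr rfl fun i _ => rfl
  have hcoe' : ∀ (a : Fin m → A) (ha : ∀ i, a i ∈ f.F0),
      ((∑ i, e5_E e ⟨a i, ha i⟩ • n i : L') : M) = ∑ i, a i • (n i : M) := by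
    intro a ha
    rw [hcoe]
    refine Finset.sum_congr rfl fun i _ => ?_
    have h := e.symm_apply_apply ⟨a i, ha i⟩
    exact congrArg (fun z : f.F0 => (z : A) • (n i : M)) h
  have hmem : ∀ b : (Micro d).ring, ((e.symm (iot d b) : f.F0) : A) ∈ E ⊓ f.F0 := by
    intro b
    refine ⟨(hE _).2 ?_, (e.symm (iot d b)).2⟩
    rw [RingEquiv.apply_symm_apply]
    exact b.2
  constructor
  · intro h
    refine ⟨fun u => ⟨fun hu => ?_, ?_⟩, ?_⟩
    · obtain ⟨g, hg⟩ := h.gen ⟨u, (hL u).2 hu⟩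
      refine ⟨fun i => ((e.symm (g i) : f.F0) : A), fun i => (e.symm (g i)).2, ?_⟩
      rw [← hcoe g, ← hg]
    · rintro ⟨b, hb, rfl⟩
      rw [← hL, ← hcoe' b hb]
      exact Subtype.property _
    · intro a ha h0
      obtain ⟨q, c, b, hb, hc⟩ := h.rel (fun i => e5_E e ⟨a i, ha i⟩)
        (Subtype.ext ((hcoe' a ha).trans h0))
      refine ⟨q, fun l => ((e.symm (c l) : f.F0) : A), fun l i => ((e.symm (iot d (b l i)) : f.F0) : A),
        fun l => (e.symm (c l)).2, fun l i => hmem _, fun l => ?_, fun i => ?_⟩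
      · have h1 := congrArg (fun z : L' => (z : M)) (hb l)
        exact (hcoe _).symm.trans h1
      · have h1 := congrArg (fun z : (Formal d).ring => ((e.symm z : f.F0) : A)) (hc i)
        have h2 : ((e.symm (e ⟨a i, ha i⟩) : f.F0) : A) = a i := by
          rw [RingEquiv.symm_apply_apply]
        refine h2.symm.trans (h1.trans ?_)
        have h3 : (e.symm (∑ l, c l * iot d (b l i)) : f.F0) =
            ∑ l, (e.symm (c l) : f.F0) * (e.symm (iot d (b l i)) : f.F0) := by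
          rw [map_sum]
          exact Finset.sum_congr rfl fun l _ => map_mul _ _ _
        refine (congrArg (fun z : f.F0 => (z : A)) h3).trans ?_
        exact map_sum f.F0.subtype _ _
  · rintro ⟨h1, h2⟩
    refine ⟨fun u => ?_, fun g hg => ?_⟩
    · obtain ⟨b, hb, hu⟩ := (h1 (u : M)).1 ((hL _).1 u.2)
      refine ⟨fun i => e5_E e ⟨b i, hb i⟩, Subtype.ext ?_⟩
      rw [hu]
      exact (hcoe' b hb).symm
    · have h0 := congrArg (fun z : L' => (z : M)) hg
      obtain ⟨q, c, b, hc, hbm, hb, ha⟩ := h2 (fun i => ((e.symm (g i) : f.F0) : A))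
        (fun i => (e.symm (g i)).2) ((hcoe g).symm.trans h0)
      have hbE : ∀ l i, ((e ⟨b l i, (hbm l i).2⟩ : hatE d) : Op d) ∈ micE d := fun l i =>
        (hE ⟨b l i, (hbm l i).2⟩).1 (hbm l i).1
      refine ⟨q, fun l => e5_E e ⟨c l, hc l⟩, fun l i => ⟨_, hbE l i⟩, fun l => ?_, fun i => ?_⟩
      · refine Subtype.ext ?_
        refine Eq.trans ?_ (hb l)
        exact hcoe' (fun i => b l i) (fun i => (hbm l i).2)
      · have h3 : (e.symm (g i) : f.F0) = ∑ l, (⟨c l, hc l⟩ : f.F0) * ⟨b l i, (hbm l i).2⟩ := by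
          apply Subtype.ext
          refine (ha i).trans ?_
          exact (map_sum f.F0.subtype (fun l => (⟨c l, hc l⟩ : f.F0) * ⟨b l i, (hbm l i).2⟩) _).symm
        have h4 := congrArg (fun z : f.F0 => e z) h3
        refine Eq.trans (e.apply_symm_apply (g i)).symm (h4.trans ?_)
        rw [map_sum]
        exact Finset.sum_congr rfl fun l _ => map_mul _ _ _

/-! ## row e6: the theorems -/

/-- existence: `exists_genRel` -/
theorem Lat.exists_gr (h : Std d f E) (ho : Ord f E σ τ) {L : Set M} (hL : Lat d f σ L) :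
    ∃ (m : ℕ) (n : Fin m → M), Gen f.F0 L n ∧ GR f E n := by
  obtain ⟨σ', τ', e, hσ, s1, t1, sE, tE, st, ts, he, hE⟩ := h
  have ho' : Ord f E σ' τ' := ⟨s1, t1, sE, tE, st, ts⟩
  letI : Module (Formal d).ring M := tmod e M
  obtain ⟨L', hm, hH⟩ := Lat.holLattice ho hL σ' τ' e ho' he
  obtain ⟨m, n, hn⟩ := Pool.Agent.Ep.exists_genRel hH
  exact ⟨m, fun i => (n i : M), (genRel_iff e hE L' hm n).1 hn⟩

private lemma e6b_pow (h : Ord f E σ τ) {L : Set M} {m : ℕ} {n : Fin m → M} (hn : Gen f.F0 L n)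
    (hs : ∀ u : M, u ∈ Submodule.span A L) (u : M) : ∃ k : ℕ, σ ^ k • u ∈ L := by
  obtain ⟨a, rfl⟩ := hn.span hs u
  obtain ⟨k, hk⟩ := h.exists_pow a
  refine ⟨k, (hn _).2 ⟨fun i => σ ^ k * a i, hk, ?_⟩⟩
  rw [Finset.smul_sum]
  exact Finset.sum_congr rfl fun i _ => by rw [mul_smul]

/-- uniqueness: `unique2` -/
theorem Lat.unique (h : Std d f E) (ho : Ord f E σ τ) {L L' : Set M} (hL : Lat d f σ L)
    (hL' : Lat d f σ L') {m m' : ℕ} {n : Fin m → M} {n' : Fin m' → M} (hn : Gen f.F0 L n)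
    (hg : GR f E n) (hn' : Gen f.F0 L' n') (hg' : GR f E n') (i : Fin m') :
    ∃ a : Fin m → A, (∀ j, a j ∈ E) ∧ n' i = ∑ j, a j • n j := by
  obtain ⟨σ', τ', e, hs, h1, h2, h3, h4, h5, h6, h7, h8⟩ := h
  have ho' : Ord f E σ' τ' := ⟨h1, h2, h3, h4, h5, h6⟩
  let e' : f.F0 ≃+* (Formal d).ring := e
  let _ : Module (Formal d).ring M := tmod e M
  have hsm : ∀ (a : (Formal d).ring) (u : M), a • u = ((e'.symm a : f.F0) : A) • u :=
    fun _ _ => rfl
  have hse : ((e'.symm (Formal d).s : f.F0) : A) = σ' := by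
    have h0 : e' ⟨σ', hs⟩ = (Formal d).s := Subtype.ext h7
    rw [← h0, RingEquiv.symm_apply_apply]
  have hpow : ∀ (k : ℕ) (u : M), (Formal d).s ^ k • u = σ' ^ k • u := by
    intro k
    induction k with
    | zero => intro u; rw [pow_zero, pow_zero, one_smul, one_smul]
    | succ k ih => intro u; rw [pow_succ, mul_smul, ih, hsm, hse, ← mul_smul, ← pow_succ]
  obtain ⟨L1, hL1, hH⟩ := Lat.holLattice ho hL σ' τ' e ho' h7
  obtain ⟨L1', hL1', hH'⟩ := Lat.holLattice ho hL' σ' τ' e ho' h7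
  have hG : GenRel d L1 (fun i => (⟨n i, (hL1 _).2 (hn.mem i)⟩ : L1)) :=
    (genRel_iff e h8 L1 hL1 _).2 ⟨hn, hg⟩
  have hG' : GenRel d L1' (fun i => (⟨n' i, (hL1' _).2 (hn'.mem i)⟩ : L1')) :=
    (genRel_iff e h8 L1' hL1' _).2 ⟨hn', hg'⟩
  have hi : ∀ u : M, (Formal d).s • u = 0 → u = 0 := by
    intro u hu
    rw [hsm, hse] at hu
    exact ho'.smul_inj (hu.trans (smul_zero _).symm)
  have hk1 : ∀ u ∈ L1', ∃ k : ℕ, (Formal d).s ^ k • u ∈ L1 := by
    intro u _
    obtain ⟨k, hk⟩ := e6b_pow ho' hn hL.span u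
    exact ⟨k, (hL1 _).2 (by rw [hpow]; exact hk)⟩
  have hk2 : ∀ u ∈ L1, ∃ k : ℕ, (Formal d).s ^ k • u ∈ L1' := by
    intro u _
    obtain ⟨k, hk⟩ := e6b_pow ho' hn' hL'.span u
    exact ⟨k, (hL1' _).2 (by rw [hpow]; exact hk)⟩
  obtain ⟨k, a, ha⟩ := unique2 hi L1 L1' hH hH' hk1 hk2 hG hG' i
  refine ⟨fun j => τ' ^ k * ((e'.symm (iot d (a j)) : f.F0) : A), fun j => ?_, ?_⟩
  · refine E.mul_mem (E.pow_mem h4 k) ((h8 _).2 ?_)
    have h9 : e' (e'.symm (iot d (a j))) = iot d (a j) := RingEquiv.apply_symm_apply _ _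
    have h10 : ((e' (e'.symm (iot d (a j))) : (Formal d).ring) : Op d) ∈ micE d := by
      rw [h9]
      exact (a j).2
    exact h10
  · rw [hpow] at ha
    have e1 : n' i = τ' ^ k • σ' ^ k • n' i := by rw [smul_smul, ho'.pow_ts, one_smul]
    rw [e1]
    refine (congrArg (fun w => τ' ^ k • w) ha).trans ?_
    rw [Finset.smul_sum]
    exact Finset.sum_congr rfl fun j _ => by rw [hsm, smul_smul]

private lemma e6c_row {L : Set M} {m c : ℕ} {n : Fin m → M} {b : Fin c → Fin m → A}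
    (hp : Pres f.F0 L n b) (j : Fin c) : ∑ i, b j i • n i = 0 := by
  classical
  refine (hp.2.2 (b j) (hp.1 j)).2 ⟨fun l => if l = j then 1 else 0, fun l => ?_, fun i => ?_⟩
  · show (if l = j then (1 : A) else 0) ∈ f.F0
    split_ifs
    · exact f.F0.one_mem
    · exact f.F0.zero_mem
  · simp

private lemma e6c_gr {L : Set M} {m c : ℕ} {n : Fin m → M} {b : Fin c → Fin m → A}
    (hp : Pres f.F0 L n b) (hb : ∀ j i, b j i ∈ E) : GR f E n := by
  intro a ha h0
  obtain ⟨g, hg, h1⟩ := (hp.2.2 a ha).1 h0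
  exact ⟨c, g, b, hg, fun j i => ⟨hb j i, hp.1 j i⟩, fun j => e6c_row hp j, h1⟩

/-- descent of the relations: `rel_descent` -/
theorem Lat.descent (h : Std d f E) (ho : Ord f E σ τ) {L : Set M} (hL : Lat d f σ L)
    {m c : ℕ} {n : Fin m → M} {b : Fin c → Fin m → A} (hp : Pres f.F0 L n b)
    (hb : ∀ j i, b j i ∈ E) {N : Set M} (hN : Gen (E ⊓ f.F0) N n) : Pres (E ⊓ f.F0) N n b := by
  obtain ⟨σ', τ', e, hs, h1, h2, h3, h4, h5, h6, h7, h8⟩ := h
  have ho' : Ord f E σ' τ' := ⟨h1, h2, h3, h4, h5, h6⟩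
  let e' : f.F0 ≃+* (Formal d).ring := e
  let _ : Module (Formal d).ring M := tmod e M
  have hsm : ∀ (a : (Formal d).ring) (u : M), a • u = ((e'.symm a : f.F0) : A) • u :=
    fun _ _ => rfl
  have hn : Gen f.F0 L n := hp.2.1
  obtain ⟨L1, hL1, hH⟩ := Lat.holLattice ho hL σ' τ' e ho' h7
  have hG : GenRel d L1 (fun i => (⟨n i, (hL1 _).2 (hn.mem i)⟩ : L1)) :=
    (genRel_iff e h8 L1 hL1 _).2 ⟨hn, e6c_gr hp hb⟩
  have hrel : ∀ F : Fin m → (Formal d).ring,
      ∑ i, F i • (⟨n i, (hL1 _).2 (hn.mem i)⟩ : L1) = 0 ↔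
        ∑ i, ((e'.symm (F i) : f.F0) : A) • n i = 0 := by
    intro F
    rw [← Submodule.coe_eq_zero, Submodule.coe_sum]
    exact Iff.rfl
  -- the elements of `E ⊓ F0` as microdifferential operators
  have hto : ∀ a : A, a ∈ E ⊓ f.F0 → ∃ a' : (Micro d).ring,
      ((e'.symm (iot d a') : f.F0) : A) = a := by
    intro a ha
    have ha2 : a ∈ f.F0 := ha.2
    have hm : ((e' ⟨a, ha2⟩ : (Formal d).ring) : Op d) ∈ micE d := (h8 ⟨a, ha2⟩).1 ha.1
    refine ⟨⟨_, hm⟩, ?_⟩
    have h9 : iot d ⟨((e' ⟨a, ha2⟩ : (Formal d).ring) : Op d), hm⟩ = e' ⟨a, ha2⟩ := rfl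
    rw [h9, RingEquiv.symm_apply_apply]
  have hfrom : ∀ a' : (Micro d).ring, ((e'.symm (iot d a') : f.F0) : A) ∈ E ⊓ f.F0 := by
    intro a'
    refine ⟨(h8 _).2 ?_, Subtype.property _⟩
    have h9 : e' (e'.symm (iot d a')) = iot d a' := RingEquiv.apply_symm_apply _ _
    have h10 : ((e' (e'.symm (iot d a')) : (Formal d).ring) : Op d) ∈ micE d := by
      rw [h9]
      exact a'.2
    exact h10
  have hbm : ∀ j i, b j i ∈ E ⊓ f.F0 := fun j i => ⟨hb j i, hp.1 j i⟩
  choose b' hb' using fun j i => hto (b j i) (hbm j i)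
  refine ⟨hbm, hN, fun a ha => ⟨fun h0 => ?_, ?_⟩⟩
  · choose a' ha' using fun i => hto (a i) (ha i)
    obtain ⟨g, hg⟩ := Pool.Agent.Ep.rel_descent hH hG b'
      (fun l => by
        rw [hrel]
        simp only [hb']
        exact e6c_row hp l)
      (fun F hF => by
        rw [hrel] at hF
        obtain ⟨g, hg, h9⟩ := (hp.2.2 (fun i => ((e'.symm (F i) : f.F0) : A))
          (fun i => (e'.symm (F i)).2)).1 hF
        refine ⟨fun l => e' ⟨g l, hg l⟩, fun i => ?_⟩
        apply e'.symm.injective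
        apply Subtype.ext
        rw [h9 i, map_sum, AddSubmonoidClass.coe_finsetSum]
        refine Finset.sum_congr rfl fun l _ => ?_
        rw [map_mul, RingEquiv.symm_apply_apply, Subring.coe_mul, hb']) a'
      (by
        rw [hrel]
        simp only [ha']
        exact h0)
    refine ⟨fun l => ((e'.symm (iot d (g l)) : f.F0) : A), fun l => hfrom _, fun i => ?_⟩
    have h9 : iot d (a' i) = ∑ l, iot d (g l) * iot d (b' l i) := by
      rw [hg i, map_sum]
      exact Finset.sum_congr rfl fun l _ => map_mul _ _ _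
    rw [← ha' i, h9, map_sum, AddSubmonoidClass.coe_finsetSum]
    refine Finset.sum_congr rfl fun l _ => ?_
    rw [map_mul, Subring.coe_mul, hb']
  · rintro ⟨g, hg, h9⟩
    exact (hp.2.2 a fun i => (ha i).2).2 ⟨g, fun j => (hg j).2, h9⟩

/-! ## row e7: saturation -/

/-- one step of `sat_E`: `σ w ∈ N`, `w ∈ L` implies `w ∈ N` -/
private lemma e7_step (h : Std d f E) (ho : Ord f E σ τ) {L : Set M} {m : ℕ} {n : Fin m → M}
    (hn : Gen f.F0 L n) (hg : GR f E n) {w : M} (hw : w ∈ L) (b : Fin m → A)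
    (hb : ∀ i, b i ∈ E ⊓ f.F0) (h1 : σ • w = ∑ i, b i • n i) :
    ∃ b : Fin m → A, (∀ i, b i ∈ E ⊓ f.F0) ∧ w = ∑ i, b i • n i := by
  obtain ⟨g, hg0, hgw⟩ := (hn w).1 hw
  have h2 : ∑ i, (b i - σ * g i) • n i = 0 := by
    simp only [sub_smul, mul_smul, Finset.sum_sub_distrib, ← Finset.smul_sum]
    rw [← hgw, h1, sub_self]
  obtain ⟨q, c, r, hc, hr, hrn, hbr⟩ := hg (fun i => b i - σ * g i)
    (fun i => f.F0.sub_mem (Subring.mem_inf.1 (hb i)).2 (f.F0.mul_mem ho.s0 (hg0 i))) h2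
  choose c0 hc0 c1 hc1 hcc using fun j => h.level ho (hc j)
  have h3 : ∀ i, g i + ∑ j, c1 j * r j i = τ * (b i - ∑ j, c0 j * r j i) := by
    intro i
    have h4 : b i - ∑ j, c0 j * r j i = σ * (g i + ∑ j, c1 j * r j i) := by
      have h5 := hbr i
      simp only [hcc, add_mul, Finset.sum_add_distrib, mul_assoc, ← Finset.mul_sum] at h5
      rw [mul_add, sub_eq_iff_eq_add]
      rw [sub_eq_iff_eq_add] at h5
      rw [h5]
      abel
    rw [h4, ← mul_assoc, ho.ts, one_mul]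
  refine ⟨fun i => g i + ∑ j, c1 j * r j i, fun i => ?_, ?_⟩
  · refine Subring.mem_inf.2 ⟨?_, ?_⟩
    · show g i + ∑ j, c1 j * r j i ∈ E
      rw [h3 i]
      exact E.mul_mem ho.tE (E.sub_mem (Subring.mem_inf.1 (hb i)).1
        (E.sum_mem fun j _ => E.mul_mem (Subring.mem_inf.1 (hc0 j)).1
          (Subring.mem_inf.1 (hr j i)).1))
    · exact f.F0.add_mem (hg0 i) (f.F0.sum_mem fun j _ => f.F0.mul_mem (hc1 j)
        (Subring.mem_inf.1 (hr j i)).2)
  · have h6 : ∑ i, (∑ j, c1 j * r j i) • n i = 0 := by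
      simp only [Finset.sum_smul, mul_smul]
      rw [Finset.sum_comm]
      refine Finset.sum_eq_zero fun j _ => ?_
      rw [← Finset.smul_sum, hrn j, smul_zero]
    simp only [add_smul, Finset.sum_add_distrib]
    rw [h6, add_zero]
    exact hgw

/-- `L ∩ ∑ E n_i = ∑ (E ⊓ F0) n_i`: multiply by `σ ^ k`, then `σ w ∈ N`, `w ∈ L` implies `w ∈ N`
(as in `sat`: `w = ∑ g_i n_i`, `g_i ∈ F0`; `a - σ g` is a relation, decompose its coefficients by
`Std.level`). -/
theorem sat_E (h : Std d f E) (ho : Ord f E σ τ) {L : Set M} {m : ℕ} {n : Fin m → M}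
    (hn : Gen f.F0 L n) (hg : GR f E n) {u : M} (hu : u ∈ L) (a : Fin m → A) (ha : ∀ i, a i ∈ E)
    (h1 : u = ∑ i, a i • n i) : ∃ b : Fin m → A, (∀ i, b i ∈ E ⊓ f.F0) ∧ u = ∑ i, b i • n i := by
  obtain ⟨k, hk⟩ := ho.exists_powE a ha
  have key : ∀ k : ℕ, ∀ u ∈ L, (∃ b : Fin m → A, (∀ i, b i ∈ E ⊓ f.F0) ∧
      σ ^ k • u = ∑ i, b i • n i) → ∃ b : Fin m → A, (∀ i, b i ∈ E ⊓ f.F0) ∧
      u = ∑ i, b i • n i := by
    intro k
    induction k with
    | zero =>
      rintro u _ ⟨b, hb, h2⟩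
      exact ⟨b, hb, by rw [← h2, pow_zero, one_smul]⟩
    | succ k ih =>
      rintro u hu ⟨b, hb, h2⟩
      obtain ⟨b', hb', h3⟩ := ih (σ • u) (hn.smul ho.s0 hu)
        ⟨b, hb, by rw [smul_smul, ← pow_succ, h2]⟩
      exact e7_step h ho hn hg hu b' hb' h3
  refine key k u hu ⟨fun i => σ ^ k * a i, hk, ?_⟩
  simp only [mul_smul, ← Finset.smul_sum]
  rw [← h1]

end

end Pool.Agent.Msh
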