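import Pool.Agent.Msh.Cal
import Pool.Agent.Msh.Stk

/-!
# Good families (P11, sheaf level, helper39)
-/

set_option autoImplicit false

namespace Pool.Agent.Msh

open Topology Filter

variable {T : Type} [TopologicalSpace T] {d : ℕ} (P : MSheaf T d) (M : FMod P.hat)

/-! ## row g1: symbols which vanish on the support -/

private lemma g1_pow {A : Type} [Ring A] (f : FR A) {a : A} (ha : a ∈ f.F0) (n : ℕ) :
    a ^ n ∈ f.F0 := f.F0.pow_mem ha n

/-- `a ^ n L ⊆ σ L` -/
private lemma g1_step {A M : Type} [Ring A] [AddCommGroup M] [Module A M] {f : FR A}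
    {E : Subring A} {σ τ : A} (h : Std d f E) (ho : Ord f E σ τ) {k : ℕ} {l : Fin k → M} {L : Set M}
    (hl : Gen f.F0 L l) {a : A} (ha : a ∈ f.F0) (n : ℕ)
    (hn : ∀ i, ∃ w ∈ L, a ^ n • l i = σ • w) (u : M) (hu : u ∈ L) :
    ∃ v ∈ L, a ^ n • u = σ • v := by
  obtain ⟨b, hb, rfl⟩ := (hl u).1 hu
  choose w hw1 hw2 using hn
  choose c hc1 hc2 using fun i => h.comm ho (g1_pow f ha n) (hb i)
  refine ⟨∑ i, ((τ * b i * σ) • w i + c i • l i), ?_, ?_⟩
  · rw [Finset.sum_add_distrib]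
    exact hl.add (hl.sum _ _ _ (fun i => ho.conj (hb i)) hw1)
      (hl.sum _ _ _ hc1 fun i => hl.mem i)
  · rw [Finset.smul_sum, Finset.smul_sum]
    refine Finset.sum_congr rfl fun i _ => ?_
    have h1 : a ^ n * b i = b i * a ^ n + σ * c i := by
      rw [← hc2 i]; abel
    have h2 : b i * σ = σ * (τ * b i * σ) := by
      rw [← mul_assoc, ← mul_assoc, ho.st, one_mul]
    rw [smul_smul, h1, add_smul, mul_smul (b i), hw2 i, smul_smul (b i), h2, smul_add,
      mul_smul σ (τ * b i * σ), mul_smul σ (c i)]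

/-- If `σ ^ … ` : an operator `a` of order `≤ 0` such that `a ^ n L ⊆ σ L` near `q`: at the points `r` of
the support near `q` it is not invertible. Here `L` is generated by the sections `l i` near `q` and
generates `M`. Proof: `a ^ n l_i = σ ∑ c_ij l_j` holds near `q`; `Std.comm` gives `a ^ n L_r ⊆ σ L_r`
(the points `r` near `q` are not in `Z`: `not_Z_spread`); if `a_r` is invertible, `L_r = σ L_r`,
`nak` gives `L_r = 0`, `M_r = 0`. -/
theorem not_inv_near {q : T} (hz : q ∉ P.Z) {σ τ : P.hat.A q}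
    (ho : Ord (P.hat.fil q) (P.E q) σ τ) {k : ℕ} (l : Fin k → M.M q)
    (hgen : ∀ᶠ r in 𝓝 q, ∀ u : M.M r, ∃ a : Fin k → P.hat.A r, u = ∑ i, a i • M.ext q (l i) r)
    {a : P.hat.A q} (ha : a ∈ P.F0 q) (n : ℕ)
    (hn : ∀ i, ∃ c : Fin k → P.hat.A q, (∀ j, c j ∈ P.F0 q) ∧ a ^ n • l i = σ • ∑ j, c j • l j) :
    ∀ᶠ r in 𝓝 q, r ∈ M.supp → ¬ (P.hat.fil r).Inv 0 (P.hat.ext q a r) := by
  choose c hc1 hc2 using hn
  have hcF : ∀ᶠ r in 𝓝 q, ∀ i j, P.hat.ext q (c i j) r ∈ P.F0 r :=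
    Filter.eventually_all.2 fun i => Filter.eventually_all.2 fun j => P.ext_F0 (hc1 i j)
  have hA : ∀ᶠ r in 𝓝 q, ∀ i, P.hat.ext q a r ^ n • M.ext q (l i) r =
      P.hat.ext q σ r • ∑ j, P.hat.ext q (c i j) r • M.ext q (l j) r := by
    refine Filter.eventually_all.2 fun i => ?_
    filter_upwards [M.ext_smul q (a ^ n) (l i), P.hat.ext_pow a n,
      M.ext_smul q σ (∑ j, c i j • l j), M.ext_lin Finset.univ (c i) l] with r h1 h2 h3 h4
    rw [← h2, ← h1, hc2 i, h3, h4]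
  filter_upwards [hgen, hcF, hA, P.ext_F0 ha, P.ord_spread ho, P.not_Z_spread ho]
    with r h1 h2 h3 h4 h5 h6 hr hinv
  obtain ⟨b, hb, hab, hba⟩ := hinv
  have hb0 : b ∈ P.F0 r := by
    have : b ∈ (P.hat.fil r).F (-0) := hb
    rwa [neg_zero] at this
  set L : Set (M.M r) := {u | ∃ b : Fin k → P.hat.A r, (∀ i, b i ∈ P.F0 r) ∧
    u = ∑ i, b i • M.ext q (l i) r} with hL
  have hl : Gen (P.hat.fil r).F0 L (fun i => M.ext q (l i) r) := fun u => Iff.rfl
  have hstep := g1_step (P.std r h6) h5 hl h4 n (fun i => ⟨_, ⟨_, h2 i, rfl⟩, h3 i⟩)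
  have hpow : P.hat.ext q a r ^ n * b ^ n = 1 := by
    have hcomm : Commute (P.hat.ext q a r) b := by
      rw [Commute, SemiconjBy, hab, hba]
    rw [← hcomm.mul_pow, hab, one_pow]
  have hs : ∀ u ∈ L, ∃ v ∈ L, u = P.hat.ext q σ r • v := by
    intro u hu
    obtain ⟨v, hv, hv'⟩ := hstep (b ^ n • u) (hl.smul (g1_pow _ hb0 n) hu)
    refine ⟨v, hv, ?_⟩
    rw [← hv', smul_smul, hpow, one_smul]
  obtain ⟨u, hu⟩ := hr
  apply hu
  obtain ⟨x, hx⟩ := h1 u
  rw [hx]
  refine Finset.sum_eq_zero fun i _ => ?_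
  rw [nak (P.std r h6) h5 hl hs _ (hl.mem i), smul_zero]

/-- `τ a` has an invertible symbol of order `1` iff `a` has an invertible symbol of order `0`, near `q` -/
theorem van_iff {q : T} {σ τ : P.hat.A q} (ho : Ord (P.hat.fil q) (P.E q) σ τ)
    {a : P.hat.A q} (Λ : Set T) : P.hat.Van 1 Λ q (τ * a) ↔ P.hat.Van 0 Λ q a := by
  refine Filter.eventually_congr ?_
  filter_upwards [P.ord_spread ho, P.hat.ext_mul q τ a] with r h1 h2
  rw [h2]
  refine imp_congr_right fun _ => not_congr ⟨?_, ?_⟩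
  · rintro ⟨b, hb, h3, h4⟩
    refine ⟨b * P.hat.ext q τ r, ?_, ?_, ?_⟩
    · have := (P.hat.fil r).mul (-1) 1 _ _ hb h1.t1
      simpa using this
    · have h5 : P.hat.ext q a r * b = P.hat.ext q σ r := by
        calc P.hat.ext q a r * b = (P.hat.ext q σ r * P.hat.ext q τ r) * (P.hat.ext q a r * b) := by
              rw [h1.st, one_mul]
          _ = P.hat.ext q σ r * (P.hat.ext q τ r * P.hat.ext q a r * b) := by
              simp only [mul_assoc]
          _ = P.hat.ext q σ r := by rw [h3, mul_one]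
      rw [← mul_assoc, h5, h1.st]
    · rw [mul_assoc, h4]
  · rintro ⟨b, hb, h3, h4⟩
    refine ⟨b * P.hat.ext q σ r, ?_, ?_, ?_⟩
    · have := (P.hat.fil r).mul (-0) (-1) _ _ hb h1.s1
      simpa using this
    · calc P.hat.ext q τ r * P.hat.ext q a r * (b * P.hat.ext q σ r)
          = P.hat.ext q τ r * (P.hat.ext q a r * b) * P.hat.ext q σ r := by
            simp only [mul_assoc]
        _ = 1 := by rw [h3, mul_one, h1.ts]
    · calc b * P.hat.ext q σ r * (P.hat.ext q τ r * P.hat.ext q a r)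
          = b * (P.hat.ext q σ r * P.hat.ext q τ r) * P.hat.ext q a r := by
            simp only [mul_assoc]
        _ = 1 := by rw [h1.st, mul_one, h4]

/-! ## row g2: the stalks of a lattice -/

/-- At the points outside of `Z` the stalk of a lattice is a lattice: `not_inv_near`, `van_iff`. -/
theorem lat_hat (h : M.RH P.Z d) {V : Set T} {L : ∀ q, Set (M.M q)} (hV : IsOpen V)
    (hL : M.Lattice V L) {q : T} (hq : q ∈ V) (hz : q ∉ P.Z) {σ τ : P.hat.A q}
    (ho : Ord (P.hat.fil q) (P.E q) σ τ) : Lat d (P.hat.fil q) σ (L q) := by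
  obtain ⟨hfp, hspan, hvan⟩ := hL q hq
  obtain ⟨k, c, l, r, hpres, hnear⟩ := FMod.FP.self M hfp
  have hgen : Gen (P.F0 q) (L q) l := hpres.2.1
  -- a symbol which vanishes on the support
  have key : ∀ a ∈ P.F0 q, P.hat.Van 0 M.supp q a → ∀ u ∈ L q, ∃ w ∈ L q, a • u = σ • w := by
    intro a ha hv u hu
    have h1 : P.hat.Van 1 M.supp q (τ * a) := (van_iff P ho M.supp).2 hv
    have h2 : τ * a ∈ (P.hat.fil q).F 1 := by
      have h3 := (P.hat.fil q).mul 1 0 τ a ho.t1 ha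
      rwa [add_zero] at h3
    refine ⟨(τ * a) • u, hvan _ h2 h1 u hu, ?_⟩
    rw [← mul_smul, ← mul_assoc, ho.st, one_mul]
  refine ⟨⟨k, l, hgen⟩, hspan, ?_, ?_⟩
  · rintro a ha ⟨n, hn⟩
    refine key a ha ?_
    have hgen' : ∀ᶠ r in 𝓝 q, ∀ u : M.M r, ∃ b : Fin k → P.hat.A r,
        u = ∑ i, b i • M.ext q (l i) r := by
      filter_upwards [hnear, hV.mem_nhds hq] with r' h1 h2 u
      exact Gen.span (B := P.F0 r') (L := L r') h1.2.1 (hL r' h2).2.1 u
    refine not_inv_near P M hz ho l hgen' ha n ?_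
    intro i
    obtain ⟨w, hw, h1⟩ := hn (l i) (hgen.mem i)
    obtain ⟨c', hc', h2⟩ := (hgen w).1 hw
    exact ⟨c', hc', by rw [h1, h2]⟩
  · intro O _ φ hφ hO
    refine h.hol q hz O φ hφ ?_
    intro a hv
    exact hO a (key a a.2 hv)

/-! ## row g3: good families -/

/-- `n` generates `L` over the operators of order `≤ 0`, with relations generated by the microdifferential
relations `b`; it generates `M`, with relations generated by the microdifferential relations `b'` -/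
structure Good (q : T) (L : Set (M.M q)) {m c c' : ℕ} (n : Fin m → M.M q)
    (b : Fin c → Fin m → P.hat.A q) (b' : Fin c' → Fin m → P.hat.A q) : Prop where
  pres0 : Pres (P.F0 q) L n b
  memE : ∀ j i, b j i ∈ P.E q
  pres : Pres ⊤ Set.univ n b'
  memE' : ∀ j i, b' j i ∈ P.E q

/-- Outside the zero section: `Lat.exists_gr` at `p`, `FP.change` (for `F0`), `Pres.of_gr`, `pres_rows`,
`Pres.top` (near `p`, with `ord_spread`); `b' = b`. -/
theorem exists_good_out (h : M.RH P.Z d) {V : Set T} {L : ∀ q, Set (M.M q)} (hV : IsOpen V)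
    (hL : M.Lattice V L) {p : T} (hp : p ∈ V) (hz : p ∉ P.Z) :
    ∃ (m c c' : ℕ) (n : Fin m → M.M p) (b : Fin c → Fin m → P.hat.A p)
      (b' : Fin c' → Fin m → P.hat.A p), Good P M p (L p) n b b' ∧ ∀ᶠ q in 𝓝 p,
        Good P M q (L q) (fun i => M.ext p (n i) q) (fun j i => P.hat.ext p (b j i) q)
          (fun j i => P.hat.ext p (b' j i) q) := by
  have hstd := P.std p hz
  obtain ⟨σ, τ, ho⟩ := hstd.exists_ord
  obtain ⟨m, n, hn, hg⟩ := (lat_hat P M h hV hL hp hz ho).exists_gr hstd ho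
  obtain ⟨c, r, hr, hr'⟩ := FMod.FP.change (M := M) (B := fun q => P.F0 q)
    (fun a ha => P.ext_F0 ha) (hL p hp).1 n hn
  obtain ⟨c', b, C, hb, hb0, hC, hrb⟩ := hr.of_gr hg
  have hpb : Pres (P.F0 p) (L p) n b := hr.rows b (fun j i => (hb j i).2) hb0 C hC hrb
  have hqb : ∀ᶠ q in 𝓝 p, Pres (P.F0 q) (L q) (fun i => M.ext p (n i) q)
      (fun j i => P.hat.ext p (b j i) q) :=
    FMod.pres_rows (M := M) (B := fun q => P.F0 q) (fun a ha => P.ext_F0 ha) n r hr' b
      (fun j i => (hb j i).2) hb0 C hC hrb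
  have hE : ∀ᶠ q in 𝓝 p, ∀ j i, P.hat.ext p (b j i) q ∈ P.E q :=
    Filter.eventually_all.2 fun j => Filter.eventually_all.2 fun i => P.ext_E p _ (hb j i).1
  refine ⟨m, c', c', n, b, b, ⟨hpb, fun j i => (hb j i).1, hpb.top ho (hL p hp).2.1,
    fun j i => (hb j i).1⟩, ?_⟩
  filter_upwards [hqb, hE, P.ord_spread ho, hV.mem_nhds hp] with q h1 h2 h3 h4
  exact ⟨h1, h2, h1.top h3 (hL q h4).2.1, h2⟩

/-- On the zero section (`E p = ⊤`): any presentation of `L` (generators `n`, relations `b`); `FP.change`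
for `M` itself (`B = ⊤`, `n` generates `M` over `P.hat.A p`). -/
theorem exists_good_in (h : M.RH P.Z d) {V : Set T} {L : ∀ q, Set (M.M q)} (hV : IsOpen V)
    (hL : M.Lattice V L) {p : T} (hp : p ∈ V) (hz : p ∈ P.Z) :
    ∃ (m c c' : ℕ) (n : Fin m → M.M p) (b : Fin c → Fin m → P.hat.A p)
      (b' : Fin c' → Fin m → P.hat.A p), Good P M p (L p) n b b' ∧ ∀ᶠ q in 𝓝 p,
        Good P M q (L q) (fun i => M.ext p (n i) q) (fun j i => P.hat.ext p (b j i) q)
          (fun j i => P.hat.ext p (b' j i) q) := by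
  obtain ⟨hfp, hspan, -⟩ := hL p hp
  obtain ⟨k, c, l, r, hpres, hnear⟩ := FMod.FP.self M hfp
  have hgen : Gen (P.F0 p) (L p) l := hpres.2.1
  have htop : Gen (⊤ : Subring (P.hat.A p)) (Set.univ : Set (M.M p)) l := by
    intro u
    constructor
    · intro _
      obtain ⟨a, ha⟩ := hgen.span hspan u
      exact ⟨a, fun i => Subring.mem_top _, ha⟩
    · intro _
      exact Set.mem_univ _
  have hE : P.E p = ⊤ := (P.zero p hz).1
  obtain ⟨c', r', hpres', hnear'⟩ := FMod.FP.change M (B := fun q => (⊤ : Subring (P.hat.A q)))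
    (L := fun q => (Set.univ : Set (M.M q)))
    (fun a _ => Filter.Eventually.of_forall (fun q => Subring.mem_top _)) (h.coh p) l htop
  have h1 : ∀ᶠ q in 𝓝 p, ∀ j i, P.hat.ext p (r j i) q ∈ P.E q := by
    rw [Filter.eventually_all]
    intro j
    rw [Filter.eventually_all]
    intro i
    exact P.ext_E p (r j i) (by rw [hE]; exact Subring.mem_top _)
  have h2 : ∀ᶠ q in 𝓝 p, ∀ j i, P.hat.ext p (r' j i) q ∈ P.E q := by
    rw [Filter.eventually_all]
    intro j
    rw [Filter.eventually_all]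
    intro i
    exact P.ext_E p (r' j i) (by rw [hE]; exact Subring.mem_top _)
  refine ⟨k, c, c', l, r, r', ⟨hpres, fun j i => by rw [hE]; exact Subring.mem_top _, hpres',
    fun j i => by rw [hE]; exact Subring.mem_top _⟩, ?_⟩
  filter_upwards [hnear, hnear', h1, h2] with q h3 h4 h5 h6
  exact ⟨h3, h5, h4, h6⟩

/-! ## row g4: consequences at one point -/

section point

variable {P M} {q : T} {L : Set (M.M q)} {m c c' : ℕ} {n : Fin m → M.M q}
  {b : Fin c → Fin m → P.hat.A q} {b' : Fin c' → Fin m → P.hat.A q}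

/-- the module generated over the microdifferential operators -/
noncomputable def spE (P : MSheaf T d) (M : FMod P.hat) {q : T} {m : ℕ} (n : Fin m → M.M q) :
    Submodule (P.E q) (M.M q) := Submodule.span (P.E q) (Set.range n)

lemma mem_spE (u : M.M q) : u ∈ spE P M n ↔ ∃ a : Fin m → P.hat.A q, (∀ i, a i ∈ P.E q) ∧
    u = ∑ i, a i • n i := by
  unfold spE
  rw [Submodule.mem_span_range_iff_exists_fun]
  constructor
  · rintro ⟨c, hc⟩
    exact ⟨fun i => (c i : P.hat.A q), fun i => (c i).2, hc.symm⟩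
  · rintro ⟨a, ha, hu⟩
    exact ⟨fun i => ⟨a i, ha i⟩, hu.symm⟩

/-- `L ∩ spE` is generated by `n` -/
private lemma g4a_gen (h : Good P M q L n b b')
    (hlat : q ∉ P.Z → ∃ σ τ, Ord (P.hat.fil q) (P.E q) σ τ ∧ Lat d (P.hat.fil q) σ L) :
    Gen (P.E q ⊓ P.F0 q) {u | u ∈ L ∧ u ∈ spE P M n} n := by
  intro u
  constructor
  · rintro ⟨hu, hs⟩
    obtain ⟨a, ha, hua⟩ := (mem_spE u).1 hs
    by_cases hz : q ∈ P.Z
    · obtain ⟨c, hc, huc⟩ := (h.pres0.2.1 u).1 hu
      refine ⟨c, fun i => Subring.mem_inf.2 ⟨?_, hc i⟩, huc⟩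
      rw [(P.zero q hz).1]
      exact Subring.mem_top _
    · obtain ⟨σ, τ, ho, hL⟩ := hlat hz
      exact sat_E (P.std q hz) ho h.pres0.2.1 (Pres.gr h.pres0 h.memE) hu a ha hua
  · rintro ⟨c, hc, huc⟩
    exact ⟨(h.pres0.2.1 u).2 ⟨c, fun i => (Subring.mem_inf.1 (hc i)).2, huc⟩,
      (mem_spE u).2 ⟨c, fun i => (Subring.mem_inf.1 (hc i)).1, huc⟩⟩

/-- the relations over the microdifferential operators of order `≤ 0` are generated by `b`: `Lat.descent`
outside `Z`; on `Z` trivial (`E q = ⊤`). `L ∩ spE` is generated by `n` (`sat_E`). -/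
theorem Good.pres0E (h : Good P M q L n b b')
    (hlat : q ∉ P.Z → ∃ σ τ, Ord (P.hat.fil q) (P.E q) σ τ ∧ Lat d (P.hat.fil q) σ L) :
    Pres (P.E q ⊓ P.F0 q) {u | u ∈ L ∧ u ∈ spE P M n} n b := by
  have hgen := g4a_gen h hlat
  by_cases hz : q ∈ P.Z
  · have hE : P.E q ⊓ P.F0 q = P.F0 q := by
      rw [(P.zero q hz).1]
      exact top_inf_eq _
    refine ⟨fun j i => ?_, hgen, fun c hc => ?_⟩
    · rw [hE]
      exact h.pres0.1 j i
    · rw [hE] at hc ⊢
      exact h.pres0.2.2 c hc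
  · obtain ⟨σ, τ, ho, hL⟩ := hlat hz
    exact Lat.descent (P.std q hz) ho hL h.pres0 h.memE hgen

/-- the relations over the microdifferential operators are generated by `b` and `b'`: outside `Z`
`Pres.topE` and `Pres.append`; on `Z` it is `pres` -/
theorem Good.presE (h : Good P M q L n b b')
    (hlat : q ∉ P.Z → ∃ σ τ, Ord (P.hat.fil q) (P.E q) σ τ ∧ Lat d (P.hat.fil q) σ L) :
    Pres (P.E q) (spE P M n : Set (M.M q)) n (Fin.append b b') := by
  have hgenE : Gen (P.E q) (spE P M n : Set (M.M q)) n := fun u => mem_spE u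
  have hb' : ∀ j, ∑ i, b' j i • n i = 0 := by
    intro j
    refine (h.pres.2.2 (b' j) (fun i => Subring.mem_top _)).2
      ⟨fun j' => if j' = j then 1 else 0, fun j' => Subring.mem_top _, fun i => ?_⟩
    simp
  have hb : ∀ j, ∑ i, b j i • n i = 0 := by
    intro j
    refine (h.pres0.2.2 (b j) (fun i => h.pres0.1 j i)).2
      ⟨fun j' => if j' = j then 1 else 0, fun j' => ?_, fun i => ?_⟩
    · dsimp only
      split_ifs
      · exact Subring.one_mem _
      · exact Subring.zero_mem _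
    · simp
  by_cases hz : q ∈ P.Z
  · have hE : P.E q = ⊤ := (P.zero q hz).1
    have h1 : Pres ⊤ Set.univ n (Fin.append b b') :=
      Pres.append' h.pres b (fun j i => Subring.mem_top _) hb
    refine ⟨fun j i => ?_, hgenE, fun c hc => ?_⟩
    · rw [hE]
      exact Subring.mem_top _
    · rw [hE] at hc ⊢
      exact h1.2.2 c hc
  · obtain ⟨σ, τ, ho, hL⟩ := hlat hz
    exact Pres.append (Pres.topE ho (Good.pres0E h hlat) hgenE) b' h.memE' hb'

/-- `spE` generates `M` and `hat E ⊗ spE = M` (`Pool.Agent.Ep.ext_equiv`, relations from `pres`) -/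
theorem Good.form (h : Good P M q L n b b') :
    ∃ F : Pool.Agent.Ep.Ext (P.E q).subtype (spE P M n) ≃ₗ[P.hat.A q] M.M q,
      ∀ b (v : spE P M n), F (Pool.Agent.Ep.tm (P.E q).subtype b v) = b • (v : M.M q) := by
  have hn : ∀ i, n i ∈ spE P M n := fun i => Submodule.subset_span ⟨i, rfl⟩
  refine Pool.Agent.Ep.ext_equiv (P.E q).subtype (spE P M n).subtype.toAddMonoidHom
    (fun a v => rfl) (fun i => ⟨n i, hn i⟩) ?_ ?_ ?_
  · intro v
    obtain ⟨a, ha, hv⟩ := (mem_spE (v : M.M q)).1 v.2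
    refine ⟨fun i => ⟨a i, ha i⟩, Subtype.ext ?_⟩
    rw [hv, Submodule.coe_sum]
    rfl
  · intro u
    obtain ⟨f, -, hf⟩ := (h.pres.2.1 u).1 (Set.mem_univ u)
    exact ⟨f, hf⟩
  · intro f hf
    obtain ⟨a, -, ha⟩ := (h.pres.2.2 f (fun _ => Subring.mem_top _)).1 hf
    refine ⟨c', a, fun j i => ⟨b' j i, h.memE' j i⟩, fun j => Subtype.ext ?_, ha⟩
    rw [Submodule.coe_sum]
    refine (h.pres.2.2 (b' j) (fun _ => Subring.mem_top _)).2 ⟨fun j' => if j' = j then 1 else 0,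
      fun _ => Subring.mem_top _, fun i => ?_⟩
    simp only [ite_mul, one_mul, zero_mul, Finset.sum_ite_eq', Finset.mem_univ, if_true]

private lemma g4d_sub (x : Fin m → M.M q) (N : Submodule (P.E q) (M.M q))
    (h : ∀ i, x i ∈ N) : spE P M x ≤ N := by
  refine Submodule.span_le.2 ?_
  rintro _ ⟨i, rfl⟩
  exact h i

/-- uniqueness: `Lat.unique` outside `Z`; on `Z` both are everything -/
theorem Good.unique (h : Good P M q L n b b') {L' : Set (M.M q)} {m' e e' : ℕ}
    {n' : Fin m' → M.M q} {g : Fin e → Fin m' → P.hat.A q} {g' : Fin e' → Fin m' → P.hat.A q}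
    (h' : Good P M q L' n' g g')
    (hlat : q ∉ P.Z → ∃ σ τ, Ord (P.hat.fil q) (P.E q) σ τ ∧ Lat d (P.hat.fil q) σ L ∧
      Lat d (P.hat.fil q) σ L') : spE P M n = spE P M n' := by
  by_cases hz : q ∈ P.Z
  · have hE : P.E q = ⊤ := (P.zero q hz).1
    have key : ∀ {m : ℕ} {c' : ℕ} {n : Fin m → M.M q} {b' : Fin c' → Fin m → P.hat.A q},
        Pres ⊤ Set.univ n b' → spE P M n = ⊤ := by
      intro m c' n b' hp
      rw [eq_top_iff]
      intro u _
      obtain ⟨a, -, ha⟩ := (hp.2.1 u).1 trivial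
      exact (mem_spE u).2 ⟨a, fun i => by rw [hE]; trivial, ha⟩
    rw [key h.pres, key h'.pres]
  · obtain ⟨σ, τ, ho, hl, hl'⟩ := hlat hz
    have hs := P.std q hz
    have hg : GR (P.hat.fil q) (P.E q) n := Pres.gr h.pres0 h.memE
    have hg' : GR (P.hat.fil q) (P.E q) n' := Pres.gr h'.pres0 h'.memE
    refine le_antisymm (g4d_sub n _ fun i => ?_) (g4d_sub n' _ fun i => ?_)
    · exact (mem_spE _).2 (Lat.unique hs ho hl' hl h'.pres0.2.1 hg' h.pres0.2.1 hg i)
    · exact (mem_spE _).2 (Lat.unique hs ho hl hl' h.pres0.2.1 hg h'.pres0.2.1 hg' i)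

end point

end Pool.Agent.Msh
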