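import Pool.Agent.Msh.Good

/-!
# The theorem for sheaves (P11, sheaf level, helper39)
-/

set_option autoImplicit false

namespace Pool.Agent.Msh

open Topology Filter

variable {T : Type} [TopologicalSpace T] {d : ℕ} (P : MSheaf T d) (M : FMod P.hat)

/-! ## row m1: local data -/

/-- a lattice and a good family near `p` -/
structure Loc (p : T) where
  /-- the neighbourhood -/
  V : Set T
  /-- the lattice -/
  L : ∀ q, Set (M.M q)
  hV : IsOpen V
  hp : p ∈ V
  hL : M.Lattice V L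
  /-- number of generators -/
  m : ℕ
  /-- number of relations -/
  c : ℕ
  /-- number of relations -/
  c' : ℕ
  /-- the family -/
  n : Fin m → M.M p
  /-- relations -/
  b : Fin c → Fin m → P.hat.A p
  /-- relations -/
  b' : Fin c' → Fin m → P.hat.A p
  self : Good P M p (L p) n b b'
  near : ∀ᶠ q in 𝓝 p, Good P M q (L q) (fun i => M.ext p (n i) q)
    (fun j i => P.hat.ext p (b j i) q) (fun j i => P.hat.ext p (b' j i) q)

variable {P M}

lemma exists_loc (h : M.RH P.Z d) (p : T) : Nonempty (Loc P M p) := by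
  obtain ⟨V, L, hV, hp, hL⟩ := h.reg p
  by_cases hz : p ∈ P.Z
  · obtain ⟨m, c, c', n, b, b', h1, h2⟩ := exists_good_in P M h hV hL hp hz
    exact ⟨⟨V, L, hV, hp, hL, m, c, c', n, b, b', h1, h2⟩⟩
  · obtain ⟨m, c, c', n, b, b', h1, h2⟩ := exists_good_out P M h hV hL hp hz
    exact ⟨⟨V, L, hV, hp, hL, m, c, c', n, b, b', h1, h2⟩⟩

/-- chosen local data -/
noncomputable def loc (h : M.RH P.Z d) (p : T) : Loc P M p := Classical.choice (exists_loc h p)

/-- two families near `p` and `q` generate the same module at `q`: `Good.unique` with `lat_hat` -/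
theorem loc_unique (h : M.RH P.Z d) {p : T} (X : Loc P M p) :
    ∀ᶠ q in 𝓝 p, ∀ Y : Loc P M q, spE P M Y.n = spE P M (fun i => M.ext p (X.n i) q) := by
  filter_upwards [X.near, X.hV.mem_nhds X.hp] with q h1 h2 Y
  refine Good.unique Y.self h1 fun hz => ?_
  obtain ⟨σ, τ, ho⟩ := (P.std q hz).exists_ord
  exact ⟨σ, τ, ho, lat_hat P M h Y.hV Y.hL Y.hp hz ho, lat_hat P M h X.hV X.hL h2 hz ho⟩

/-! ## row m2: the sheaf `N` -/

theorem theN_near (h : M.RH P.Z d) (p : T) :
    ∀ᶠ q in 𝓝 p, spE P M (loc h q).n = spE P M (fun i => M.ext p ((loc h p).n i) q) := by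
  filter_upwards [loc_unique h (loc h p)] with q hq
  exact hq (loc h q)

private lemma m1_ext (h : M.RH P.Z d) (p : T) (u : M.M p) (hu : u ∈ spE P M (loc h p).n) :
    ∀ᶠ q in 𝓝 p, M.ext p u q ∈ spE P M (loc h q).n := by
  obtain ⟨a, ha, rfl⟩ := (mem_spE u).1 hu
  have h1 : ∀ᶠ q in 𝓝 p, ∀ i, P.hat.ext p (a i) q ∈ P.E q :=
    Filter.eventually_all.2 fun i => P.ext_E p (a i) (ha i)
  filter_upwards [h1, M.ext_lin Finset.univ a (loc h p).n, theN_near h p] with q h2 h3 h4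
  rw [h4, h3]
  exact (mem_spE _).2 ⟨fun i => P.hat.ext p (a i) q, h2, rfl⟩

/-- the sheaf of submodules with the stalks `spE` -/
noncomputable def theN (h : M.RH P.Z d) : P.Sub M where
  N p := spE P M (loc h p).n
  ext_N p u hu := m1_ext h p u hu

theorem theN_form (h : M.RH P.Z d) : (theN h).IsForm := by
  intro p
  exact (loc h p).self.form

/-! ## row m3: presentations of the sheaf of submodules -/

private lemma m3_coe_sum {A M : Type} [Ring A] [AddCommGroup M] [Module A M] (E : Subring A)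
    (N : Submodule E M) {k : ℕ} (b : Fin k → E) (l : Fin k → N) :
    ((∑ i, b i • l i : N) : M) = ∑ i, (b i : A) • (l i : M) := by
  rw [Submodule.coe_sum]
  rfl

private lemma m3_choose {A : Type} [Ring A] (E : Subring A) (B : Subring E) {k : ℕ}
    (b : Fin k → A) (hb : ∀ i, b i ∈ B.map E.subtype) :
    ∃ b' : Fin k → E, (∀ i, b' i ∈ B) ∧ ∀ i, (b' i : A) = b i := by
  choose b' h1 h2 using fun i => Subring.mem_map.1 (hb i)
  exact ⟨b', h1, h2⟩

private lemma m3_pres {A M : Type} [Ring A] [AddCommGroup M] [Module A M] (E : Subring A)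
    (N : Submodule E M) (B : Subring E) (L : Set N) {k c : ℕ} (l : Fin k → N)
    (r : Fin c → Fin k → E) :
    Pres B L l r ↔ Pres (B.map E.subtype) (Subtype.val '' L) (fun i => (l i : M))
      (fun j i => (r j i : A)) := by
  have hmem : ∀ x : E, (x : A) ∈ B.map E.subtype ↔ x ∈ B := fun x =>
    ⟨fun h => by
      obtain ⟨y, hy, hxy⟩ := Subring.mem_map.1 h
      have : y = x := Subtype.ext hxy
      rwa [← this], fun h => Subring.mem_map.2 ⟨x, h, rfl⟩⟩
  have hsum : ∀ (b : Fin k → E), ((∑ i, b i • l i : N) : M) = ∑ i, (b i : A) • (l i : M) :=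
    fun b => m3_coe_sum E N b l
  constructor
  · rintro ⟨h1, h2, h3⟩
    refine ⟨fun j i => (hmem _).2 (h1 j i), fun u => ⟨?_, ?_⟩, fun b hb => ?_⟩
    · rintro ⟨v, hv, rfl⟩
      obtain ⟨b, hb, hvb⟩ := (h2 v).1 hv
      refine ⟨fun i => (b i : A), fun i => (hmem _).2 (hb i), ?_⟩
      rw [← hsum b, ← hvb]
    · rintro ⟨b, hb, rfl⟩
      obtain ⟨b', hb', hbb⟩ := m3_choose E B b hb
      refine ⟨∑ i, b' i • l i, (h2 _).2 ⟨b', hb', rfl⟩, ?_⟩
      rw [hsum b']
      exact Finset.sum_congr rfl fun i _ => by rw [hbb i]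
    · obtain ⟨b', hb', hbb⟩ := m3_choose E B b hb
      obtain rfl : (fun i => (b' i : A)) = b := funext hbb
      have h4 := h3 b' hb'
      have h5 : ∑ i, (b' i : A) • (l i : M) = 0 ↔ ∑ i, b' i • l i = 0 := by
        rw [← hsum b']
        exact ⟨fun h => Subtype.ext h, fun h => by rw [h]; rfl⟩
      rw [h5, h4]
      constructor
      · rintro ⟨a, ha, hab⟩
        refine ⟨fun j => (a j : A), fun j => (hmem _).2 (ha j), fun i => ?_⟩
        show (b' i : A) = _
        rw [hab i, AddSubmonoidClass.coe_finsetSum]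
        exact Finset.sum_congr rfl fun j _ => rfl
      · rintro ⟨a, ha, hab⟩
        obtain ⟨a', ha', haa⟩ := m3_choose E B a ha
        refine ⟨a', ha', fun i => Subtype.ext ?_⟩
        refine (hab i).trans ?_
        rw [AddSubmonoidClass.coe_finsetSum]
        exact Finset.sum_congr rfl fun j _ => by rw [← haa j]; rfl
  · rintro ⟨h1, h2, h3⟩
    refine ⟨fun j i => (hmem _).1 (h1 j i), fun u => ⟨?_, ?_⟩, fun b hb => ?_⟩
    · intro hu
      obtain ⟨b, hb, hub⟩ := (h2 u).1 ⟨u, hu, rfl⟩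
      obtain ⟨b', hb', hbb⟩ := m3_choose E B b hb
      refine ⟨b', hb', Subtype.ext ?_⟩
      rw [hub, hsum b']
      exact Finset.sum_congr rfl fun i _ => by rw [hbb i]
    · rintro ⟨b, hb, rfl⟩
      obtain ⟨v, hv, hvu⟩ := (h2 (∑ i, b i • l i : N)).2
        ⟨fun i => (b i : A), fun i => (hmem _).2 (hb i), hsum b⟩
      have : v = ∑ i, b i • l i := Subtype.ext hvu
      rwa [← this]
    · have h4 := h3 (fun i => (b i : A)) (fun i => (hmem _).2 (hb i))
      have h5 : ∑ i, (b i : A) • (l i : M) = 0 ↔ ∑ i, b i • l i = 0 := by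
        rw [← hsum b]
        exact ⟨fun h => Subtype.ext h, fun h => by rw [h]; rfl⟩
      rw [← h5, h4]
      constructor
      · rintro ⟨a, ha, hab⟩
        obtain ⟨a', ha', haa⟩ := m3_choose E B a ha
        refine ⟨a', ha', fun i => Subtype.ext ?_⟩
        refine (hab i).trans ?_
        rw [AddSubmonoidClass.coe_finsetSum]
        exact Finset.sum_congr rfl fun j _ => by rw [← haa j]; rfl
      · rintro ⟨a, ha, hab⟩
        refine ⟨fun j => (a j : A), fun j => (hmem _).2 (ha j), fun i => ?_⟩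
        show (b i : A) = _
        rw [hab i, AddSubmonoidClass.coe_finsetSum]
        exact Finset.sum_congr rfl fun j _ => rfl

/-- `FP` for `N.mod` in terms of `M` -/
theorem fp_mod_iff (N : P.Sub M) {p : T} (B : ∀ q, Subring (P.E q)) (L : ∀ q, Set (N.N q)) :
    N.mod.FP B L p ↔ ∃ (k c : ℕ) (l : Fin k → N.N p) (r : Fin c → Fin k → P.E p), ∀ᶠ q in 𝓝 p,
      Pres ((B q).map (P.E q).subtype) (Subtype.val '' (L q)) (fun i => M.ext p (l i) q)
        (fun j i => P.hat.ext p (r j i) q) := by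
  have key : ∀ (k c : ℕ) (l : Fin k → N.N p) (r : Fin c → Fin k → P.E p), ∀ᶠ q in 𝓝 p,
      (Pres (B q) (L q) (fun i => N.mod.ext p (l i) q) (fun j i => P.mic.ext p (r j i) q) ↔
      Pres ((B q).map (P.E q).subtype) (Subtype.val '' (L q)) (fun i => M.ext p (l i) q)
        (fun j i => P.hat.ext p (r j i) q)) := by
    intro k c l r
    have e1 : ∀ᶠ q in 𝓝 p, ∀ i, M.ext p (l i) q ∈ N.N q :=
      eventually_all.2 fun i => N.ext_N p _ (l i).2
    have e2 : ∀ᶠ q in 𝓝 p, ∀ j i, P.hat.ext p (r j i) q ∈ P.E q :=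
      eventually_all.2 fun j => eventually_all.2 fun i => P.ext_E p _ (r j i).2
    filter_upwards [e1, e2] with q h1 h2
    have h3 : (fun i => N.mod.ext p (l i) q) = fun i => (⟨M.ext p (l i) q, h1 i⟩ : N.N q) :=
      funext fun i => dif_pos (h1 i)
    have h4 : (fun j i => P.mic.ext p (r j i) q)
        = fun j i => (⟨P.hat.ext p (r j i) q, h2 j i⟩ : P.E q) :=
      funext fun j => funext fun i => dif_pos (h2 j i)
    rw [h3, h4]
    exact m3_pres (P.E q) (N.N q) (B q) (L q) _ _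
  constructor
  · rintro ⟨k, c, l, r, h⟩
    refine ⟨k, c, l, r, ?_⟩
    filter_upwards [h, key k c l r] with q h1 h2
    exact h2.1 h1
  · rintro ⟨k, c, l, r, h⟩
    refine ⟨k, c, l, r, ?_⟩
    filter_upwards [h, key k c l r] with q h1 h2
    exact h2.2 h1

/-! ## row m4: symbols in `mic` and in `hat` -/

/-- `Std.inv_mem` outside `Z`, `E q = ⊤` on `Z` -/
theorem mic_inv {q : T} {m : ℤ} (a : P.E q) (ha : (a : P.hat.A q) ∈ (P.hat.fil q).F m) :
    (P.mic.fil q).Inv m a ↔ (P.hat.fil q).Inv m (a : P.hat.A q) := by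
  constructor
  · rintro ⟨b, hb, h1, h2⟩
    let b' : P.E q := b
    exact ⟨b', hb, congrArg Subtype.val h1, congrArg Subtype.val h2⟩
  · rintro ⟨b, hb, h1, h2⟩
    have hbE : b ∈ P.E q := by
      by_cases hz : q ∈ P.Z
      · rw [(P.zero q hz).1]
        trivial
      · exact Std.inv_mem (P.std q hz) a.2 ha hb h1 h2
    exact ⟨(⟨b, hbE⟩ : P.E q), hb, Subtype.ext h1, Subtype.ext h2⟩

theorem mic_van {p : T} {m : ℤ} (Λ : Set T) (a : P.E p)
    (ha : (a : P.hat.A p) ∈ (P.hat.fil p).F m) :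
    P.mic.Van m Λ p a ↔ P.hat.Van m Λ p (a : P.hat.A p) := by
  have h : ∀ᶠ q in 𝓝 p, ((P.mic.fil q).Inv m (P.mic.ext p a q) ↔
      (P.hat.fil q).Inv m (P.hat.ext p (a : P.hat.A p) q)) := by
    filter_upwards [P.ext_E p a a.2, P.hat.ext_fil m p a ha] with q h1 h2
    have h3 : P.mic.ext p a q = (⟨_, h1⟩ : P.E q) := dif_pos h1
    rw [h3]
    exact mic_inv (⟨_, h1⟩ : P.E q) h2
  constructor
  · intro h4
    filter_upwards [h, h4] with q h5 h6 h7 h8
    exact h6 h7 (h5.2 h8)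
  · intro h4
    filter_upwards [h, h4] with q h5 h6 h7 h8
    exact h6 h7 (h5.1 h8)

theorem supp_mod {N : P.Sub M} (hN : N.IsForm) : N.mod.supp = M.supp := by
  ext p
  constructor
  · rintro ⟨u, hu⟩
    let u' : N.N p := u
    exact ⟨(u' : M.M p), fun h => hu (Subtype.ext h)⟩
  · rintro ⟨v, hv⟩
    by_contra hc
    have h0 : ∀ n : N.N p, n = 0 := fun n => by
      by_contra hn
      exact hc ⟨n, hn⟩
    obtain ⟨F, hF⟩ := hN p
    have h1 : ∀ u, F u = 0 := by
      intro u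
      refine Pool.Agent.Ep.ext_induction (ι := (P.E p).subtype) (p := fun u => F u = 0) ?_ ?_ u
      · intro b n
        rw [h0 n, hF b 0]
        simp
      · intro u v hu hv
        rw [map_add, hu, hv, add_zero]
    exact hv (by rw [← F.apply_symm_apply v, h1])

/-! ## row m5: the dimension -/

/-- an operator of order `≤ -1` has no inverse of order `≤ 0` -/
private lemma m5_not_inv {A : Type} [Ring A] {f : FR A} {E : Subring A} {σ τ : A}
    (h : Std d f E) (ho : Ord f E σ τ) {a : A} (ha : a ∈ f.F (-1)) : ¬ f.Inv 0 a := by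
  rintro ⟨b, hb, hab, -⟩
  have h1 : (1 : A) ∈ f.F (-1) := by
    have h2 := f.mul (-1) (-0) a b ha hb
    rw [hab] at h2
    simpa using h2
  obtain ⟨c, hc, hc1⟩ := ho.mem_F1.1 h1
  obtain ⟨e, -, he, -⟩ := h.unit ho (f.F0.neg_mem hc)
  rw [mul_neg, ← hc1, add_neg_cancel, zero_mul] at he
  exact h.one_ne he.symm

/-- invertibility of order `0` only depends on the class modulo operators of order `≤ -1` -/
private lemma m5_inv {A : Type} [Ring A] {f : FR A} {E : Subring A} {σ τ : A}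
    (h : Std d f E) (ho : Ord f E σ τ) {a0 a1 : A} (h1 : a1 ∈ f.F0) (h0 : f.Inv 0 a0) :
    f.Inv 0 (a0 + σ * a1) := by
  obtain ⟨b, hb, hab, hba⟩ := h0
  have hb0 : b ∈ f.F0 := by
    have h2 : b ∈ f.F (-0) := hb
    rw [neg_zero] at h2
    exact h2
  obtain ⟨e, he, he1, he2⟩ := h.unit ho (f.F0.mul_mem (ho.conj hb0) h1)
  have h3 : b * (a0 + σ * a1) = 1 + σ * (τ * b * σ * a1) := by
    rw [mul_add, hba]
    simp only [mul_assoc]
    rw [← mul_assoc σ τ, ho.st, one_mul]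
  have h4 : a0 + σ * a1 = a0 * (1 + σ * (τ * b * σ * a1)) := by
    rw [← h3, ← mul_assoc, hab, one_mul]
  refine ⟨e * b, ?_, ?_, ?_⟩
  · have h5 : e * b ∈ f.F 0 := f.F0.mul_mem he hb0
    rw [neg_zero]
    exact h5
  · rw [h4, mul_assoc, ← mul_assoc _ e b, he1, one_mul, hab]
  · rw [mul_assoc, h3, he2]

/-- `F0 = (E ⊓ F0) + σ F0`; a homomorphism `φ` from `E ⊓ F0` extends to `F0` by
`a0 + σ a1 ↦ φ a0`: if `a0 = σ a1` then `a0` is not invertible near `p`, so `φ a0 = 0`; if the symbol of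
`a0 + σ a1` vanishes so does that of `a0` (`Std.unit`). -/
theorem dim_mic {Λ : Set T} {p : T} (hz : p ∉ P.Z) (h : P.hat.DimLE Λ d p) :
    P.mic.DimLE Λ d p := by
  intro O _ φ hφ hφ0
  have hs := P.std p hz
  obtain ⟨σ, τ, ho⟩ := hs.exists_ord
  have hnear : ∀ᶠ q in 𝓝 p, Std d (P.hat.fil q) (P.E q) ∧
      Ord (P.hat.fil q) (P.E q) (P.hat.ext p σ q) (P.hat.ext p τ q) := by
    filter_upwards [P.not_Z_spread ho, P.ord_spread ho] with q h1 h2
    exact ⟨P.std q h1, h2⟩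
  -- the values of `φ` only depend on the principal part
  let val : (P.mic.fil p).F0 → P.hat.A p := fun x => (P.E p).subtype x.1
  have W : ∀ x y : (P.mic.fil p).F0, (val x - val y) ∈ (P.hat.fil p).F (-1) → φ x = φ y := by
    intro x y hxy
    rw [← sub_eq_zero, ← map_sub]
    refine hφ0 _ ?_
    refine (mic_van Λ _ (x - y).2).2 ?_
    filter_upwards [hnear, P.hat.ext_fil (-1) p _ hxy] with q h1 h2 _
    exact m5_not_inv h1.1 h1.2 h2
  choose c0 hc0 c1 hc1 hc using fun a : (P.hat.fil p).F0 => hs.level ho a.2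
  let mk : (P.hat.fil p).F0 → (P.mic.fil p).F0 := fun a =>
    ⟨⟨c0 a, (Subring.mem_inf.1 (hc0 a)).1⟩, (Subring.mem_inf.1 (hc0 a)).2⟩
  have hmk : ∀ a : (P.hat.fil p).F0, val (mk a) = c0 a := fun a => rfl
  -- if `x` has the same principal part as `a` then `φ (mk a) = φ x`
  have W2 : ∀ (a : (P.hat.fil p).F0) (x : (P.mic.fil p).F0),
      ((a : P.hat.A p) - val x) ∈ (P.hat.fil p).F (-1) → φ (mk a) = φ x := by
    intro a x hax
    refine W _ _ ?_
    have h1 : val (mk a) - val x = ((a : P.hat.A p) - val x) - σ * c1 a := by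
      rw [hmk]
      conv_rhs => rw [hc a]
      abel
    rw [h1]
    exact ((P.hat.fil p).F (-1)).sub_mem hax (ho.mem_F1.2 ⟨c1 a, hc1 a, rfl⟩)
  have hsub : ∀ a : (P.hat.fil p).F0, (a : P.hat.A p) - c0 a ∈ (P.hat.fil p).F (-1) := by
    intro a
    refine ho.mem_F1.2 ⟨c1 a, hc1 a, ?_⟩
    rw [sub_eq_iff_eq_add, add_comm]
    exact hc a
  have hF1l : ∀ x y : P.hat.A p, x ∈ (P.hat.fil p).F0 → y ∈ (P.hat.fil p).F (-1) →
      x * y ∈ (P.hat.fil p).F (-1) := by
    intro x y hx hy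
    have h1 := (P.hat.fil p).mul 0 (-1) x y hx hy
    simpa using h1
  have hF1r : ∀ x y : P.hat.A p, x ∈ (P.hat.fil p).F (-1) → y ∈ (P.hat.fil p).F0 →
      x * y ∈ (P.hat.fil p).F (-1) := by
    intro x y hx hy
    have h1 := (P.hat.fil p).mul (-1) 0 x y hx hy
    simpa using h1
  let ψ : (P.hat.fil p).F0 →+* O :=
    { toFun := fun a => φ (mk a)
      map_one' := by
        rw [W2 1 1 (by
          have h1 : ((1 : (P.hat.fil p).F0) : P.hat.A p) - val 1 = 0 := sub_self 1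
          rw [h1]; exact ((P.hat.fil p).F (-1)).zero_mem), map_one]
      map_mul' := fun a b => by
        rw [← map_mul]
        refine W2 _ _ ?_
        have h1 : ((a * b : (P.hat.fil p).F0) : P.hat.A p) - val (mk a * mk b) =
            (a : P.hat.A p) * ((b : P.hat.A p) - c0 b) + ((a : P.hat.A p) - c0 a) * c0 b := by
          have h2 : val (mk a * mk b) = c0 a * c0 b := rfl
          rw [h2, Subring.coe_mul]
          noncomm_ring
        rw [h1]
        exact ((P.hat.fil p).F (-1)).add_mem (hF1l _ _ a.2 (hsub b))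
          (hF1r _ _ (hsub a) (Subring.mem_inf.1 (hc0 b)).2)
      map_zero' := by
        rw [W2 0 0 (by
          have h1 : ((0 : (P.hat.fil p).F0) : P.hat.A p) - val 0 = 0 := sub_self 0
          rw [h1]; exact ((P.hat.fil p).F (-1)).zero_mem), map_zero]
      map_add' := fun a b => by
        rw [← map_add]
        refine W2 _ _ ?_
        have h1 : ((a + b : (P.hat.fil p).F0) : P.hat.A p) - val (mk a + mk b) =
            ((a : P.hat.A p) - c0 a) + ((b : P.hat.A p) - c0 b) := by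
          have h2 : val (mk a + mk b) = c0 a + c0 b := rfl
          rw [h2, Subring.coe_add]
          abel
        rw [h1]
        exact ((P.hat.fil p).F (-1)).add_mem (hsub a) (hsub b) }
  refine h O ψ ?_ ?_
  · intro o
    obtain ⟨x, hx⟩ := hφ o
    have hx2 : val x ∈ (P.hat.fil p).F0 := x.2
    refine ⟨⟨val x, hx2⟩, ?_⟩
    rw [← hx]
    refine W2 _ _ ?_
    have h1 : ((⟨val x, hx2⟩ : (P.hat.fil p).F0) : P.hat.A p) - val x = 0 := sub_self _
    rw [h1]
    exact ((P.hat.fil p).F (-1)).zero_mem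
  · intro a ha
    refine hφ0 _ ?_
    refine (mic_van Λ _ (mk a).2).2 ?_
    filter_upwards [hnear, ha, P.ext_F0 (hc1 a), P.hat.ext_add p (c0 a) (σ * c1 a),
      P.hat.ext_mul p σ (c1 a)] with q h1 h2 h3 h4 h5 hq h6
    refine h2 hq ?_
    rw [hc a, h4, h5]
    exact m5_inv h1.1 h1.2 h3 h6

/-! ## row m6: `N` is regular holonomic -/

theorem theN_coh (h : M.RH P.Z d) (p : T) :
    (theN h).mod.FP (fun _ => ⊤) (fun _ => Set.univ) p := by
  refine (fp_mod_iff (theN h) (fun _ => ⊤) (fun _ => Set.univ)).2 ?_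
  let X : Loc P M p := loc h p
  have hn : ∀ i, X.n i ∈ (theN h).N p := fun i => Submodule.subset_span ⟨i, rfl⟩
  refine ⟨X.m, X.c + X.c', fun i => ⟨X.n i, hn i⟩,
    Fin.append (fun j i => ⟨X.b j i, X.self.memE j i⟩) (fun j i => ⟨X.b' j i, X.self.memE' j i⟩), ?_⟩
  filter_upwards [X.near, theN_near h p, X.hV.mem_nhds X.hp] with q h1 h2 h3
  have h4 := h1.presE (fun hz => by
    obtain ⟨σ, τ, ho⟩ := (P.std q hz).exists_ord
    exact ⟨σ, τ, ho, lat_hat P M h X.hV X.hL h3 hz ho⟩)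
  have e1 : (⊤ : Subring (P.E q)).map (P.E q).subtype = P.E q := by
    ext a
    simp
  have e2 : Subtype.val '' (Set.univ : Set ((theN h).N q))
      = (spE P M (fun i => M.ext p (X.n i) q) : Set (M.M q)) := by
    rw [Set.image_univ, Subtype.range_coe]
    exact congrArg _ h2
  have e3 : (fun j i => P.hat.ext p ((Fin.append (fun j i => (⟨X.b j i, X.self.memE j i⟩ : P.E p))
      (fun j i => (⟨X.b' j i, X.self.memE' j i⟩ : P.E p)) j i : P.E p) : P.hat.A p) q)
      = Fin.append (fun j i => P.hat.ext p (X.b j i) q) (fun j i => P.hat.ext p (X.b' j i) q) := by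
    funext j
    refine Fin.addCases (fun j => ?_) (fun j => ?_) j
    · rw [Fin.append_left]
      funext i
      rw [Fin.append_left]
    · rw [Fin.append_right]
      funext i
      rw [Fin.append_right]
  rw [e1, e2, e3]
  exact h4

lemma m6b_map (r : T) :
    (Subring.map (P.E r).subtype ((P.mic.fil r).F0 : Subring (P.E r))) = P.E r ⊓ P.F0 r := by
  ext a
  constructor
  · rintro ⟨x, hx, rfl⟩
    exact ⟨x.2, hx⟩
  · rintro ⟨h1, h2⟩
    exact ⟨⟨a, h1⟩, h2, rfl⟩

theorem theN_reg (h : M.RH P.Z d) (p : T) :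
    ∃ (V : Set T) (L : ∀ q, Set ((theN h).mod.M q)), IsOpen V ∧ p ∈ V ∧ (theN h).mod.Lattice V L := by
  have g1 := (loc h p).near
  have g2 := theN_near h p
  have g3 : ∀ᶠ q in 𝓝 p, q ∈ (loc h p).V := (loc h p).hV.mem_nhds (loc h p).hp
  have g4 : ∀ᶠ q in 𝓝 p, ∀ i, ∀ᶠ r in 𝓝 q,
      M.ext q (M.ext p ((loc h p).n i) q) r = M.ext p ((loc h p).n i) r :=
    Filter.eventually_all.2 fun i => M.ext_ext p _
  have g5 : ∀ᶠ q in 𝓝 p, ∀ j i, ∀ᶠ r in 𝓝 q,
      P.hat.ext q (P.hat.ext p ((loc h p).b j i) q) r = P.hat.ext p ((loc h p).b j i) r :=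
    Filter.eventually_all.2 fun j => Filter.eventually_all.2 fun i => P.hat.ext_ext p _
  obtain ⟨V, hV, hVo, hpV⟩ := eventually_nhds_iff.1
    (g1.and (g2.and (g3.and (g4.and g5))))
  let X := loc h p
  let L : ∀ q, Set ((theN h).N q) := fun q => {u | (u : M.M q) ∈ X.L q}
  have hnL : ∀ q ∈ V, ∀ i, M.ext p (X.n i) q ∈ X.L q := fun q hq i =>
    Gen.mem (hV q hq).1.pres0.2.1 i
  have hnN : ∀ q ∈ V, ∀ i, M.ext p (X.n i) q ∈ (theN h).N q := by
    intro q hq i
    have e1 : (theN h).N q = spE P M (fun i => M.ext p (X.n i) q) := (hV q hq).2.1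
    rw [e1]
    exact Submodule.subset_span ⟨i, rfl⟩
  refine ⟨V, L, hVo, hpV, fun q hq => ⟨?_, ?_, ?_⟩⟩
  · refine (fp_mod_iff (theN h) (fun r => ((P.mic.fil r).F0 : Subring (P.E r))) L).2
      ⟨X.m, X.c, fun i => ⟨M.ext p (X.n i) q, hnN q hq i⟩,
        fun j i => ⟨P.hat.ext p (X.b j i) q, (hV q hq).1.memE j i⟩, ?_⟩
    filter_upwards [hVo.mem_nhds hq, Filter.eventually_all.2 (hV q hq).2.2.2.1,
      Filter.eventually_all.2 fun j => Filter.eventually_all.2 ((hV q hq).2.2.2.2 j)]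
      with r hr h4 h5
    have hlat : r ∉ P.Z → ∃ σ τ, Ord (P.hat.fil r) (P.E r) σ τ ∧ Lat d (P.hat.fil r) σ (X.L r) := by
      intro hz
      obtain ⟨σ, τ, ho⟩ := Std.exists_ord (P.std r hz)
      exact ⟨σ, τ, ho, lat_hat P M h X.hV X.hL (hV r hr).2.2.1 hz ho⟩
    have h6 := Good.pres0E (hV r hr).1 hlat
    have e2 : (Subtype.val '' (L r) : Set (M.M r)) =
        {u | u ∈ X.L r ∧ u ∈ spE P M (fun i => M.ext p (X.n i) r)} := by
      have e1 : (theN h).N r = spE P M (fun i => M.ext p (X.n i) r) := (hV r hr).2.1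
      ext u
      constructor
      · rintro ⟨v, hv, rfl⟩
        exact ⟨hv, e1 ▸ v.2⟩
      · rintro ⟨h7, h8⟩
        rw [← e1] at h8
        exact ⟨⟨u, h8⟩, h7, rfl⟩
    have e3 : (fun i => M.ext q (M.ext p (X.n i) q) r) = fun i => M.ext p (X.n i) r := funext h4
    have e4 : (fun j i => P.hat.ext q (P.hat.ext p (X.b j i) q) r) =
        fun j i => P.hat.ext p (X.b j i) r := funext fun j => funext (h5 j)
    rw [e2, m6b_map]
    change Pres _ _ (fun i => M.ext q (M.ext p (X.n i) q) r)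
      (fun j i => P.hat.ext q (P.hat.ext p (X.b j i) q) r)
    rw [e3, e4]
    exact h6
  · change ∀ u : (theN h).N q, u ∈ Submodule.span (P.E q) (L q)
    intro u
    have e1 : (theN h).N q = spE P M (fun i => M.ext p (X.n i) q) := (hV q hq).2.1
    have h8 : (u : M.M q) ∈ spE P M (fun i => M.ext p (X.n i) q) := e1 ▸ u.2
    obtain ⟨a, ha, hu⟩ := (mem_spE _).1 h8
    have e5 : u = ∑ i, (⟨a i, ha i⟩ : P.E q) • (⟨M.ext p (X.n i) q, hnN q hq i⟩ : (theN h).N q) := by
      refine Subtype.ext ?_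
      rw [AddSubmonoidClass.coe_finsetSum]
      exact hu
    rw [e5]
    exact Submodule.sum_mem _ fun i _ => Submodule.smul_mem _ _
      (Submodule.subset_span (hnL q hq i))
  · intro a0 ha hvan u0 hu
    let a : P.E q := a0
    let u : (theN h).N q := u0
    rw [supp_mod (theN_form h)] at hvan
    have h9 : P.hat.Van 1 M.supp q (a : P.hat.A q) := (mic_van M.supp a ha).1 hvan
    change (a : P.hat.A q) • (u : M.M q) ∈ X.L q
    exact (X.hL q (hV q hq).2.2.1).2.2 _ ha h9 _ hu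

theorem theN_rh (h : M.RH P.Z d) : (theN h).mod.RH P.Z d where
  coh := theN_coh h
  hol p hz := by
    rw [supp_mod (theN_form h)]
    exact dim_mic hz (h.hol p hz)
  reg := theN_reg h

/-! ## row m7: the relations of another form -/

lemma m7_rel {A M : Type} [Ring A] [AddCommGroup M] [Module A M] (E : Subring A)
    (N : Submodule E M) (F : Pool.Agent.Ep.Ext E.subtype N ≃ₗ[A] M)
    (hF : ∀ b (v : N), F (Pool.Agent.Ep.tm E.subtype b v) = b • (v : M)) {m : ℕ} (n : Fin m → M)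
    (hn : ∀ u : M, u ∈ N ↔ ∃ e : Fin m → A, (∀ i, e i ∈ E) ∧ u = ∑ i, e i • n i)
    (a : Fin m → A) (ha : ∑ i, a i • n i = 0) :
    ∃ (q : ℕ) (c : Fin q → A) (b : Fin q → Fin m → A), (∀ j i, b j i ∈ E) ∧
      (∀ j, ∑ i, b j i • n i = 0) ∧ ∀ i, a i = ∑ j, c j * b j i := by
  classical
  let S : Set (Fin m → A) := {v | (∀ i, v i ∈ E) ∧ ∑ i, v i • n i = 0}
  let K : Submodule A (Fin m → A) := Submodule.span A S
  have hex : ∀ v : N, ∃ e : Fin m → A, (∀ i, e i ∈ E) ∧ (v : M) = ∑ i, e i • n i :=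
    fun v => (hn v).1 v.2
  choose e he1 he2 using hex
  have key : ∀ x y : Fin m → A, (∀ i, x i ∈ E) → (∀ i, y i ∈ E) →
      ∑ i, x i • n i = ∑ i, y i • n i → K.mkQ x = K.mkQ y := by
    intro x y hx hy hxy
    refine (Submodule.Quotient.eq K).2 (Submodule.subset_span ⟨fun i => E.sub_mem (hx i) (hy i), ?_⟩)
    rw [← sub_eq_zero] at hxy
    rw [← hxy, ← Finset.sum_sub_distrib]
    exact Finset.sum_congr rfl fun i _ => sub_smul (x i) (y i) (n i)
  let φ : N →+ ((Fin m → A) ⧸ K) := AddMonoidHom.mk' (fun v => K.mkQ (e v)) (by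
    intro u v
    rw [← map_add]
    refine key _ _ (he1 _) (fun i => E.add_mem (he1 u i) (he1 v i)) ?_
    rw [← he2 (u + v), Submodule.coe_add, he2 u, he2 v, ← Finset.sum_add_distrib]
    exact Finset.sum_congr rfl fun i _ => (add_smul (e u i) (e v i) (n i)).symm)
  have hφ : ∀ (x : E) (v : N), φ (x • v) = E.subtype x • φ v := by
    intro x v
    have h1 : E.subtype x • φ v = K.mkQ (E.subtype x • e v) := (map_smul K.mkQ _ _).symm
    rw [h1]
    refine key _ _ (he1 _) (fun i => E.mul_mem x.2 (he1 v i)) ?_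
    rw [← he2 (x • v)]
    have h2 : ((x • v : N) : M) = (x : A) • (v : M) := rfl
    rw [h2, he2 v, Finset.smul_sum]
    exact Finset.sum_congr rfl fun i _ => (mul_smul (x : A) (e v i) (n i)).symm
  obtain ⟨G, hG⟩ := Pool.Agent.Ep.exists_lift E.subtype φ hφ
  have hnN : ∀ i, n i ∈ N := by
    intro i
    refine (hn _).2 ⟨fun j => if j = i then 1 else 0, fun j => ?_, ?_⟩
    · change (if j = i then (1 : A) else 0) ∈ E
      split_ifs
      · exact E.one_mem
      · exact E.zero_mem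
    · simp
  have h0 : ∑ i, Pool.Agent.Ep.tm E.subtype (a i) (⟨n i, hnN i⟩ : N) = 0 := by
    apply F.injective
    rw [map_sum, map_zero, ← ha]
    exact Finset.sum_congr rfl fun i _ => hF _ _
  have h1 := congrArg G h0
  rw [map_sum, map_zero] at h1
  have h2 : ∀ i, φ ⟨n i, hnN i⟩ = K.mkQ (Pi.single i (1 : A)) := by
    intro i
    refine key _ _ (he1 _) (fun j => ?_) ?_
    · rw [Pi.single_apply]
      split_ifs
      · exact E.one_mem
      · exact E.zero_mem
    · rw [← he2]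
      simp [Pi.single_apply]
  have h3 : K.mkQ a = 0 := by
    rw [← h1]
    have h4 : a = ∑ i, a i • (Pi.single i (1 : A) : Fin m → A) := by
      funext j
      simp [Finset.sum_apply, Pi.single_apply]
    conv_lhs => rw [h4]
    rw [map_sum]
    refine Finset.sum_congr rfl fun i _ => ?_
    rw [hG, h2, map_smul]
  have h5 : a ∈ K := by
    have := (Submodule.ker_mkQ K).le (LinearMap.mem_ker.2 h3)
    exact this
  obtain ⟨q, c, g, hg⟩ := (Submodule.mem_span_set' (R := A)).1 h5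
  refine ⟨q, c, fun j => (g j : Fin m → A), fun j i => (g j).2.1 i, fun j => (g j).2.2, fun i => ?_⟩
  rw [← hg]
  simp [Finset.sum_apply]

lemma m7_step {A M : Type} [Ring A] [AddCommGroup M] [Module A M] {f : FR A} {E : Subring A}
    {σ τ : A} (h : Std d f E) (ho : Ord f E σ τ) {m : ℕ} {n : Fin m → M}
    (a : Fin m → A) (ha : ∀ i, a i ∈ f.F0)
    (hr : ∃ (q : ℕ) (c : Fin q → A) (b : Fin q → Fin m → A), (∀ j, c j ∈ f.F0) ∧
      (∀ j i, b j i ∈ E ⊓ f.F0) ∧ (∀ j, ∑ i, b j i • n i = 0) ∧ ∀ i, σ * a i = ∑ j, c j * b j i) :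
    ∃ (q : ℕ) (c : Fin q → A) (b : Fin q → Fin m → A), (∀ j, c j ∈ f.F0) ∧
      (∀ j i, b j i ∈ E ⊓ f.F0) ∧ (∀ j, ∑ i, b j i • n i = 0) ∧ ∀ i, a i = ∑ j, c j * b j i := by
  obtain ⟨q, c, b, hc, hb, hbn, hab⟩ := hr
  have hl : ∀ j, ∃ a0 ∈ E ⊓ f.F0, ∃ a1 ∈ f.F0, c j = a0 + σ * a1 := fun j => Std.level h ho (hc j)
  choose c0 hc0 c1 hc1 hcc using hl
  let g : Fin m → A := fun i => ∑ j, c0 j * b j i
  let g' : Fin m → A := fun i => a i - ∑ j, c1 j * b j i
  have hg : ∀ i, g i ∈ E ⊓ f.F0 := fun i =>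
    Subring.sum_mem _ fun j _ => Subring.mul_mem _ (hc0 j) (hb j i)
  have hg0 : ∀ i, g' i ∈ f.F0 := fun i => Subring.sub_mem _ (ha i)
    (Subring.sum_mem _ fun j _ => Subring.mul_mem _ (hc1 j) (hb j i).2)
  have hgg : ∀ i, σ * g' i = g i := by
    intro i
    have e1 : σ * g' i = σ * a i - ∑ j, σ * c1 j * b j i := by
      simp only [g', mul_sub, Finset.mul_sum, mul_assoc]
    rw [e1, hab i, ← Finset.sum_sub_distrib]
    refine Finset.sum_congr rfl fun j _ => ?_
    rw [← sub_mul, hcc j, add_sub_cancel_right]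
  have hg'g : ∀ i, g' i = τ * g i := by
    intro i
    rw [← hgg i, ← mul_assoc, ho.ts, one_mul]
  have hgE : ∀ i, g' i ∈ E := by
    intro i
    rw [hg'g i]
    exact E.mul_mem ho.tE (hg i).1
  have hgn : ∑ i, g i • n i = 0 := by
    have e2 : ∑ i, g i • n i = ∑ j, c0 j • ∑ i, b j i • n i := by
      simp only [g, Finset.sum_smul, Finset.smul_sum, mul_smul]
      exact Finset.sum_comm
    rw [e2]
    exact Finset.sum_eq_zero fun j _ => by rw [hbn j, smul_zero]
  refine ⟨q + 1, Fin.cons 1 c1, Fin.cons g' b, ?_, ?_, ?_, ?_⟩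
  · intro j
    refine Fin.cases ?_ (fun j => ?_) j
    · exact f.F0.one_mem
    · exact hc1 j
  · intro j
    refine Fin.cases ?_ (fun j => ?_) j
    · exact fun i => ⟨hgE i, hg0 i⟩
    · exact hb j
  · intro j
    refine Fin.cases ?_ (fun j => ?_) j
    · change ∑ i, g' i • n i = 0
      have e3 : ∑ i, g' i • n i = τ • ∑ i, g i • n i := by
        rw [Finset.smul_sum]
        exact Finset.sum_congr rfl fun i _ => by rw [hg'g i, mul_smul]
      rw [e3, hgn, smul_zero]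
    · exact hbn j
  · intro i
    rw [Fin.sum_univ_succ]
    change a i = 1 * g' i + ∑ j, c1 j * b j i
    rw [one_mul, sub_add_cancel]

lemma m7_desc {A M : Type} [Ring A] [AddCommGroup M] [Module A M] {f : FR A} {E : Subring A}
    {σ τ : A} (h : Std d f E) (ho : Ord f E σ τ) {m : ℕ} {n : Fin m → M} (K : ℕ) :
    ∀ (a : Fin m → A), (∀ i, a i ∈ f.F0) →
    (∃ (q : ℕ) (c : Fin q → A) (b : Fin q → Fin m → A), (∀ j, c j ∈ f.F0) ∧
      (∀ j i, b j i ∈ E ⊓ f.F0) ∧ (∀ j, ∑ i, b j i • n i = 0) ∧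
        ∀ i, σ ^ K * a i = ∑ j, c j * b j i) →
    ∃ (q : ℕ) (c : Fin q → A) (b : Fin q → Fin m → A), (∀ j, c j ∈ f.F0) ∧
      (∀ j i, b j i ∈ E ⊓ f.F0) ∧ (∀ j, ∑ i, b j i • n i = 0) ∧ ∀ i, a i = ∑ j, c j * b j i := by
  induction K with
  | zero =>
    intro a _ hr
    simpa only [pow_zero, one_mul] using hr
  | succ K ih =>
    intro a ha hr
    refine ih a ha (m7_step h ho (fun i => σ ^ K * a i)
      (fun i => f.F0.mul_mem (f.F0.pow_mem ho.s0 K) (ha i)) ?_)
    simpa only [← mul_assoc, ← pow_succ'] using hr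

/-- Let `N` be a form of `M` and `n` a family which generates `N q` over `E q`. Then the relations over
`F0` are generated by relations over `E ⊓ F0`. Proof: the isomorphism `Ext … ≃ M q` shows that the
relations over `hat E` are generated by relations over `E` (the kernel of `A ^ m → Ext` is generated by
the relations over `E`); multiply by powers of `σ`: if `f` is a relation over `F0` then
`σ ^ K f = ∑ c_l b_l` with `c_l ∈ F0`, `b_l` relations over `E ⊓ F0`. If `σ f = ∑ c_l b_l`, decompose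
`c_l = c0_l + σ c1_l` (`Std.level`): `∑ c0_l b_l = σ (f - …)` is divisible by `σ`, the quotient is a relation
over `E ⊓ F0`; so `f` is a combination. -/
theorem gr_of_form {N : P.Sub M} (hF : N.IsForm) {q : T} (hz : q ∉ P.Z) {σ τ : P.hat.A q}
    (ho : Ord (P.hat.fil q) (P.E q) σ τ) {m : ℕ} {n : Fin m → M.M q} (hn : N.N q = spE P M n) :
    GR (P.hat.fil q) (P.E q) n := by
  intro a ha han
  obtain ⟨F, hF'⟩ := hF q
  obtain ⟨k, c, b, hb, hbn, hab⟩ := m7_rel (P.E q) (N.N q) F hF' n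
    (fun u => by rw [hn]; exact mem_spE u) a han
  obtain ⟨k1, hk1⟩ : ∃ k1 : ℕ, ∀ j i, σ ^ k1 * b j i ∈ P.E q ⊓ (P.hat.fil q).F0 := by
    have h1 : ∀ j, ∃ k1 : ℕ, ∀ i, σ ^ k1 * b j i ∈ P.E q ⊓ (P.hat.fil q).F0 :=
      fun j => ho.exists_powE (b j) (hb j)
    choose k1 hk1 using h1
    refine ⟨∑ j, k1 j, fun j i => ?_⟩
    have h2 : ∑ j, k1 j = (∑ j ∈ Finset.univ.erase j, k1 j) + k1 j :=
      (Finset.sum_erase_add _ _ (Finset.mem_univ j)).symm
    rw [h2, pow_add, mul_assoc]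
    exact Subring.mul_mem _ (Subring.pow_mem _ (show σ ∈ P.E q ⊓ (P.hat.fil q).F0 from ⟨ho.sE, ho.s0⟩) _) (hk1 j i)
  obtain ⟨k2, hk2⟩ := ho.exists_pow (fun j => c j * τ ^ k1)
  refine m7_desc (P.std q hz) ho k2 a ha ⟨k, fun j => σ ^ k2 * (c j * τ ^ k1),
    fun j i => σ ^ k1 * b j i, hk2, hk1, fun j => ?_, fun i => ?_⟩
  · have e1 : ∑ i, (σ ^ k1 * b j i) • n i = σ ^ k1 • ∑ i, b j i • n i := by
      rw [Finset.smul_sum]
      exact Finset.sum_congr rfl fun i _ => mul_smul _ _ _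
    rw [e1, hbn j, smul_zero]
  · rw [hab i, Finset.mul_sum]
    refine Finset.sum_congr rfl fun j _ => ?_
    have e2 : τ ^ k1 * (σ ^ k1 * b j i) = b j i := by
      rw [← mul_assoc, ho.pow_ts, one_mul]
    rw [mul_assoc (σ ^ k2), mul_assoc (c j), e2]

/-! ## row m8: the lattice of another form -/

/-- a module generated by a family over a subring -/
private def m8_L {A M : Type} [Ring A] [AddCommGroup M] [Module A M] (B : Subring A) {k : ℕ}
    (n : Fin k → M) : Set M := {u | ∃ b : Fin k → A, (∀ i, b i ∈ B) ∧ u = ∑ i, b i • n i}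

private lemma m8_gen {A M : Type} [Ring A] [AddCommGroup M] [Module A M] (B : Subring A) {k : ℕ}
    (n : Fin k → M) : Gen B (m8_L B n) n := fun _ => Iff.rfl

/-- one point: generators of the lattice of `N` generate `N` over `E` -/
private lemma m8_span {N : P.Sub M} {r : T} (L : Set (N.mod.M r))
    (hs : ∀ u : N.mod.M r, u ∈ Submodule.span (P.mic.A r) L) {k : ℕ} (m : Fin k → M.M r)
    (hL : ∀ u : N.N r, u ∈ L → (u : M.M r) ∈ spE P M m) (u : N.N r) :
    (u : M.M r) ∈ spE P M m := by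
  have h : ∀ x : N.N r, x ∈ Submodule.span (P.mic.A r) L → (x : M.M r) ∈ spE P M m := by
    intro x hx
    induction hx using Submodule.span_induction with
    | mem x hx => exact hL x hx
    | zero => exact (spE P M m).zero_mem
    | add x y _ _ hx hy => exact (spE P M m).add_mem hx hy
    | smul a x _ hx => exact (spE P M m).smul_mem (a : P.E r) hx
  exact h u (hs u)

/-- one point: a family which generates `N` over `E` generates `M` over `hat E` -/
private lemma m8_top {N : P.Sub M} (hF : N.IsForm) {r : T} {k : ℕ} (m : Fin k → M.M r)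
    (hm : ∀ i, m i ∈ N.N r) (hs : ∀ u : N.N r, (u : M.M r) ∈ spE P M m) (u : M.M r) :
    ∃ a : Fin k → P.hat.A r, u = ∑ i, a i • m i := by
  obtain ⟨F, hFt⟩ := hF r
  have h1 : ∀ v : N.N r, ∃ a : Fin k → P.E r, v = ∑ i, a i • (⟨m i, hm i⟩ : N.N r) := by
    intro v
    obtain ⟨a, ha, hv⟩ := (mem_spE (v : M.M r)).1 (hs v)
    refine ⟨fun i => ⟨a i, ha i⟩, Subtype.ext ?_⟩
    rw [hv, AddSubmonoidClass.coe_finsetSum]
    rfl
  obtain ⟨f, hf⟩ := Pool.Agent.Ep.exists_tm (P.E r).subtype (fun i => (⟨m i, hm i⟩ : N.N r)) h1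
    (F.symm u)
  refine ⟨f, ?_⟩
  have h2 := congrArg F hf
  rw [LinearEquiv.apply_symm_apply, map_sum] at h2
  rw [h2]
  exact Finset.sum_congr rfl fun i _ => hFt _ _

/-- the data at `q` -/
private lemma m8_data {N : P.Sub M} (hN : N.mod.RH P.Z d) (hF : N.IsForm) (q : T) :
    ∃ (k : ℕ) (m : Fin k → M.M q) (L0 : Set (M.M q)),
      Gen (P.E q ⊓ P.F0 q) L0 m ∧ N.N q = spE P M m ∧
      (∀ᶠ r in 𝓝 q, ∀ u : M.M r, ∃ a : Fin k → P.hat.A r, u = ∑ i, a i • M.ext q (m i) r) ∧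
      (∀ a : P.E q, (a : P.hat.A q) ∈ (P.hat.fil q).F 1 → P.hat.Van 1 M.supp q (a : P.hat.A q) →
        ∀ u ∈ L0, (a : P.hat.A q) • u ∈ L0) := by
  obtain ⟨V, L, hV, hq, hL⟩ := hN.reg q
  obtain ⟨hfp, hspan, hJ⟩ := hL q hq
  obtain ⟨k, c, l, r, hp⟩ := (fp_mod_iff N (fun q => (P.mic.fil q).F0) L).1 hfp
  have hB : ∀ r : T, ((P.mic.fil r).F0).map (P.E r).subtype = P.E r ⊓ P.F0 r := by
    intro r
    ext a
    constructor
    · rintro ⟨b, hb, rfl⟩
      exact ⟨b.2, hb⟩
    · rintro ⟨h1, h2⟩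
      exact ⟨⟨a, h1⟩, h2, rfl⟩
  -- at all points near `q`
  have hnear : ∀ᶠ r in 𝓝 q, (∀ u : N.N r, (u : M.M r) ∈ spE P M (fun i => M.ext q (l i) r)) ∧
      ∀ i, M.ext q (l i) r ∈ N.N r := by
    filter_upwards [hp, hV.mem_nhds hq, (Filter.eventually_all (ι := Fin k)).2
      (fun i => N.ext_N q (l i) (l i).2)] with r hr hrV hrN
    refine ⟨?_, hrN⟩
    refine m8_span (L r) (hL r hrV).2.1 _ ?_
    intro u hu
    obtain ⟨b, hb, hub⟩ := (hr.2.1 _).1 ⟨u, hu, rfl⟩
    refine (mem_spE _).2 ⟨b, fun i => ?_, hub⟩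
    have h1 := hb i
    rw [hB r] at h1
    exact h1.1
  have hself := hnear.self_of_nhds
  simp only [M.ext_self] at hself
  refine ⟨k, fun i => l i, Subtype.val '' (L q : Set (N.N q)), ?_, ?_, ?_, ?_⟩
  · have h1 := hp.self_of_nhds.2.1
    simp only [M.ext_self] at h1
    intro u
    rw [h1 u, hB q]
  · apply le_antisymm
    · intro u hu
      exact hself.1 ⟨u, hu⟩
    · intro u hu
      obtain ⟨a, ha, rfl⟩ := (mem_spE u).1 hu
      exact Submodule.sum_mem _ fun i _ => (N.N q).smul_mem (⟨a i, ha i⟩ : P.E q) (l i).2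
  · filter_upwards [hnear] with r hr
    exact m8_top hF _ hr.2 hr.1
  · rintro a ha hv _ ⟨u, hu, rfl⟩
    have h1 : P.mic.Van 1 N.mod.supp q a := by
      rw [supp_mod hF]
      exact (mic_van M.supp a ha).2 hv
    exact ⟨_, hJ a ha h1 u hu, rfl⟩

/-- an operator of order `≤ 0` in `E` whose symbol vanishes on the support maps `L` into `σ L` -/
private lemma m8_key {q : T} {σ τ : P.hat.A q} (hz : q ∉ P.Z)
    (ho : Ord (P.hat.fil q) (P.E q) σ τ) {k : ℕ} {m : Fin k → M.M q} {L0 : Set (M.M q)}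
    (hg : Gen (P.E q ⊓ P.F0 q) L0 m)
    (hJ : ∀ a : P.E q, (a : P.hat.A q) ∈ (P.hat.fil q).F 1 →
      P.hat.Van 1 M.supp q (a : P.hat.A q) → ∀ u ∈ L0, (a : P.hat.A q) • u ∈ L0)
    {a : P.hat.A q} (haE : a ∈ P.E q) (ha : a ∈ P.F0 q) (hv : P.hat.Van 0 M.supp q a) (u : M.M q)
    (hu : u ∈ m8_L (P.F0 q) m) : ∃ w ∈ m8_L (P.F0 q) m, a • u = σ • w := by
  have hstd := P.std q hz
  have h1 : P.hat.Van 1 M.supp q (τ * a) := (van_iff P ho M.supp).2 hv
  have h2 : τ * a ∈ (P.hat.fil q).F 1 := by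
    have h3 := (P.hat.fil q).mul 1 0 τ a ho.t1 ha
    simpa only [add_zero] using h3
  have h4 : ∀ i, (τ * a) • m i ∈ m8_L (P.F0 q) m := by
    intro i
    obtain ⟨b, hb, h5⟩ := (hg _).1 (hJ ⟨τ * a, (P.E q).mul_mem ho.tE haE⟩ h2 h1 (m i) (hg.mem i))
    exact ⟨b, fun i => (hb i).2, h5⟩
  have hgen := m8_gen (P.F0 q) m
  obtain ⟨b, hb, rfl⟩ := hu
  have h6 : ∀ i, ∃ c ∈ P.F0 q, a * b i - b i * a = σ * c := fun i => hstd.comm ho ha (hb i)
  choose c hc hc' using h6
  refine ⟨∑ i, ((τ * b i * σ) • ((τ * a) • m i) + c i • m i), ?_, ?_⟩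
  · rw [Finset.sum_add_distrib]
    refine hgen.add (hgen.sum _ _ _ (fun i => ho.conj (hb i)) h4) (hgen.sum _ _ _ hc hgen.mem)
  · rw [Finset.smul_sum, Finset.smul_sum]
    refine Finset.sum_congr rfl fun i _ => ?_
    have h7 : a * b i = σ * (τ * b i * σ) * (τ * a) + σ * c i := by
      have h8 : σ * (τ * b i * σ) * (τ * a) = (σ * τ) * b i * (σ * τ) * a := by
        simp only [mul_assoc]
      rw [h8, ho.st, one_mul, mul_one, ← hc' i]
      abel
    rw [smul_smul, h7, add_smul, smul_add, mul_smul, mul_smul, mul_smul σ (c i)]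

/-- `σ F0` is a two sided ideal of `F0` and `F0 / σ F0` is commutative -/
private lemma m8_pow {q : T} {σ τ : P.hat.A q}
    (ho : Ord (P.hat.fil q) (P.E q) σ τ) {a0 a1 : P.hat.A q} (h0 : a0 ∈ P.F0 q)
    (h1 : a1 ∈ P.F0 q) (n : ℕ) : ∃ c ∈ P.F0 q, (a0 + σ * a1) ^ n = a0 ^ n + σ * c := by
  induction n with
  | zero => exact ⟨0, (P.F0 q).zero_mem, by rw [pow_zero, pow_zero, mul_zero, add_zero]⟩
  | succ n ih =>
    obtain ⟨c, hc, h2⟩ := ih
    refine ⟨(τ * a0 ^ n * σ) * a1 + c * (a0 + σ * a1), ?_, ?_⟩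
    · exact (P.F0 q).add_mem ((P.F0 q).mul_mem (ho.conj ((P.F0 q).pow_mem h0 n)) h1)
        ((P.F0 q).mul_mem hc ((P.F0 q).add_mem h0 ((P.F0 q).mul_mem ho.s0 h1)))
    · have h3 : σ * ((τ * a0 ^ n * σ) * a1 + c * (a0 + σ * a1))
          = (σ * τ) * a0 ^ n * σ * a1 + σ * c * (a0 + σ * a1) := by
        simp only [mul_add, mul_assoc]
      rw [pow_succ, h2, h3, ho.st, one_mul, pow_succ, add_mul, mul_add, mul_add]
      simp only [mul_assoc]
      abel

/-- Let `N` be a regular holonomic form of `M` and `q ∉ Z`. The lattice of `N` at `q` generates over `F0` a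
lattice of `M q`. (`fp_mod_iff` for the lattice of `N`; `reg`, `hol`: for `a ∈ F0` write `a = a0 + σ a1`;
if `a ^ n L ⊆ σ L` then `a0 ^ n L ⊆ σ L`, by `not_inv_near`, `van_iff`, `mic_van` the symbol of `τ a0` vanishes
on the support, so `τ a0` preserves the lattice of `N`.) -/
theorem exists_mic {N : P.Sub M} (hN : N.mod.RH P.Z d) (hF : N.IsForm) {q : T} (hz : q ∉ P.Z)
    {σ τ : P.hat.A q} (ho : Ord (P.hat.fil q) (P.E q) σ τ) :
    ∃ (L : Set (M.M q)) (m : ℕ) (n : Fin m → M.M q), Gen (P.F0 q) L n ∧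
      Lat d (P.hat.fil q) σ L ∧ N.N q = spE P M n := by
  obtain ⟨k, m, L0, hg, hNq, hnear, hJ⟩ := m8_data hN hF q
  have hgen := m8_gen (P.F0 q) m
  have hstd := P.std q hz
  refine ⟨m8_L (P.F0 q) m, k, m, hgen, ⟨⟨k, m, hgen⟩, ?_, ?_, ?_⟩, hNq⟩
  · intro u
    have h1 := hnear.self_of_nhds u
    simp only [M.ext_self] at h1
    obtain ⟨a, rfl⟩ := h1
    exact Submodule.sum_mem _ fun i _ => Submodule.smul_mem _ _ (Submodule.subset_span (hgen.mem i))
  · rintro a ha ⟨n, hn⟩ u hu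
    obtain ⟨a0, ha0, a1, ha1, rfl⟩ := hstd.level ho ha
    obtain ⟨c, hc, hpow⟩ := m8_pow ho ha0.2 ha1 n
    have hv : P.hat.Van 0 M.supp q a0 := by
      refine not_inv_near P M hz ho m hnear ha0.2 n fun i => ?_
      obtain ⟨w, hw, h2⟩ := hn (m i) (hgen.mem i)
      have h3 : w - c • m i ∈ m8_L (P.F0 q) m := by
        rw [sub_eq_add_neg]
        exact hgen.add hw (hgen.neg (hgen.smul hc (hgen.mem i)))
      obtain ⟨e, he, h4⟩ := h3
      refine ⟨e, he, ?_⟩
      rw [← h4, smul_sub, ← h2, hpow, add_smul, mul_smul, add_sub_cancel_right]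
    obtain ⟨w, hw, h2⟩ := m8_key hz ho hg hJ ha0.1 ha0.2 hv u hu
    refine ⟨w + a1 • u, hgen.add hw (hgen.smul ha1 hu), ?_⟩
    rw [add_smul, h2, mul_smul, smul_add]
  · intro O _ φ hφ hker
    let j : (P.mic.fil q).F0 →+* (P.hat.fil q).F0 :=
      { toFun := fun a => ⟨(show P.E q from a.1).1, a.2⟩
        map_one' := rfl
        map_mul' := fun _ _ => rfl
        map_zero' := rfl
        map_add' := fun _ _ => rfl }
    have hσ : ∀ (a1 : P.hat.A q) (h1 : a1 ∈ P.F0 q) (h2 : σ * a1 ∈ P.F0 q),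
        φ ⟨σ * a1, h2⟩ = 0 := by
      intro a1 h1 h2
      refine hker _ fun u hu => ⟨a1 • u, hgen.smul h1 hu, ?_⟩
      exact mul_smul σ a1 u
    have h0 := hN.hol q hz O (φ.comp j) ?_ ?_
    · exact h0
    · intro x
      obtain ⟨⟨a, ha⟩, rfl⟩ := hφ x
      obtain ⟨a0, ha0, a1, ha1, h1⟩ := hstd.level ho ha
      refine ⟨⟨⟨a0, ha0.1⟩, ha0.2⟩, ?_⟩
      have h2 : σ * a1 ∈ P.F0 q := (P.F0 q).mul_mem ho.s0 ha1
      have h3 : (⟨a, ha⟩ : (P.hat.fil q).F0)
          = (⟨a0, ha0.2⟩ : (P.hat.fil q).F0) + ⟨σ * a1, h2⟩ := Subtype.ext h1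
      rw [h3, map_add, hσ a1 ha1 h2, add_zero]
      rfl
    · rintro ⟨⟨a, haE⟩, ha0⟩ ha
      refine hker _ fun u hu => ?_
      refine m8_key hz ho hg hJ haE ha0 ?_ u hu
      have h1 : P.mic.Van 0 M.supp q (⟨a, haE⟩ : P.E q) := by
        rw [← supp_mod hF]
        exact ha
      exact (mic_van M.supp (⟨a, haE⟩ : P.E q) ha0).1 h1

/-! ## row m9: uniqueness -/

private lemma m9_le {q : T} {m : ℕ} (x : Fin m → M.M q) (N : Submodule (P.E q) (M.M q))
    (h : ∀ i, x i ∈ N) : spE P M x ≤ N := by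
  refine Submodule.span_le.2 ?_
  rintro _ ⟨i, rfl⟩
  exact h i

private lemma m9_top {N : P.Sub M} (hF : N.IsForm) {q : T} (hE : P.E q = ⊤) (u : M.M q) :
    u ∈ N.N q := by
  obtain ⟨F, hF'⟩ := hF q
  have key : ∀ x, F x ∈ N.N q := by
    intro x
    refine Pool.Agent.Ep.ext_induction (P.E q).subtype (p := fun x => F x ∈ N.N q) ?_ ?_ x
    · intro b n
      have hb : b ∈ P.E q := by rw [hE]; trivial
      change F _ ∈ N.N q
      rw [hF']
      exact (N.N q).smul_mem ⟨b, hb⟩ n.2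
    · intro a b ha hb
      rw [map_add]
      exact (N.N q).add_mem ha hb
  have h := key (F.symm u)
  rwa [F.apply_symm_apply] at h

/-- `exists_mic`, `gr_of_form`, `Lat.unique` outside `Z`; on `Z` both are everything -/
theorem form_unique (h : M.RH P.Z d) {N : P.Sub M} (hN : N.mod.RH P.Z d) (hF : N.IsForm) (q : T) :
    N.N q = (theN h).N q := by
  change N.N q = spE P M (loc h q).n
  by_cases hz : q ∈ P.Z
  · have hE : P.E q = ⊤ := (P.zero q hz).1
    refine le_antisymm ?_ (m9_le _ _ fun i => m9_top hF hE _)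
    intro u _
    obtain ⟨a, -, ha⟩ := ((loc h q).self.pres.2.1 u).1 trivial
    exact (mem_spE u).2 ⟨a, fun i => by rw [hE]; trivial, ha⟩
  · have hs := P.std q hz
    obtain ⟨σ, τ, ho⟩ := hs.exists_ord
    have hl : Lat d (P.hat.fil q) σ ((loc h q).L q) :=
      lat_hat P M h (loc h q).hV (loc h q).hL (loc h q).hp hz ho
    obtain ⟨L', m, n, hn, hl', hNq⟩ := exists_mic hN hF hz ho
    have hg' : GR (P.hat.fil q) (P.E q) n := gr_of_form hF hz ho hNq
    have hg : GR (P.hat.fil q) (P.E q) (loc h q).n :=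
      Pres.gr (loc h q).self.pres0 (loc h q).self.memE
    rw [hNq]
    refine le_antisymm (m9_le n _ fun i => ?_) (m9_le (loc h q).n _ fun i => ?_)
    · exact (mem_spE _).2 (Lat.unique hs ho hl hl' (loc h q).self.pres0.2.1 hg hn hg' i)
    · exact (mem_spE _).2 (Lat.unique hs ho hl' hl hn hg' (loc h q).self.pres0.2.1 hg i)

/-- THE THEOREM: every regular holonomic module `M` over the formal microdifferential operators
contains exactly one sheaf of submodules `N` over the microdifferential operators which is regular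
holonomic and satisfies `hat E ⊗_E N = M`. -/
theorem main (h : M.RH P.Z d) : ∃! N : P.Sub M, N.mod.RH P.Z d ∧ N.IsForm := by
  refine ⟨theN h, ⟨theN_rh h, theN_form h⟩, ?_⟩
  rintro ⟨N, hN⟩ ⟨h1, h2⟩
  have h3 := form_unique h h1 h2
  have h4 : N = (theN h).N := funext h3
  subst h4
  rfl

end Pool.Agent.Msh
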